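import Pool.Agent.Lib.MP_f0c981_al.Bar

/-!
From a projective resolution of finite length to a short chain map of the bar complex.
-/

set_option autoImplicit false

noncomputable section

namespace Pool.Agent.Lib.MP_f0c981_al

open CategoryTheory Limits Rep

variable {k G : Type} [CommRing k] [Group G]

lemma exists_std (P : ProjectiveResolution (Rep.trivial k G k)) (L : ℕ)
    (hP : ∀ n, L < n → IsZero (P.complex.X n)) :
    ∃ F : ∀ n, MonoidAlgebra k (Fin (n + 1) → G) →ₗ[k] MonoidAlgebra k (Fin (n + 1) → G),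
      (∀ n γ x, F n (Representation.ofMulAction k G _ γ x) =
        Representation.ofMulAction k G _ γ (F n x)) ∧
      (∀ n x, standardComplex.d k G (n + 1) (F (n + 1) x) =
        F n (standardComplex.d k G (n + 1) x)) ∧
      (∀ x, (standardComplex.ε k G).hom (F 0 x) = (standardComplex.ε k G).hom x) ∧
      ∀ n, L < n → ∀ x, F n x = 0 := by
  let a := ProjectiveResolution.lift (𝟙 _) (standardResolution k G) P
  let b := ProjectiveResolution.lift (𝟙 _) P (standardResolution k G)
  let c : standardComplex k G ⟶ standardComplex k G := a ≫ b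
  refine ⟨fun n => (c.f n).hom.toLinearMap, fun n γ x => hom_comm_apply (c.f n) γ x,
    fun n x => ?_, fun x => ?_, fun n hn x => ?_⟩
  · have h := congrArg (fun φ => φ.hom x) (c.comm (n + 1) n)
    rw [← standardComplex.d_apply, ← standardComplex.d_apply]
    exact h
  · have h : c.f 0 ≫ (standardResolution k G).π.f 0 = (standardResolution k G).π.f 0 := by
      change (a.f 0 ≫ b.f 0) ≫ _ = _
      rw [Category.assoc]
      erw [ProjectiveResolution.lift_commutes_zero, Category.comp_id,
        ProjectiveResolution.lift_commutes_zero]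
      exact Category.comp_id _
    have e : (standardResolution k G).π.f 0 = standardComplex.ε k G :=
      ChainComplex.toSingle₀Equiv_symm_apply_f_zero _ _
    rw [e] at h
    exact congrArg (fun φ => φ.hom x) h
  · have h : c.f n = 0 := by
      change a.f n ≫ b.f n = 0
      rw [(hP n hn).eq_of_src (b.f n) 0]
      exact comp_zero
    exact congrArg (fun φ => φ.hom x) h

lemma exists_ofFn {S : Type} {l : List S} {n : ℕ} (h : l.length = n) :
    ∃ x : Fin n → S, l = List.ofFn x := by
  subst h
  exact ⟨_, (List.ofFn_get l).symm⟩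

theorem FD_of_resolution (P : ProjectiveResolution (Rep.trivial k G k)) (L : ℕ)
    (hP : ∀ n, L < n → IsZero (P.complex.X n)) : FD k G G (L + 1) := by
  obtain ⟨F, F1, F2, F3, F4⟩ := exists_std P L hP
  let tt : ∀ n, MonoidAlgebra k (Fin n → G) →ₗ[k] B k G := fun n =>
    Finsupp.lmapDomain k k List.ofFn ∘ₗ (MonoidAlgebra.coeffLinearEquiv k).toLinearMap
  let ff : ∀ n, B k G →ₗ[k] MonoidAlgebra k (Fin n → G) := fun n =>
    Finsupp.linearCombination k fun l => MonoidAlgebra.single (fun i => l.getD i 1) 1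
  have t0 : ∀ n x r, tt n (MonoidAlgebra.single x r) = Finsupp.single (List.ofFn x) r :=
    fun n x r => by simp [tt]
  have f0 : ∀ n x, ff n (Finsupp.single (List.ofFn x) 1) = MonoidAlgebra.single x 1 :=
    fun n x => by simp [ff]
  have ext0 : ∀ {n : ℕ} {M : Type} [AddCommGroup M] [Module k M]
      (u v : MonoidAlgebra k (Fin n → G) →ₗ[k] M),
      (∀ x, u (MonoidAlgebra.single x 1) = v (MonoidAlgebra.single x 1)) → ∀ x, u x = v x :=
    fun u v h => LinearMap.congr_fun (MonoidAlgebra.lhom_ext' fun x => LinearMap.ext_ring (h x))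
  have t1 : ∀ n γ x, tt n (Representation.ofMulAction k G _ γ x) = act k G G γ (tt n x) :=
    fun n γ => ext0 (tt n ∘ₗ Representation.ofMulAction k G _ γ) (act k G G γ ∘ₗ tt n) fun x => by
      simp only [LinearMap.comp_apply, Representation.ofMulAction_single, t0, act_single,
        List.map_ofFn]
      rfl
  have t2 : ∀ n x, tt n (standardComplex.d k G n x) = bd (tt (n + 1) x) :=
    fun n => ext0 (tt n ∘ₗ standardComplex.d k G n) (bd ∘ₗ tt (n + 1)) fun x => by
      simp only [LinearMap.comp_apply, standardComplex.d_of, map_sum, t0, bd_ofFn,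
        Finsupp.smul_single, smul_eq_mul, mul_one]
  have t3 : ∀ n x, tt n x ∈ gr k G n := fun n x => by
    induction x using MonoidAlgebra.induction_linear with
    | zero => simp
    | add a b h1 h2 => rw [map_add]; exact add_mem h1 h2
    | single x r => rw [t0]; exact single_mem_gr List.length_ofFn _
  have ft : ∀ n x, ff n (tt n x) = x := fun n => ext0 (ff n ∘ₗ tt n) LinearMap.id fun x => by
    simp only [LinearMap.comp_apply, t0, f0, LinearMap.id_apply]
  have tf : ∀ n, ∀ y ∈ gr k G n, tt n (ff n y) = y := fun n y hy =>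
    gr_ext (tt n ∘ₗ ff n) LinearMap.id (fun l hl => by
      obtain ⟨x, rfl⟩ := exists_ofFn hl
      simp only [LinearMap.comp_apply, t0, f0, LinearMap.id_apply]) hy
  have e0 : ∀ x, bd (tt 1 x) = Finsupp.single [] ((standardComplex.ε k G).hom x) :=
    ext0 (bd ∘ₗ tt 1) (Finsupp.lsingle [] ∘ₗ (standardComplex.ε k G).hom.toLinearMap) fun x => by
      simp [t0, bd_single_cons, standardComplex.ε]
  obtain ⟨g, hg⟩ := glue (k := k) (S := G) fun n => match n with
    | 0 => LinearMap.id
    | n + 1 => tt (n + 1) ∘ₗ F n ∘ₗ ff (n + 1)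
  have g0 : ∀ y ∈ gr k G 0, g y = y := hg 0
  have g1 : ∀ n x, g (tt (n + 1) x) = tt (n + 1) (F n x) := fun n x => by
    rw [hg _ _ (t3 _ x)]
    simp only [LinearMap.comp_apply, ft]
  refine ⟨g, fun γ => ext_gr (g ∘ₗ act k G G γ) (act k G G γ ∘ₗ g) fun n y hy => ?_,
    ext_gr (bd ∘ₗ g) (g ∘ₗ bd) fun n y hy => ?_, fun n y hy => ?_,
    g0 _ (single_mem_gr List.length_nil _), fun n hn y hy => ?_⟩
  · simp only [LinearMap.comp_apply]
    rcases n with _ | n
    · rw [g0 _ hy, g0 _ (act_gr γ hy)]
    · rw [← tf _ y hy, ← t1, g1, g1, F1, t1]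
  · simp only [LinearMap.comp_apply]
    rcases n with _ | _ | n
    · rw [g0 _ hy, bd_gr_zero hy, map_zero]
    · rw [g0 _ (bd_gr hy), ← tf _ y hy, g1, e0, e0, F3]
    · rw [← tf _ y hy, g1, ← t2, ← t2, g1, F2]
  · rcases n with _ | n
    · rwa [g0 _ hy]
    · rw [← tf _ y hy, g1]
      exact t3 _ _
  · obtain ⟨m, rfl⟩ : ∃ m, n = m + 1 := ⟨n - 1, by omega⟩
    rw [← tf _ y hy, g1, F4 m (by omega), map_zero]

end Pool.Agent.Lib.MP_f0c981_al
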