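import Mathlib

-- part Pool.Agent.Lib.MP_f0c981_al.Core
section

/-!
Elementary homological algebra of graded complexes with a group action.
-/

set_option autoImplicit false

noncomputable section

namespace Pool.Agent.Lib.MP_f0c981_al

variable {k : Type} [CommRing k] {G : Type} [Group G]

/-- A graded complex with a group action, on one total module. -/
structure Cx (k G : Type) [CommRing k] [Group G] (M : Type) [AddCommGroup M] [Module k M] where
  ρ : Representation k G M
  d : M →ₗ[k] M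
  gr : ℕ → Submodule k M
  ρ_d : ∀ γ x, d (ρ γ x) = ρ γ (d x)
  ρ_gr : ∀ γ n, ∀ x ∈ gr n, ρ γ x ∈ gr n
  d_gr : ∀ n, ∀ x ∈ gr (n + 1), d x ∈ gr n
  dd : ∀ x, d (d x) = 0

/-- Exactness in all degrees. -/
def Cx.Exact {M : Type} [AddCommGroup M] [Module k M] (C : Cx k G M) : Prop :=
  ∀ n, ∀ y ∈ C.gr n, C.d y = 0 → ∃ x ∈ C.gr (n + 1), C.d x = y

/-- Projectivity of an invariant submodule, for targets on which `K` acts trivially. -/
def Proj {P : Type} [AddCommGroup P] [Module k P] (ρ : Representation k G P) (K : Subgroup G)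
    (P' : Submodule k P) : Prop :=
  ∀ (M : Type) [AddCommGroup M] [Module k M] (σ : Representation k G M),
    (∀ γ ∈ K, ∀ y, σ γ y = y) → ∀ R : Submodule k (P × M),
    (∀ γ x y, (x, y) ∈ R → (ρ γ x, σ γ y) ∈ R) → (∀ x ∈ P', ∃ y, (x, y) ∈ R) →
    ∃ θ : P →ₗ[k] M, (∀ γ, ∀ x ∈ P', θ (ρ γ x) = σ γ (θ x)) ∧ ∀ x ∈ P', (x, θ x) ∈ R

lemma exists_triv {X : Type} [MulAction G X] (K : Subgroup G) (X' : Set X)
    (hX : ∀ (γ : G), ∀ x ∈ X', γ • x ∈ X') (hK : ∀ x ∈ X', ∀ γ : G, γ • x = x → γ ∈ K) :
    ∃ r : X → G, ∀ (γ : G), ∀ x ∈ X', (r (γ • x))⁻¹ * γ * r x ∈ K := by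
  let o : X → X := fun x => (Quotient.mk (MulAction.orbitRel G X) x).out
  have ho : ∀ x, ∃ γ : G, γ • o x = x := fun x =>
    (MulAction.orbitRel G X).symm (Quotient.mk_out (s := MulAction.orbitRel G X) x)
  choose r hr using ho
  refine ⟨r, fun γ x hx => hK (o x) ?_ _ ?_⟩
  · have := hX (r x)⁻¹ x hx
    rwa [inv_smul_eq_iff.2 (hr x).symm] at this
  · have e : o (γ • x) = o x := by
      have : Quotient.mk (MulAction.orbitRel G X) (γ • x) =
          Quotient.mk (MulAction.orbitRel G X) x := Quotient.sound ⟨γ, rfl⟩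
      simp only [o, this]
    rw [mul_smul, mul_smul, hr, inv_smul_eq_iff, ← e, hr]

lemma proj_of_basis {P Λ X : Type} [AddCommGroup P] [Module k P] [AddCommGroup Λ] [Module k Λ]
    [Module.Projective k Λ] [MulAction G X] (ρ : Representation k G P) (τ : Representation k G Λ)
    (e : X → Λ →ₗ[k] P) (he : ∀ γ x a, ρ γ (e x a) = e (γ • x) (τ γ a))
    (hc : ∀ (M : Type) [AddCommGroup M] [Module k M] (φ : X → Λ →ₗ[k] M),
      ∃ θ : P →ₗ[k] M, ∀ x a, θ (e x a) = φ x a)
    (K : Subgroup G) (hKP : ∀ γ ∈ K, ∀ x, ρ γ x = x) (X' : Set X)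
    (hX : ∀ (γ : G), ∀ x ∈ X', γ • x ∈ X') (hK : ∀ x ∈ X', ∀ γ : G, γ • x = x → γ ∈ K) :
    Proj ρ K (Submodule.span k {y | ∃ x ∈ X', ∃ a, y = e x a}) := by
  intro M _ _ σ hσ R hR hex
  obtain ⟨r, hr⟩ := exists_triv K X' hX hK
  have h1 : ∀ x : X, ∃ φ : Λ →ₗ[k] M, x ∈ X' → ∀ a, (e x a, φ a) ∈ R := by
    intro x
    by_cases hx : x ∈ X'
    swap
    · exact ⟨0, fun h => absurd h hx⟩
    have hm : ∀ a, e x a ∈ LinearMap.range (LinearMap.fst k P M ∘ₗ R.subtype) := by
      intro a
      obtain ⟨y, hy⟩ := hex (e x a) (Submodule.subset_span ⟨_, hx, _, rfl⟩)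
      exact ⟨⟨_, hy⟩, rfl⟩
    obtain ⟨h, hh⟩ := Module.projective_lifting_property
      (LinearMap.fst k P M ∘ₗ R.subtype).rangeRestrict (LinearMap.codRestrict _ _ hm)
      (LinearMap.surjective_rangeRestrict _)
    refine ⟨LinearMap.snd k P M ∘ₗ R.subtype ∘ₗ h, fun _ a => ?_⟩
    have h2 : (h a).1.1 = e x a := congrArg Subtype.val (LinearMap.congr_fun hh a)
    rw [← h2]
    exact (h a).2
  choose φ hφ using h1
  obtain ⟨s, hs'⟩ := hc M φ
  have hs : ∀ x ∈ X', ∀ a, (e x a, s (e x a)) ∈ R := fun x hx a => by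
    rw [hs']
    exact hφ x hx a
  obtain ⟨θ, hθ⟩ := hc M fun x => σ (r x) ∘ₗ s ∘ₗ ρ (r x)⁻¹ ∘ₗ e x
  simp only [LinearMap.comp_apply] at hθ
  refine ⟨θ, fun γ x hx => ?_, fun x hx => ?_⟩
  · induction hx using Submodule.span_induction with
    | mem y hy =>
      obtain ⟨x, hx, a, rfl⟩ := hy
      have h2 := hr γ x hx
      rw [he, hθ, hθ, ← he]
      have e1 : ρ (r (γ • x))⁻¹ (ρ γ (e x a)) = ρ (r x)⁻¹ (e x a) := by
        rw [← hKP _ h2 (ρ (r x)⁻¹ (e x a))]
        simp only [← Module.End.mul_apply, ← map_mul, mul_inv_cancel_right]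
      rw [e1]
      generalize s _ = y
      conv_lhs => rw [← hσ _ h2 y]
      simp only [← Module.End.mul_apply, ← map_mul, ← mul_assoc, mul_inv_cancel, one_mul]
    | zero => simp
    | add x y _ _ h1 h2 => simp only [map_add, h1, h2]
    | smul a x _ h1 => simp only [map_smul, h1]
  · induction hx using Submodule.span_induction with
    | mem y hy =>
      obtain ⟨x, hx, a, rfl⟩ := hy
      have h2 := hs _ (hX (r x)⁻¹ x hx) (τ (r x)⁻¹ a)
      rw [← he] at h2
      have := hR (r x) _ _ h2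
      rwa [← Module.End.mul_apply, ← map_mul, mul_inv_cancel, map_one, Module.End.one_apply,
        ← hθ] at this
    | zero => rw [map_zero]; exact R.zero_mem
    | add x y _ _ h1 h2 => rw [map_add]; exact R.add_mem h1 h2
    | smul a x _ h1 => rw [map_smul]; exact R.smul_mem a h1

/-- Inductive construction of chain maps (`c = 0`, `u = 1`) and homotopies (`u = -1`). -/
lemma extend {P M : Type} [AddCommGroup P] [Module k P] [AddCommGroup M] [Module k M]
    (A : Cx k G P) (B : Cx k G M) (K : Subgroup G) (hK : ∀ γ ∈ K, ∀ y, B.ρ γ y = y)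
    (n0 m0 : ℕ) (hP : ∀ j, Proj A.ρ K (A.gr (n0 + j + 1))) (hB : B.Exact) (u : k)
    (c : ℕ → P →ₗ[k] M) (c1 : ∀ j γ, ∀ x ∈ A.gr (n0 + j + 1), c j (A.ρ γ x) = B.ρ γ (c j x))
    (c2 : ∀ j, ∀ x ∈ A.gr (n0 + j + 1), c j x ∈ B.gr (m0 + j))
    (c3 : ∀ j, ∀ x ∈ A.gr (n0 + (j + 1) + 1), B.d (c (j + 1) x) + u • c j (A.d x) = 0)
    (D0 : P →ₗ[k] M) (d1 : ∀ γ, ∀ x ∈ A.gr n0, D0 (A.ρ γ x) = B.ρ γ (D0 x))
    (d2 : ∀ x ∈ A.gr n0, D0 x ∈ B.gr m0)
    (d3 : ∀ x ∈ A.gr (n0 + 1), B.d (c 0 x + u • D0 (A.d x)) = 0) :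
    ∃ D : ℕ → P →ₗ[k] M, D 0 = D0 ∧
      (∀ j γ, ∀ x ∈ A.gr (n0 + j), D j (A.ρ γ x) = B.ρ γ (D j x)) ∧
      (∀ j, ∀ x ∈ A.gr (n0 + j), D j x ∈ B.gr (m0 + j)) ∧
      ∀ j, ∀ x ∈ A.gr (n0 + j + 1), B.d (D (j + 1) x) = c j x + u • D j (A.d x) := by
  let Q : ℕ → (P →ₗ[k] M) → Prop := fun j E =>
    (∀ γ, ∀ x ∈ A.gr (n0 + j), E (A.ρ γ x) = B.ρ γ (E x)) ∧
      (∀ x ∈ A.gr (n0 + j), E x ∈ B.gr (m0 + j)) ∧
      ∀ x ∈ A.gr (n0 + j + 1), B.d (c j x + u • E (A.d x)) = 0
  have step : ∀ j E, Q j E → ∃ E', Q (j + 1) E' ∧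
      ∀ x ∈ A.gr (n0 + j + 1), B.d (E' x) = c j x + u • E (A.d x) := by
    rintro j E ⟨e1, e2, e3⟩
    let R : Submodule k (P × M) :=
      { carrier := {z | z.1 ∈ A.gr (n0 + j + 1) ∧ z.2 ∈ B.gr (m0 + j + 1) ∧
          B.d z.2 = c j z.1 + u • E (A.d z.1)}
        add_mem' := fun {a b} ha hb => ⟨add_mem ha.1 hb.1, add_mem ha.2.1 hb.2.1, by
          simp only [Prod.fst_add, Prod.snd_add, map_add, ha.2.2, hb.2.2, smul_add]
          abel⟩
        zero_mem' := ⟨zero_mem _, zero_mem _, by simp⟩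
        smul_mem' := fun a z hz => ⟨Submodule.smul_mem _ a hz.1, Submodule.smul_mem _ a hz.2.1, by
          simp only [Prod.smul_fst, Prod.smul_snd, map_smul, hz.2.2, smul_add, smul_comm a u]⟩ }
    obtain ⟨θ, h1, h2⟩ := hP j M B.ρ hK R
      (fun γ x y h => ⟨A.ρ_gr _ _ _ h.1, B.ρ_gr _ _ _ h.2.1, by
        have h3 : B.d y = c j x + u • E (A.d x) := h.2.2
        simp only [B.ρ_d, A.ρ_d, h3, map_add, map_smul, c1 j γ x h.1,
          e1 γ _ (A.d_gr _ _ h.1)]⟩)
      fun x hx => by
        obtain ⟨y, h1, h2⟩ := hB (m0 + j) _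
          (add_mem (c2 j x hx) (Submodule.smul_mem _ u (e2 _ (A.d_gr _ _ hx)))) (e3 x hx)
        exact ⟨y, hx, h1, h2⟩
    refine ⟨θ, ⟨h1, fun x hx => (h2 x hx).2.1, fun x hx => ?_⟩, fun x hx => (h2 x hx).2.2⟩
    have h3 : B.d (θ (A.d x)) = c j (A.d x) + u • E (A.d (A.d x)) := (h2 _ (A.d_gr _ _ hx)).2.2
    rw [map_add, map_smul, h3, A.dd, map_zero, smul_zero, add_zero]
    exact c3 j x hx
  choose st h1 h2 using step
  let D : ∀ j, {E // Q j E} := fun j =>
    Nat.rec ⟨D0, d1, d2, d3⟩ (fun j E => ⟨st j E.1 E.2, h1 j E.1 E.2⟩) j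
  exact ⟨fun j => (D j).1, rfl, fun j => (D j).2.1, fun j => (D j).2.2.1,
    fun j => h2 j (D j).1 (D j).2⟩

end Pool.Agent.Lib.MP_f0c981_al
end
end

-- part Pool.Agent.Lib.MP_f0c981_al.Bar
section

/-!
The augmented homogeneous bar complex on lists.
-/

set_option autoImplicit false

noncomputable section

namespace Pool.Agent.Lib.MP_f0c981_al

open Finsupp

variable {k : Type} [CommRing k] {G : Type} [Group G] {S S' : Type}

/-- Chains on lists. -/
abbrev B (k S : Type) [CommRing k] : Type := List S →₀ k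

/-- The cone operator. -/
def cons (a : S) : B k S →ₗ[k] B k S := lmapDomain k k (List.cons a)

/-- Functoriality. -/
def lmap (φ : S → S') : B k S →ₗ[k] B k S' := lmapDomain k k (List.map φ)

@[simp] lemma cons_single (a : S) (l : List S) (r : k) :
    cons a (single l r) = single (a :: l) r := by simp [cons]

@[simp] lemma lmap_single (φ : S → S') (l : List S) (r : k) :
    lmap φ (single l r) = single (l.map φ) r := by simp [lmap]

/-- The boundary of a list. -/
def bd0 : List S → B k S
  | [] => 0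
  | a :: l => single l 1 - cons a (bd0 l)

/-- The boundary operator. -/
def bd : B k S →ₗ[k] B k S := linearCombination k bd0

lemma bd_single (l : List S) (r : k) : bd (single l r) = r • bd0 l := by simp [bd]

@[simp] lemma bd_nil (r : k) : bd (single ([] : List S) r) = 0 := by simp [bd_single, bd0]

lemma bd_single_cons (a : S) (l : List S) (r : k) :
    bd (single (a :: l) r) = single l r - cons a (bd (single l r)) := by
  simp [bd_single, bd0, smul_sub]

lemma bd_cons (a : S) (x : B k S) : bd (cons a x) = x - cons a (bd x) := by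
  induction x using Finsupp.induction_linear with
  | zero => simp
  | add x y h1 h2 => simp only [map_add, h1, h2]; abel
  | single l r => rw [cons_single, bd_single_cons]

lemma bd_bd (x : B k S) : bd (bd x) = 0 := by
  induction x using Finsupp.induction_linear with
  | zero => simp
  | add x y h1 h2 => simp only [map_add, h1, h2, add_zero]
  | single l r =>
    induction l with
    | nil => simp
    | cons a l ih => rw [bd_single_cons, map_sub, bd_cons, ih]; simp

lemma lmap_cons (φ : S → S') (a : S) (x : B k S) : lmap φ (cons a x) = cons (φ a) (lmap φ x) := by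
  induction x using Finsupp.induction_linear with
  | zero => simp
  | add x y h1 h2 => simp only [map_add, h1, h2]
  | single l r => simp

lemma bd_lmap (φ : S → S') (x : B k S) : bd (lmap φ x) = lmap φ (bd x) := by
  induction x using Finsupp.induction_linear with
  | zero => simp
  | add x y h1 h2 => simp only [map_add, h1, h2]
  | single l r =>
    induction l with
    | nil => simp
    | cons a l ih =>
      rw [lmap_single] at ih
      rw [lmap_single, List.map_cons, bd_single_cons, bd_single_cons, ih, map_sub, lmap_cons,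
        lmap_single]

/-- Chains on lists of length `n`. -/
def gr (k S : Type) [CommRing k] (n : ℕ) : Submodule k (B k S) :=
  Submodule.span k {y | ∃ l ∈ {l : List S | l.length = n}, ∃ a, y = lsingle (R := k) l a}

lemma single_mem_gr {l : List S} {n : ℕ} (h : l.length = n) (r : k) : single l r ∈ gr k S n :=
  Submodule.subset_span ⟨l, h, r, rfl⟩

lemma gr_induction {n : ℕ} {p : B k S → Prop} {x : B k S} (hx : x ∈ gr k S n) (h0 : p 0)
    (h1 : ∀ x y, p x → p y → p (x + y)) (h2 : ∀ (l : List S) (r : k), l.length = n →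
      p (single l r)) : p x := by
  have : ∀ r : k, p (r • x) := by
    induction hx using Submodule.span_induction with
    | mem y hy =>
      obtain ⟨l, hl, a, rfl⟩ := hy
      intro r
      simpa using h2 l (r * a) hl
    | zero => simpa using h0
    | add x y _ _ a b => intro r; rw [smul_add]; exact h1 _ _ (a r) (b r)
    | smul a x _ b => intro r; rw [smul_smul]; exact b _
  simpa using this 1

lemma gr_map {M : Type} [AddCommGroup M] [Module k M] {n : ℕ} (f : B k S →ₗ[k] M)
    (W : Submodule k M) (h : ∀ l : List S, l.length = n → f (single l 1) ∈ W) {x : B k S}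
    (hx : x ∈ gr k S n) : f x ∈ W := by
  refine gr_induction (p := fun x => f x ∈ W) hx (by simp)
    (fun x y a b => by rw [map_add]; exact add_mem a b) fun l r hl => ?_
  rw [← smul_single_one, map_smul]
  exact W.smul_mem _ (h l hl)

lemma gr_ext {M : Type} [AddCommGroup M] [Module k M] {n : ℕ} (f g : B k S →ₗ[k] M)
    (h : ∀ l : List S, l.length = n → f (single l 1) = g (single l 1)) {x : B k S}
    (hx : x ∈ gr k S n) : f x = g x := by
  have := gr_map (f - g) ⊥ (fun l hl => by simp [h l hl]) hx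
  exact sub_eq_zero.1 this

lemma cons_gr (a : S) {n : ℕ} {x : B k S} (hx : x ∈ gr k S n) : cons a x ∈ gr k S (n + 1) :=
  gr_map (cons a) _ (fun l hl => by rw [cons_single]; exact single_mem_gr (by simp [hl]) _) hx

lemma lmap_gr (φ : S → S') {n : ℕ} {x : B k S} (hx : x ∈ gr k S n) : lmap φ x ∈ gr k S' n :=
  gr_map (lmap φ) _ (fun l hl => by rw [lmap_single]; exact single_mem_gr (by simp [hl]) _) hx

lemma bd_gr_zero {x : B k S} (hx : x ∈ gr k S 0) : bd x = 0 :=
  gr_ext bd 0 (fun l hl => by rw [List.length_eq_zero_iff.1 hl]; simp) hx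

lemma bd_gr {n : ℕ} {x : B k S} (hx : x ∈ gr k S (n + 1)) : bd x ∈ gr k S n := by
  induction n generalizing x with
  | zero =>
    refine gr_map bd _ (fun l hl => ?_) hx
    obtain ⟨a, rfl⟩ := List.length_eq_one_iff.1 hl
    rw [bd_single_cons, bd_nil, map_zero, sub_zero]
    exact single_mem_gr List.length_nil _
  | succ n ih =>
    refine gr_map bd _ (fun l hl => ?_) hx
    obtain ⟨a, l, rfl⟩ := List.exists_cons_of_length_eq_add_one hl
    have h : l.length = n + 1 := by simpa using hl
    rw [bd_single_cons]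
    exact sub_mem (single_mem_gr h _) (cons_gr _ (ih (single_mem_gr h _)))

lemma glue {M : Type} [AddCommGroup M] [Module k M] (D : ℕ → B k S →ₗ[k] M) :
    ∃ g : B k S →ₗ[k] M, ∀ n, ∀ x ∈ gr k S n, g x = D n x :=
  ⟨linearCombination k fun l => D l.length (single l 1), fun n x hx =>
    gr_ext _ _ (fun l hl => by simp [hl]) hx⟩

lemma ext_gr {M : Type} [AddCommGroup M] [Module k M] (f g : B k S →ₗ[k] M)
    (h : ∀ n, ∀ x ∈ gr k S n, f x = g x) (x : B k S) : f x = g x :=
  LinearMap.congr_fun (Finsupp.lhom_ext' fun _ => LinearMap.ext fun r =>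
    h _ _ (single_mem_gr rfl r)) x

lemma bd_ofFn (n : ℕ) (x : Fin (n + 1) → S) (r : k) : bd (single (List.ofFn x) r) =
    ∑ i : Fin (n + 1), (-1 : k) ^ (i : ℕ) • single (List.ofFn (x ∘ i.succAbove)) r := by
  induction n with
  | zero => simp [bd_single_cons]
  | succ n ih =>
    rw [List.ofFn_succ, bd_single_cons, ih, Fin.sum_univ_succ (n := n + 1), map_sum,
      sub_eq_add_neg, ← Finset.sum_neg_distrib]
    congr 1
    · simp [Function.comp_def]
    · refine Finset.sum_congr rfl fun i _ => ?_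
      rw [map_smul, cons_single, Fin.val_succ, pow_succ, mul_neg_one, neg_smul,
        List.ofFn_succ]
      simp [Function.comp_def]

section action

variable [MulAction G S]

/-- The diagonal action on chains. -/
def act (k G S : Type) [CommRing k] [Group G] [MulAction G S] : Representation k G (B k S) where
  toFun γ := lmap (γ • ·)
  map_one' := by ext l; simp
  map_mul' a b := by ext l; simp [mul_smul, Function.comp_def]

lemma act_apply (γ : G) (x : B k S) : act k G S γ x = lmap (γ • ·) x := rfl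

@[simp] lemma act_single (γ : G) (l : List S) (r : k) :
    act k G S γ (single l r) = single (l.map (γ • ·)) r := lmap_single _ _ _

/-- The bar complex of a `G`-set. -/
def bar (k G S : Type) [CommRing k] [Group G] [MulAction G S] : Cx k G (B k S) where
  ρ := act k G S
  d := bd
  gr := gr k S
  ρ_d := fun _ x => bd_lmap _ x
  ρ_gr := fun _ _ _ hx => lmap_gr _ hx
  d_gr := fun _ _ hx => bd_gr hx
  dd := bd_bd

@[simp] lemma bar_d : (bar k G S).d = bd := rfl

@[simp] lemma bar_ρ : (bar k G S).ρ = act k G S := rfl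

@[simp] lemma bar_gr : (bar k G S).gr = gr k S := rfl

lemma act_gr (γ : G) {n : ℕ} {x : B k S} (hx : x ∈ gr k S n) : act k G S γ x ∈ gr k S n :=
  lmap_gr _ hx

lemma bar_exact (a : S) : (bar k G S).Exact := fun n y hy h =>
  ⟨cons a y, cons_gr a hy, by
    have h' : bd y = 0 := h
    change bd _ = _
    rw [bd_cons, h', map_zero, sub_zero]⟩

/-- The action on lists. -/
@[reducible] def listAction (G S : Type) [Group G] [MulAction G S] : MulAction G (List S) where
  smul γ l := l.map (γ • ·)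
  one_smul l := by change l.map _ = l; simp
  mul_smul a b l := by
    change l.map _ = (l.map _).map _
    simp [mul_smul, Function.comp_def]

lemma bar_proj (K : Subgroup G) (h1 : ∀ γ ∈ K, ∀ s : S, γ • s = s)
    (h2 : ∀ (γ : G) (s : S), γ • s = s → γ ∈ K) (n : ℕ) :
    Proj (act k G S) K (gr k S (n + 1)) := by
  let := listAction G S
  refine proj_of_basis (Λ := k) (X := List S) (act k G S) (Representation.trivial k G k)
    (fun l => lsingle l) (fun γ l a => act_single γ l a)
    (fun M _ _ φ => ⟨lsum k φ, fun l a => by simp⟩) K (fun γ hγ x => ?_) _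
    (fun γ l hl => (List.length_map _).trans hl) fun l hl γ h => ?_
  · rw [act_apply, show (fun s : S => γ • s) = id from funext (h1 γ hγ)]
    simp [lmap]
  · obtain ⟨a, l, rfl⟩ := List.exists_cons_of_length_eq_add_one hl
    exact h2 γ a (List.cons.inj h).1

/-- Finite dimensionality: the identity of the bar complex is replaced by a short chain map. -/
def FD (k G S : Type) [CommRing k] [Group G] [MulAction G S] (L : ℕ) : Prop :=
  ∃ f : B k S →ₗ[k] B k S, (∀ γ x, f (act k G S γ x) = act k G S γ (f x)) ∧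
    (∀ x, bd (f x) = f (bd x)) ∧ (∀ n, ∀ x ∈ gr k S n, f x ∈ gr k S n) ∧
    f (single [] 1) = single [] 1 ∧ ∀ n, L < n → ∀ x ∈ gr k S n, f x = 0

end action

section base

variable {k' : Type} [CommRing k'] (φ : k →+* k')

/-- Change of coefficients. -/
def red : B k S →+ B k' S := mapRange.addMonoidHom φ.toAddMonoidHom

@[simp] lemma red_single (l : List S) (r : k) : red φ (single l r) = single l (φ r) := by
  simp [red]

lemma red_apply (x : B k S) (l : List S) : red φ x l = φ (x l) := by simp [red]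

lemma red_smul (a : k) (x : B k S) : red φ (a • x) = φ a • red φ x := by
  ext l
  simp [red_apply]

lemma red_comm {S' : Type} (f : B k S →ₗ[k] B k S') (f' : B k' S →ₗ[k'] B k' S')
    (h : ∀ l, red φ (f (single l 1)) = f' (single l 1)) (x : B k S) :
    red φ (f x) = f' (red φ x) := by
  induction x using Finsupp.induction_linear with
  | zero => simp
  | add x y h1 h2 => simp only [map_add, h1, h2]
  | single l r =>
    rw [red_single, ← smul_single_one l r, ← smul_single_one l (φ r), f.map_smul, f'.map_smul,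
      red_smul, h]

lemma red_lmap (ψ : S → S') (x : B k S) : red φ (lmap ψ x) = lmap ψ (red φ x) :=
  red_comm φ _ _ (fun l => by simp) x

lemma red_bd (x : B k S) : red φ (bd x) = bd (red φ x) := by
  refine red_comm φ _ _ (fun l => ?_) x
  induction l with
  | nil => simp
  | cons a l ih =>
    rw [bd_single_cons, bd_single_cons, map_sub, ← ih,
      red_comm φ (cons a) (cons a) (fun l => by simp)]
    simp

lemma red_gr {n : ℕ} {x : B k S} (hx : x ∈ gr k S n) : red φ x ∈ gr k' S n :=
  gr_induction (p := fun x => red φ x ∈ gr k' S n) hx (by simp)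
    (fun x y a b => by rw [map_add]; exact add_mem a b)
    fun l r hl => by rw [red_single]; exact single_mem_gr hl _

include φ in
lemma FD.base [MulAction G S] {L : ℕ} (h : FD k G S L) : FD k' G S L := by
  obtain ⟨f, h1, h2, h3, h4, h5⟩ := h
  let f' : B k' S →ₗ[k'] B k' S := linearCombination k' fun l => red φ (f (single l 1))
  have e0 : ∀ l, f' (single l 1) = red φ (f (single l 1)) := fun l => by simp [f']
  have e : ∀ x, red φ (f x) = f' (red φ x) := red_comm φ _ _ fun l => (e0 l).symm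
  refine ⟨f', fun γ => ext_gr (f' ∘ₗ act k' G S γ) (act k' G S γ ∘ₗ f') fun n x hx =>
      gr_ext _ _ (fun l _ => ?_) hx, ext_gr (bd ∘ₗ f') (f' ∘ₗ bd) fun n x hx =>
      gr_ext _ _ (fun l _ => ?_) hx, fun n x hx => gr_map f' _ (fun l hl => ?_) hx, ?_,
    fun n hn x hx => gr_ext f' 0 (fun l hl => ?_) hx⟩
  · simp only [LinearMap.comp_apply, act_single, e0]
    rw [← act_single, h1, act_apply, act_apply, red_lmap]
  · simp only [LinearMap.comp_apply, e0]
    rw [← red_bd, h2, e, red_bd, red_single, map_one]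
  · rw [e0]
    exact red_gr φ (h3 _ _ (single_mem_gr hl _))
  · rw [e0, h4, red_single, map_one]
  · rw [e0, h5 n hn _ (single_mem_gr hl _), map_zero, LinearMap.zero_apply]

end base

end Pool.Agent.Lib.MP_f0c981_al
end
end
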