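import Pool.Agent.Lib.MP_f0c981_al.Bar

-- part Pool.Agent.Lib.MP_f0c981_al.Integral
section

/-!
Integral cocycles vanish on integral cycles if the cohomology modulo `p` of a subgroup of finite
index vanishes.
-/

set_option autoImplicit false

noncomputable section

namespace Pool.Agent.Lib.MP_f0c981_al

open Finsupp

variable {N : Type} [Group N]

/-- Invariance of a linear map under a subgroup. -/
def Inv {k : Type} [CommRing k] {M : Type} [AddCommGroup M] [Module k M] (A : Subgroup N)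
    (Φ : B k N →ₗ[k] M) : Prop :=
  ∀ γ ∈ A, ∀ x, Φ (act k N N γ x) = Φ x

lemma inv_of_single {k : Type} [CommRing k] {M : Type} [AddCommGroup M] [Module k M]
    {A : Subgroup N} {Φ : B k N →ₗ[k] M}
    (h : ∀ γ ∈ A, ∀ l : List N, Φ (single (l.map (γ • ·)) 1) = Φ (single l 1)) : Inv A Φ :=
  fun γ hγ => ext_gr (Φ ∘ₗ act k N N γ) Φ fun _ _ hx => gr_ext _ _
    (fun l _ => by simpa using h γ hγ l) hx

lemma Inv.bd {k : Type} [CommRing k] {M : Type} [AddCommGroup M] [Module k M]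
    {A : Subgroup N} {Φ : B k N →ₗ[k] M} (h : Inv A Φ) : Inv A (Φ ∘ₗ bd) := fun γ hγ x => by
  rw [LinearMap.comp_apply, act_apply, bd_lmap, ← act_apply, h γ hγ]
  rfl

/-- A contraction modulo `p` in high degrees, equivariant for the subgroup `A`. -/
def Contr (p : ℕ) (A : Subgroup N) (L : ℕ) : Prop :=
  ∃ D : B (ZMod p) N →ₗ[ZMod p] B (ZMod p) N,
    (∀ γ ∈ A, ∀ x, D (act _ N N γ x) = act _ N N γ (D x)) ∧
    (∀ n, ∀ x ∈ gr _ N n, D x ∈ gr _ N (n + 1)) ∧
    ∀ n, L < n → ∀ x ∈ gr _ N n, x = bd (D x) + D (bd x)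

lemma div_step {p : ℕ} (hp : p.Prime) {A : Subgroup N} {L : ℕ} (h : Contr p A L) {n : ℕ}
    (hn : L < n) (Φ : B ℤ N →ₗ[ℤ] ℤ) (h1 : Inv A Φ) (h2 : ∀ x ∈ gr ℤ N (n + 1), Φ (bd x) = 0) :
    ∃ Ψ Φ' : B ℤ N →ₗ[ℤ] ℤ, Inv A Ψ ∧ Inv A Φ' ∧ ∀ x ∈ gr ℤ N n, Φ x = Ψ (bd x) + p * Φ' x := by
  obtain ⟨D, d1, d2, d3⟩ := h
  have := Fact.mk hp
  let c := Int.castRingHom (ZMod p)
  have cast_ev : ∀ (F : B ℤ N →ₗ[ℤ] ℤ) (F' : B (ZMod p) N →ₗ[ZMod p] ZMod p),
      (∀ l, c (F (single l 1)) = F' (single l 1)) → ∀ x, c (F x) = F' (red c x) := by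
    intro F F' hF x
    induction x using Finsupp.induction_linear with
    | zero => simp
    | add x y a b => simp only [map_add, a, b]
    | single l r =>
      rw [red_single, ← smul_single_one l r, ← smul_single_one l (c r), F.map_smul, F'.map_smul,
        smul_eq_mul, map_mul, hF, smul_eq_mul]
  let Φp : B (ZMod p) N →ₗ[ZMod p] ZMod p := linearCombination _ fun l => c (Φ (single l 1))
  have p0 : ∀ l, c (Φ (single l 1)) = Φp (single l 1) := fun l => by simp [Φp]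
  have p1 : Inv A Φp := inv_of_single fun γ hγ l => by rw [← p0, ← p0, ← act_single, h1 γ hγ]
  have p2 : ∀ x ∈ gr _ N (n + 1), Φp (bd x) = 0 := fun x hx =>
    gr_ext (Φp ∘ₗ bd) 0 (fun l hl => by
      have := cast_ev Φ Φp p0 (bd (single l 1))
      rw [red_bd, red_single, map_one, h2 _ (single_mem_gr hl _), map_zero] at this
      exact this.symm) hx
  let Ψ : B ℤ N →ₗ[ℤ] ℤ := linearCombination _ fun l => ((Φp (D (single l 1))).val : ℤ)
  have q0 : ∀ l, c (Ψ (single l 1)) = (Φp ∘ₗ D) (single l 1) := fun l => by simp [Ψ, c]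
  have q1 : Inv A Ψ := inv_of_single fun γ hγ l => by
    simp only [Ψ, linearCombination_single]
    rw [← act_single, d1 γ hγ, p1 γ hγ]
  have q2 : Inv A (Φ - Ψ ∘ₗ bd) := fun γ hγ x => by
    rw [LinearMap.sub_apply, LinearMap.sub_apply, h1 γ hγ, q1.bd γ hγ]
  refine ⟨Ψ, linearCombination _ fun l => (Φ - Ψ ∘ₗ bd) (single l 1) / p, q1,
    inv_of_single fun γ hγ l => ?_, fun x hx => ?_⟩
  · simp only [linearCombination_single]
    rw [← act_single, q2 γ hγ]
  · refine gr_ext Φ (Ψ ∘ₗ bd + (p : ℤ) • linearCombination _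
      fun l => (Φ - Ψ ∘ₗ bd) (single l 1) / p) (fun l hl => ?_) hx
    have : (p : ℤ) ∣ (Φ - Ψ ∘ₗ bd) (single l 1) := by
      rw [← ZMod.intCast_zmod_eq_zero_iff_dvd]
      change c _ = 0
      rw [LinearMap.sub_apply, map_sub, p0, LinearMap.comp_apply, cast_ev Ψ _ q0, red_bd,
        red_single, map_one, LinearMap.comp_apply]
      have e := d3 n hn _ (single_mem_gr hl 1)
      have e2 := congrArg Φp e
      rw [map_add, p2 _ (d2 _ _ (single_mem_gr hl 1)), zero_add] at e2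
      exact sub_eq_zero.2 e2
    simp only [LinearMap.add_apply, LinearMap.smul_apply, linearCombination_single,
      smul_eq_mul, one_mul]
    rw [Int.mul_ediv_cancel' this]
    simp

lemma div_zero {p : ℕ} (hp : p.Prime) {A : Subgroup N} {L : ℕ} (h : Contr p A L) {n : ℕ}
    (hn : L < n) {z : B ℤ N} (hz : z ∈ gr ℤ N n)
    (hc : ∀ Ψ : B ℤ N →ₗ[ℤ] ℤ, Inv A Ψ → Ψ (bd z) = 0)
    (Φ : B ℤ N →ₗ[ℤ] ℤ) (h1 : Inv A Φ) (h2 : ∀ x ∈ gr ℤ N (n + 1), Φ (bd x) = 0) : Φ z = 0 := by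
  have key : ∀ (s : ℕ) (Φ : B ℤ N →ₗ[ℤ] ℤ), Inv A Φ → (∀ x ∈ gr ℤ N (n + 1), Φ (bd x) = 0) →
      (p : ℤ) ^ s ∣ Φ z := by
    intro s
    induction s with
    | zero => simp
    | succ s ih =>
      intro Φ h1 h2
      obtain ⟨Ψ, Φ', a, b, c⟩ := div_step hp h hn Φ h1 h2
      rw [c z hz, hc Ψ a, zero_add, pow_succ']
      refine mul_dvd_mul_left _ (ih Φ' b fun x hx => ?_)
      have := c _ (bd_gr hx)
      rw [h2 x hx, bd_bd, map_zero, zero_add] at this
      exact (mul_eq_zero.1 this.symm).resolve_left (by exact_mod_cast hp.ne_zero)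
  refine Int.eq_zero_of_dvd_of_natAbs_lt_natAbs (key (Φ z).natAbs Φ h1 h2) ?_
  rw [Int.natAbs_pow, Int.natAbs_natCast]
  exact Nat.lt_pow_self hp.one_lt

lemma transfer_zero {p : ℕ} (hp : p.Prime) {A : Subgroup N} [A.FiniteIndex] {L : ℕ}
    (h : Contr p A L) {n : ℕ} (hn : L < n) {z : B ℤ N} (hz : z ∈ gr ℤ N n)
    (hc : ∀ Ψ : B ℤ N →ₗ[ℤ] ℤ, Inv ⊤ Ψ → Ψ (bd z) = 0)
    (Φ : B ℤ N →ₗ[ℤ] ℤ) (h1 : Inv ⊤ Φ) (h2 : ∀ x ∈ gr ℤ N (n + 1), Φ (bd x) = 0) : Φ z = 0 := by
  let := Fintype.ofFinite (N ⧸ A)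
  have key := div_zero hp h hn (z := ∑ q : N ⧸ A, act ℤ N N q.out⁻¹ z)
    (Submodule.sum_mem _ fun q _ => act_gr _ hz) (fun Ψ hΨ => ?_) Φ
    (fun γ _ => h1 γ trivial) h2
  · rw [map_sum, Finset.sum_congr rfl fun q _ => h1 _ trivial z, Finset.sum_const,
      Finset.card_univ, smul_eq_zero] at key
    exact key.resolve_left Fintype.card_ne_zero
  · have := hc (∑ q : N ⧸ A, Ψ ∘ₗ act ℤ N N q.out⁻¹) fun γ _ x => by
      simp only [LinearMap.sum_apply, LinearMap.comp_apply]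
      refine Fintype.sum_equiv (MulAction.toPerm γ⁻¹) _ _ fun q => ?_
      have hm : (γ⁻¹ • q).out⁻¹ * (γ⁻¹ * q.out) ∈ A := by
        rw [← QuotientGroup.eq, QuotientGroup.out_eq', ← smul_eq_mul,
          MulAction.Quotient.coe_smul_out]
      rw [← hΨ _ hm, MulAction.toPerm_apply]
      simp only [← Module.End.mul_apply, ← map_mul, mul_assoc, mul_inv_cancel_left,
        inv_mul_cancel, mul_one]
    simpa only [map_sum, act_apply, bd_lmap, LinearMap.sum_apply, LinearMap.comp_apply] using this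

lemma clear_denom {S : Type} {n : ℕ} {x : B ℚ S} (hx : x ∈ gr ℚ S n) :
    ∃ m : ℤ, m ≠ 0 ∧ ∃ y ∈ gr ℤ S n, red (Int.castRingHom ℚ) y = (m : ℚ) • x := by
  refine gr_induction (p := fun x => ∃ m : ℤ, m ≠ 0 ∧ ∃ y ∈ gr ℤ S n,
    red (Int.castRingHom ℚ) y = (m : ℚ) • x) hx ⟨1, one_ne_zero, 0, zero_mem _, by simp⟩ ?_
    fun l r hl => ⟨r.den, by simp, single l r.num, single_mem_gr hl _, ?_⟩
  · rintro x y ⟨a, a0, u, u1, u2⟩ ⟨b, b0, v, v1, v2⟩
    refine ⟨a * b, mul_ne_zero a0 b0, b • u + a • v,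
      add_mem (Submodule.smul_mem _ _ u1) (Submodule.smul_mem _ _ v1), ?_⟩
    rw [map_add, red_smul, red_smul, u2, v2, smul_smul, smul_smul, smul_add]
    simp [mul_comm]
  · simp [Rat.den_mul_eq_num]

end Pool.Agent.Lib.MP_f0c981_al
end
end

-- part Pool.Agent.Lib.MP_f0c981_al.Central
section

/-!
Passing to the quotient by a central element that is detected by a character.
-/

set_option autoImplicit false

noncomputable section

namespace Pool.Agent.Lib.MP_f0c981_al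

open Finsupp

variable {k : Type} [CommRing k] {G : Type} [Group G] {S : Type}

lemma gr_length {n : ℕ} {x : B k S} (hx : x ∈ gr k S n) {l : List S} (h : l.length ≠ n) :
    x l = 0 :=
  gr_ext (lapply l) 0 (fun l' hl => by
    simp only [lapply_apply, LinearMap.zero_apply]
    exact single_eq_of_ne fun q => h (q ▸ hl)) hx

lemma gr_zero_eq {x : B k S} (hx : x ∈ gr k S 0) : x = single [] (x []) :=
  gr_ext LinearMap.id (lsingle [] ∘ₗ lapply []) (fun l hl => by
    rw [List.length_eq_zero_iff.1 hl]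
    simp) hx

lemma exists_pr [MulAction G S] (n : ℕ) : ∃ p : B k S →ₗ[k] B k S, (∀ x, p x ∈ gr k S n) ∧
    (∀ x ∈ gr k S n, p x = x) ∧ ∀ (γ : G) x, p (act k G S γ x) = act k G S γ (p x) := by
  obtain ⟨p, hp⟩ := glue fun m => if m = n then (LinearMap.id : B k S →ₗ[k] B k S) else 0
  refine ⟨p, fun x => ?_, fun x hx => by simp [hp n x hx], fun γ =>
    ext_gr (p ∘ₗ act k G S γ) (act k G S γ ∘ₗ p) fun m x hx => ?_⟩
  · induction x using Finsupp.induction_linear with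
    | zero => simp
    | add x y h1 h2 => rw [map_add]; exact add_mem h1 h2
    | single l r =>
      rw [hp _ _ (single_mem_gr rfl r)]
      split_ifs with h
      · exact single_mem_gr h r
      · exact zero_mem _
  · simp only [LinearMap.comp_apply]
    rw [hp m _ hx, hp m _ (act_gr γ hx)]
    split_ifs <;> simp

lemma fixed_eq_zero {t : G} (ht : ¬ IsOfFinOrder t) {n : ℕ} {x : B k G}
    (hx : x ∈ gr k G (n + 1)) (h : act k G G t x = x) : x = 0 := by
  ext l
  by_contra hl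
  have h1 : l.length = n + 1 := by
    by_contra q
    exact hl (gr_length hx q)
  obtain ⟨a, l, rfl⟩ := List.exists_cons_of_length_eq_add_one h1
  have h2 : ∀ j : ℕ, x ((a :: l).map (t ^ j • ·)) = x (a :: l) := by
    intro j
    have h3 : act k G G (t ^ j) x = x := by
      induction j with
      | zero => simp
      | succ j ih => rw [pow_succ, map_mul, Module.End.mul_apply, h, ih]
    conv_lhs => rw [← h3]
    exact mapDomain_apply (List.map_injective_iff.2 (MulAction.injective _)) _ _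
  refine Set.infinite_of_injective_forall_mem (s := x.support)
    (f := fun j : ℕ => (a :: l).map (t ^ j • ·)) (fun i j e => ?_) (fun j => ?_)
    x.support.finite_toSet
  · exact injective_pow_iff_not_isOfFinOrder.2 ht (mul_right_cancel (List.cons.inj e).1)
  · simpa [← h2 j] using hl

/-- The character on lists with one letter. -/
def chi1 (χ : G → k) : B k G →ₗ[k] k :=
  linearCombination k fun l => match l with
    | [x] => χ x
    | _ => 0

lemma chi1_act {χ : G → k} (hχ : ∀ a b, χ (a * b) = χ a + χ b) (γ : G) (y : B k G) :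
    chi1 χ (act k G G γ y) = chi1 χ y + χ γ * bd y [] := by
  refine ext_gr (chi1 χ ∘ₗ act k G G γ) (chi1 χ + χ γ • (lapply [] ∘ₗ bd)) (fun n x hx =>
    gr_ext _ _ (fun l _ => ?_) hx) y
  match l with
  | [] => simp [chi1]
  | [a] => simp [chi1, hχ, bd_single_cons, add_comm]
  | a :: b :: l =>
    have : bd (single (a :: b :: l) (1 : k)) [] = 0 :=
      gr_length (bd_gr (n := l.length + 1) (single_mem_gr (by simp) _)) (by simp)
    simp [chi1, this]

omit [Group G] in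
lemma chi1_gr (χ : G → k) {n : ℕ} (hn : n ≠ 1) {y : B k G} (hy : y ∈ gr k G n) : chi1 χ y = 0 := by
  refine gr_ext _ 0 (fun l hl => ?_) hy
  match l with
  | [] => simp [chi1]
  | [a] => exact absurd hl.symm hn
  | a :: b :: l => simp [chi1]

/-- The relations of the quotient by the central element. -/
def rel (k : Type) [CommRing k] (t : G) : Submodule k (B k G) :=
  LinearMap.range (act k G G t - LinearMap.id)

variable {t : G} (hc : ∀ γ, γ * t = t * γ) {χ : G → k} (hχ : ∀ a b, χ (a * b) = χ a + χ b)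

include hc in
lemma rel_act (γ : G) : rel k t ≤ (rel k t).comap (act k G G γ) := by
  rintro _ ⟨w, rfl⟩
  refine ⟨act k G G γ w, ?_⟩
  simp only [LinearMap.sub_apply, LinearMap.id_apply, map_sub]
  rw [← Module.End.mul_apply, ← map_mul, ← hc, map_mul, Module.End.mul_apply]

lemma rel_bd : rel k t ≤ (rel k t).comap bd := by
  rintro _ ⟨w, rfl⟩
  exact ⟨bd w, by simp [act_apply, bd_lmap]⟩

/-- The quotient complex, corrected in degree two. -/
def zcx : Cx k G (B k G ⧸ rel k t) where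
  ρ := { toFun γ := (rel k t).mapQ _ (act k G G γ) (rel_act hc γ)
         map_one' := by ext; simp
         map_mul' a b := by ext; simp [Function.comp_def] }
  d := (rel k t).mapQ _ bd rel_bd
  gr n := (gr k G n ⊓ LinearMap.ker (chi1 χ ∘ₗ bd)).map (rel k t).mkQ
  ρ_d γ x := by
    obtain ⟨x, rfl⟩ := (rel k t).mkQ_surjective x
    simp [act_apply, bd_lmap]
  ρ_gr γ n := by
    rintro _ ⟨x, ⟨h1, h2⟩, rfl⟩
    refine ⟨act k G G γ x, ⟨act_gr γ h1, ?_⟩, rfl⟩
    have h3 : chi1 χ (bd x) = 0 := h2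
    change chi1 χ (bd (lmap _ x)) = 0
    rw [bd_lmap, ← act_apply, chi1_act hχ, h3, bd_bd]
    simp
  d_gr n := by
    rintro _ ⟨x, ⟨h1, -⟩, rfl⟩
    exact ⟨bd x, ⟨bd_gr h1, by simp [bd_bd]⟩, rfl⟩
  dd x := by
    obtain ⟨x, rfl⟩ := (rel k t).mkQ_surjective x
    simp [bd_bd]

lemma zcx_exact (ht : ¬ IsOfFinOrder t) (h1 : χ t = 1) : (zcx hc hχ).Exact := by
  rintro n _ ⟨z, ⟨z1, z2⟩, rfl⟩ hd
  have z3 : chi1 χ (bd z) = 0 := z2
  rcases n with _ | m
  · refine ⟨_, ⟨cons 1 z, ⟨cons_gr _ z1, ?_⟩, rfl⟩, ?_⟩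
    · exact chi1_gr χ zero_ne_one (bd_gr (cons_gr _ z1))
    · change (rel k t).mkQ (bd _) = _
      rw [bd_cons, bd_gr_zero z1, map_zero, sub_zero]
  obtain ⟨w', hw'⟩ : bd z ∈ rel k t := (Submodule.Quotient.mk_eq_zero _).1 hd
  obtain ⟨p, p1, p2, p3⟩ := exists_pr (k := k) (G := G) (S := G) m
  have hw : act k G G t (p w') - p w' = bd z := by
    rw [← p3, ← map_sub, ← p2 _ (bd_gr z1), ← hw']
    rfl
  have w1 := p1 w'
  generalize p w' = w at hw w1
  have w2 : bd w = 0 := by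
    match m with
    | 0 => exact bd_gr_zero w1
    | 1 =>
      rw [← hw, map_sub, chi1_act hχ, h1, one_mul, add_sub_cancel_left] at z3
      rw [gr_zero_eq (bd_gr w1), z3, single_zero]
    | m + 2 =>
      refine fixed_eq_zero ht (bd_gr w1) (sub_eq_zero.1 ?_)
      rw [act_apply, ← bd_lmap, ← map_sub, ← act_apply, hw, bd_bd]
  set z' := z - (act k G G t (cons 1 w) - cons 1 w) with hz'
  have z4 : z' ∈ gr k G (m + 1) := sub_mem z1 (sub_mem (act_gr _ (cons_gr _ w1)) (cons_gr _ w1))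
  have z5 : bd z' = 0 := by
    rw [hz', map_sub, map_sub, act_apply, bd_lmap, bd_cons, w2, map_zero, sub_zero, ← act_apply,
      hw, sub_self]
  have e : bd (single [1, t] (1 : k)) = act k G G t (single [1] 1) - single [1] 1 := by
    simp [bd_single_cons]
  have e0 : χ 1 = 0 := by simpa using hχ 1 1
  refine ⟨_, ⟨cons 1 z' - chi1 χ z' • single [1, t] 1, ⟨sub_mem (cons_gr _ z4) ?_, ?_⟩, rfl⟩, ?_⟩
  · rcases m with _ | m
    · exact Submodule.smul_mem _ _ (single_mem_gr (by simp) _)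
    · rw [chi1_gr χ (by omega) z4, zero_smul]
      exact zero_mem _
  · change chi1 χ (bd _) = 0
    rw [map_sub, map_smul, bd_cons, z5, e]
    simp [chi1, h1, e0]
  · change (rel k t).mkQ (bd _) = _
    rw [map_sub, map_smul, bd_cons, z5, e, map_zero, sub_zero, Submodule.mkQ_apply,
      Submodule.mkQ_apply, Submodule.Quotient.eq]
    have a1 : act k G G t (cons 1 w) - cons 1 w ∈ rel k t := ⟨_, rfl⟩
    have a2 : act k G G t (single [1] 1) - single [1] 1 ∈ rel k t := ⟨_, rfl⟩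
    have a3 := neg_mem (add_mem a1 (Submodule.smul_mem _ (chi1 χ z') a2))
    generalize chi1 χ z' • (act k G G t (single [1] 1) - single [1] 1) = y at a3 ⊢
    convert a3 using 1
    rw [hz']
    abel

include hc hχ in
theorem contraction [MulAction G S] (ht : ¬ IsOfFinOrder t) (h1 : χ t = 1) (s0 : S)
    (hS : ∀ s : S, t • s = s) (hS' : ∀ (γ : G) (s : S), γ • s = s → γ ∈ Subgroup.zpowers t)
    {L : ℕ} (hF : FD k G G L) : ∃ D : B k S →ₗ[k] B k S,
      (∀ γ x, D (act k G S γ x) = act k G S γ (D x)) ∧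
      (∀ n, ∀ x ∈ gr k S n, D x ∈ gr k S (n + 1)) ∧ ∀ n, L < n → ∀ x ∈ gr k S n, x = bd (D x) + D (bd x) := by
  obtain ⟨f, f1, f2, f3, f4, f5⟩ := hF
  have hK : ∀ γ ∈ Subgroup.zpowers t, ∀ s : S, γ • s = s := fun γ hγ s =>
    (Subgroup.zpowers_le.2 (hS s) : _ ≤ MulAction.stabilizer G s) hγ
  have hK' : ∀ γ ∈ Subgroup.zpowers t, ∀ y, act k G S γ y = y := fun γ hγ y => by
    rw [act_apply, show (fun s : S => γ • s) = id from funext (hK γ hγ)]
    simp [lmap]
  let Ψ : B k G →ₗ[k] B k S := lmap (· • s0) ∘ₗ f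
  have Ψ1 : ∀ γ x, Ψ (act k G G γ x) = act k G S γ (Ψ x) := fun γ x => by
    simp only [Ψ, LinearMap.comp_apply, f1]
    exact ext_gr (lmap (· • s0) ∘ₗ act k G G γ) (act k G S γ ∘ₗ lmap (· • s0))
      (fun n x hx => gr_ext _ _ (fun l _ => by simp [Function.comp_def, mul_smul]) hx) _
  let Φ : (B k G ⧸ rel k t) →ₗ[k] B k S := (rel k t).liftQ Ψ (by
    rintro _ ⟨w, rfl⟩
    simp [Ψ1, hK' t (Subgroup.mem_zpowers t)])
  let Z := zcx (k := k) hc hχ
  have Φ1 : ∀ γ y, Φ (Z.ρ γ y) = act k G S γ (Φ y) := fun γ y => by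
    obtain ⟨x, rfl⟩ := (rel k t).mkQ_surjective y
    exact Ψ1 γ x
  have Φ2 : ∀ y, bd (Φ y) = Φ (Z.d y) := fun y => by
    obtain ⟨x, rfl⟩ := (rel k t).mkQ_surjective y
    exact (bd_lmap _ _).trans (congrArg _ (f2 x))
  have Φ3 : ∀ n, ∀ y ∈ Z.gr n, Φ y ∈ gr k S n := by
    rintro n _ ⟨x, ⟨hx, -⟩, rfl⟩
    exact lmap_gr _ (f3 _ _ hx)
  have Φ5 : ∀ n, L < n → ∀ y ∈ Z.gr n, Φ y = 0 := by
    rintro n hn _ ⟨x, ⟨hx, -⟩, rfl⟩
    exact (congrArg (lmap (· • s0)) (f5 n hn x hx)).trans (map_zero _)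
  have hZ : ∀ γ ∈ Subgroup.zpowers t, ∀ y, Z.ρ γ y = y := by
    have h0 : ∀ y, Z.ρ t y = y := fun y => by
      obtain ⟨x, rfl⟩ := (rel k t).mkQ_surjective y
      exact (Submodule.Quotient.eq _).2 ⟨x, rfl⟩
    have : Subgroup.zpowers t ≤ Z.ρ.ker := Subgroup.zpowers_le.2 (LinearMap.ext h0)
    intro γ hγ y
    rw [this hγ]
    rfl
  let v0 : B k G ⧸ rel k t := (rel k t).mkQ (single [] 1)
  have hv : ∀ γ, Z.ρ γ v0 = v0 := fun γ => congrArg (rel k t).mkQ (act_single γ [] 1)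
  have hv0 : v0 ∈ Z.gr 0 := ⟨_, ⟨single_mem_gr List.length_nil _, by simp⟩, rfl⟩
  have hdv : Z.d v0 = 0 := (congrArg (rel k t).mkQ (bd_nil 1)).trans (map_zero _)
  obtain ⟨α, a0, a1, a2, a3⟩ := extend (bar k G S) Z _ hZ 0 0
    (fun j => bar_proj _ hK hS' _) (zcx_exact hc hχ ht h1) 1 (fun _ => 0) (by simp) (by simp)
    (by simp) (linearCombination k fun _ => v0)
    (fun γ x hx => gr_ext (linearCombination k (fun _ => v0) ∘ₗ act k G S γ)
      (Z.ρ γ ∘ₗ linearCombination k fun _ => v0) (fun l _ => by simp [hv]) hx)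
    (fun x hx => gr_map _ _ (fun l _ => by simpa using hv0) hx)
    (fun x hx => by
      simpa using gr_ext (Z.d ∘ₗ linearCombination k fun _ => v0) 0
        (fun l _ => by simp [hdv]) (bd_gr hx))
  simp only [zero_add, LinearMap.zero_apply, one_smul, bar_d, bar_ρ, bar_gr] at a1 a2 a3
  have a4 : ∀ x ∈ gr k S 0, Φ (α 0 x) = x := fun x hx =>
    gr_ext (Φ ∘ₗ α 0) LinearMap.id (fun l hl => by
      rw [List.length_eq_zero_iff.1 hl, a0, LinearMap.comp_apply, linearCombination_single,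
        one_smul]
      exact (congrArg (lmap (· • s0)) f4).trans (lmap_single _ _ _)) hx
  obtain ⟨D, d0, d1, d2, d3⟩ := extend (bar k G S) (bar k G S) _ hK' 0 1
    (fun j => bar_proj _ hK hS' _) (bar_exact s0) (-1)
    (fun j => LinearMap.id - Φ ∘ₗ α (j + 1))
    (fun j γ x hx => by
      rw [zero_add] at hx
      simp [a1 _ γ x hx, Φ1])
    (fun j x hx => by
      rw [zero_add] at hx
      rw [add_comm]
      exact sub_mem hx (Φ3 _ _ (a2 _ _ hx)))
    (fun j x hx => by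
      rw [zero_add] at hx
      simp [Φ2, a3 _ x hx])
    0 (by simp) (by simp) (fun x hx => by simp [Φ2, a3 0 x hx, a4 _ (bd_gr hx)])
  simp only [zero_add, bar_d, bar_ρ, bar_gr, add_comm 1] at d1 d2 d3
  obtain ⟨g, hg⟩ := glue D
  refine ⟨g, fun γ => ext_gr (g ∘ₗ act k G S γ) (act k G S γ ∘ₗ g) fun n x hx => ?_,
    fun n x hx => hg n x hx ▸ d2 n x hx, fun n hn x hx => ?_⟩
  · simp only [LinearMap.comp_apply]
    rw [hg n x hx, hg n _ (act_gr γ hx), d1 n γ x hx]
  · obtain ⟨m, rfl⟩ : ∃ m, n = m + 1 := ⟨n - 1, by omega⟩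
    rw [hg _ x hx, hg m _ (bd_gr hx), d3 m x hx]
    simp [Φ5 _ hn _ (a2 _ _ hx)]

end Pool.Agent.Lib.MP_f0c981_al
end
end

-- part Pool.Agent.Lib.MP_f0c981_al.Cap
section

/-!
The homogeneous cap product with a two-cocycle and its null homotopy.
-/

set_option autoImplicit false

noncomputable section

namespace Pool.Agent.Lib.MP_f0c981_al

open Finsupp

variable {N : Type} [Group N] {k : Type} [CommRing k]

/-- The homogeneous cap product with `ε`. -/
def c1 (k : Type) [CommRing k] (ε : N → N → ℤ) : Module.End k (B k N) :=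
  linearCombination k fun l => match l with
    | x :: y :: z :: l => (ε (x⁻¹ * y) (y⁻¹ * z) : k) • single (z :: l) 1
    | _ => 0

variable {ε : N → N → ℤ}

lemma c1_single (x y z : N) (l : List N) (r : k) :
    c1 k ε (single (x :: y :: z :: l) r) = (ε (x⁻¹ * y) (y⁻¹ * z) : k) • single (z :: l) r := by
  simp [c1, mul_comm]

lemma c1_cons (x y z : N) (u : B k N) :
    c1 k ε (cons x (cons y (cons z u))) = (ε (x⁻¹ * y) (y⁻¹ * z) : k) • cons z u := by
  induction u using Finsupp.induction_linear with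
  | zero => simp
  | add a b h1 h2 => simp only [map_add, h1, h2, smul_add]
  | single l r => simp only [cons_single, c1_single]

lemma c1_act (γ : N) (x : B k N) : c1 k ε (act k N N γ x) = act k N N γ (c1 k ε x) := by
  refine ext_gr (c1 k ε ∘ₗ act k N N γ) (act k N N γ ∘ₗ c1 k ε) (fun n x hx =>
    gr_ext _ _ (fun l _ => ?_) hx) x
  match l with
  | [] => simp [c1]
  | [a] => simp [c1]
  | [a, b] => simp [c1]
  | a :: b :: c :: l => simp [c1_single, mul_assoc, -smul_single]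

lemma c1_gr {n : ℕ} {x : B k N} (hx : x ∈ gr k N (n + 3)) : c1 k ε x ∈ gr k N (n + 1) := by
  refine gr_map _ _ (fun l hl => ?_) hx
  match l, hl with
  | a :: b :: c :: l, hl =>
    rw [c1_single]
    exact Submodule.smul_mem _ _ (single_mem_gr (by simpa using hl) _)

lemma c1_red {k' : Type} [CommRing k'] (φ : k →+* k') (x : B k N) :
    red φ (c1 k ε x) = c1 k' ε (red φ x) := by
  refine red_comm φ _ _ (fun l => ?_) x
  match l with
  | [] => simp [c1]
  | [a] => simp [c1]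
  | [a, b] => simp [c1]
  | a :: b :: c :: l => simp [c1_single]

lemma cj_act (j : ℕ) (γ : N) (x : B k N) :
    (c1 k ε ^ j) (act k N N γ x) = act k N N γ ((c1 k ε ^ j) x) := by
  induction j generalizing x with
  | zero => rfl
  | succ j ih => simp only [pow_succ, Module.End.mul_apply, c1_act, ih]

lemma cj_red {k' : Type} [CommRing k'] (φ : k →+* k') (j : ℕ) (x : B k N) :
    red φ ((c1 k ε ^ j) x) = (c1 k' ε ^ j) (red φ x) := by
  induction j generalizing x with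
  | zero => rfl
  | succ j ih => simp only [pow_succ, Module.End.mul_apply, c1_red, ih]

lemma cj_gr (j : ℕ) {n : ℕ} {x : B k N} (hx : x ∈ gr k N (n + 2 * j + 1)) :
    (c1 k ε ^ j) x ∈ gr k N (n + 1) := by
  induction j generalizing x with
  | zero => exact hx
  | succ j ih => exact ih (c1_gr hx)

variable (hε : ∀ x y z, ε x y + ε (x * y) z = ε y z + ε x (y * z))

include hε

lemma c1_bd {n : ℕ} {x : B k N} (hx : x ∈ gr k N (n + 4)) : bd (c1 k ε x) = c1 k ε (bd x) := by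
  refine gr_ext (bd ∘ₗ c1 k ε) (c1 k ε ∘ₗ bd) (fun l hl => ?_) hx
  match l, hl with
  | a :: b :: c :: d :: l, _ =>
    have h := congrArg (Int.cast : ℤ → k) (hε (a⁻¹ * b) (b⁻¹ * c) (c⁻¹ * d))
    simp only [mul_assoc, mul_inv_cancel_left, Int.cast_add] at h
    simp only [LinearMap.comp_apply]
    rw [c1_single, map_smul, bd_single_cons c, bd_single_cons a, bd_single_cons b,
      bd_single_cons c]
    simp only [map_sub, cons_single, c1_single, c1_cons]
    rw [show (ε (a⁻¹ * b) (b⁻¹ * c) : k) = ε (b⁻¹ * c) (c⁻¹ * d) + ε (a⁻¹ * b) (b⁻¹ * d) -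
      ε (a⁻¹ * c) (c⁻¹ * d) from eq_sub_of_add_eq h]
    module

lemma cj_bd (j : ℕ) {n : ℕ} {x : B k N} (hx : x ∈ gr k N (n + 2 * j + 2)) :
    bd ((c1 k ε ^ j) x) = (c1 k ε ^ j) (bd x) := by
  induction j generalizing x with
  | zero => rfl
  | succ j ih =>
    simp only [pow_succ, Module.End.mul_apply]
    rw [ih (c1_gr hx), c1_bd hε hx]

omit hε in
lemma phi_inv (j : ℕ) : Inv ⊤ (lapply [] ∘ₗ bd ∘ₗ (c1 k ε ^ j) : B k N →ₗ[k] k) := fun γ _ x => by
  simp only [LinearMap.comp_apply, cj_act, lapply_apply]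
  rw [act_apply, bd_lmap]
  exact mapDomain_apply (List.map_injective_iff.2 (MulAction.injective γ)) _ []

lemma euler_zero {p : ℕ} (hp : p.Prime) {A : Subgroup N} [A.FiniteIndex] {L : ℕ}
    (h : Contr p A L) {j : ℕ} (hj : L < 2 * j + 1) {z : B ℚ N} (hz : z ∈ gr ℚ N (2 * j + 1))
    (hc : ∀ Ψ : B ℚ N →ₗ[ℚ] ℚ, Inv ⊤ Ψ → Ψ (bd z) = 0) : bd ((c1 ℚ ε ^ j) z) [] = 0 := by
  obtain ⟨m, m0, y, y1, y2⟩ := clear_denom hz
  have key := transfer_zero hp h hj y1 (fun Ψ hΨ => ?_) _ (phi_inv (ε := ε) j) fun x hx => ?_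
  · have h1 : red (Int.castRingHom ℚ) (bd ((c1 ℤ ε ^ j) y)) [] = 0 := by
      rw [red_apply]
      exact (congrArg _ key).trans (map_zero _)
    rw [red_bd, cj_red, y2, map_smul, map_smul, Finsupp.smul_apply, smul_eq_zero] at h1
    exact h1.resolve_left (by exact_mod_cast m0)
  · let Ψ' : B ℚ N →ₗ[ℚ] ℚ := linearCombination ℚ fun l => (Ψ (single l 1) : ℚ)
    have h1 : ∀ x, (Ψ x : ℚ) = Ψ' (red (Int.castRingHom ℚ) x) := fun x => by
      induction x using Finsupp.induction_linear with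
      | zero => simp
      | add a b h1 h2 => simp only [map_add, Int.cast_add, h1, h2]
      | single l r =>
        rw [← smul_single_one l r, Ψ.map_smul]
        simp [Ψ']
    have h2 := h1 (bd y)
    rw [red_bd, y2, map_smul, map_smul, hc Ψ' (inv_of_single fun γ _ l => by
      simp only [Ψ', linearCombination_single]
      rw [← act_single, hΨ γ trivial]), smul_zero] at h2
    exact_mod_cast h2
  · simp only [LinearMap.comp_apply]
    rw [← cj_bd hε j (n := 0) (by simpa using hx), bd_bd]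
    rfl

lemma cap_null {p : ℕ} (hp : p.Prime) {A : Subgroup N} [A.FiniteIndex] {L : ℕ}
    (h : Contr p A L) : ∃ (j : ℕ) (D : B ℚ N →ₗ[ℚ] B ℚ N),
      (∀ γ x, D (act ℚ N N γ x) = act ℚ N N γ (D x)) ∧ ∀ n, ∀ x ∈ gr ℚ N (n + 2 * j + 1),
        D x ∈ gr ℚ N (n + 2) ∧ (c1 ℚ ε ^ j) x = bd (D x) + D (bd x) := by
  set j := L + 1 with hj
  let I : Submodule ℚ (B ℚ N) := Submodule.span ℚ {y | ∃ γ x, y = act ℚ N N γ x - x}
  obtain ⟨β, hβ⟩ : (lapply [] ∘ₗ bd ∘ₗ (c1 ℚ ε ^ j) : B ℚ N →ₗ[ℚ] ℚ) ∘ₗ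
      (gr ℚ N (2 * j + 1)).subtype ∈
      LinearMap.range (I.mkQ ∘ₗ bd ∘ₗ (gr ℚ N (2 * j + 1)).subtype).dualMap := by
    rw [LinearMap.range_dualMap_eq_dualAnnihilator_ker, Submodule.mem_dualAnnihilator]
    intro z hz
    refine euler_zero hε hp h (by omega) z.2 fun Ψ hΨ => ?_
    have h1 : I ≤ LinearMap.ker Ψ := Submodule.span_le.2 (by
      rintro _ ⟨γ, x, rfl⟩
      simp [hΨ γ trivial])
    exact h1 ((Submodule.Quotient.mk_eq_zero _).1 hz)
  let Ψ : B ℚ N →ₗ[ℚ] ℚ := β ∘ₗ I.mkQ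
  have Ψ1 : ∀ γ x, Ψ (act ℚ N N γ x) = Ψ x := fun γ x =>
    congrArg β ((Submodule.Quotient.eq _).2 (Submodule.subset_span ⟨γ, x, rfl⟩))
  have Ψ2 : ∀ x ∈ gr ℚ N (2 * j + 1), Ψ (bd x) = bd ((c1 ℚ ε ^ j) x) [] := fun x hx =>
    LinearMap.congr_fun hβ ⟨x, hx⟩
  let D0 : B ℚ N →ₗ[ℚ] B ℚ N := linearCombination ℚ fun l => Ψ (single l 1) • single (l.take 1) 1
  have e0 : ∀ l, D0 (single l 1) = Ψ (single l 1) • single (l.take 1) 1 := fun l => by
    simp only [D0, linearCombination_single, one_smul]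
  have e1 : ∀ y ∈ gr ℚ N (2 * j), bd (D0 y) = single [] (Ψ y) := fun y hy =>
    gr_ext (bd ∘ₗ D0) (lsingle [] ∘ₗ Ψ) (fun l hl => by
      obtain ⟨a, l, rfl⟩ := List.exists_cons_of_length_eq_add_one (n := 2 * L + 1) hl
      simp [e0, bd_single_cons]) hy
  obtain ⟨D, d0, d1, d2, d3⟩ := extend (bar ℚ N N) (bar ℚ N N) ⊥
    (fun γ hγ x => by rw [Subgroup.mem_bot.1 hγ, map_one]; rfl) (2 * j) 1
    (fun i => bar_proj ⊥ (fun γ hγ s => by rw [Subgroup.mem_bot.1 hγ, one_smul])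
      (fun γ s h => by simpa using h) _) (bar_exact 1) (-1) (fun _ => c1 ℚ ε ^ j)
    (fun i γ x _ => cj_act j γ x)
    (fun i x hx => by
      rw [add_comm (2 * j)] at hx
      rw [add_comm]
      exact cj_gr j hx)
    (fun i x hx => by
      rw [show 2 * j + (i + 1) + 1 = i + 2 * j + 2 by ring] at hx
      simp [cj_bd hε j hx])
    D0 (fun γ x hx => gr_ext (D0 ∘ₗ act ℚ N N γ) (act ℚ N N γ ∘ₗ D0) (fun l _ => by
      simp only [LinearMap.comp_apply, act_single, e0, map_smul, List.map_take]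
      rw [← act_single, Ψ1]) hx)
    (fun x hx => gr_map _ _ (fun l hl => by
      rw [e0]
      exact Submodule.smul_mem _ _ (single_mem_gr (by simp [hl]; omega) _)) hx)
    (fun x hx => by
      have a1 := gr_zero_eq (bd_gr (cj_gr (ε := ε) j (n := 0) (by simpa using hx)))
      simp only [bar_d, map_add, map_smul, e1 _ (bd_gr hx), Ψ2 x hx, ← a1]
      simp)
  simp only [bar_d, bar_ρ, bar_gr] at d1 d2 d3
  obtain ⟨g, hg⟩ := glue fun n => if 2 * j ≤ n then D (n - 2 * j) else 0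
  have hg' : ∀ i, ∀ x ∈ gr ℚ N (2 * j + i), g x = D i x := fun i x hx => by
    rw [hg _ x hx, if_pos (by omega), Nat.add_sub_cancel_left]
  refine ⟨j, g, fun γ => ext_gr (g ∘ₗ act ℚ N N γ) (act ℚ N N γ ∘ₗ g) fun n x hx => ?_,
    fun n x hx => ?_⟩
  · simp only [LinearMap.comp_apply]
    by_cases q : 2 * j ≤ n
    · obtain ⟨i, rfl⟩ := Nat.exists_eq_add_of_le q
      rw [hg' i x hx, hg' i _ (act_gr γ hx), d1 i γ x hx]
    · rw [hg n x hx, hg n _ (act_gr γ hx), if_neg q]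
      simp
  · rw [add_comm n] at hx
    rw [hg' (n + 1) x hx, hg' n _ (bd_gr hx), d3 n x hx]
    refine ⟨?_, by simp⟩
    have := d2 (n + 1) x hx
    rwa [add_comm] at this

end Pool.Agent.Lib.MP_f0c981_al
end
end
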