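import Pool.Agent.Lib.MP_f0c981_al.Cap
import Pool.Agent.Lib.MP_f0c981_al.Resol

/-!
The cap product on group homology, and the comparison with the homogeneous complex.
-/

set_option autoImplicit false

noncomputable section

namespace Pool.Agent.Lib.MP_f0c981_al

open Finsupp CategoryTheory Limits groupHomology

variable {N : Type} [Group N]

/-- The trivial representation on the rationals. -/
abbrev QQ (N : Type) [Group N] : Rep ℚ N := Rep.trivial ℚ N ℚ

/-- Cap product with the two-cochain `ε` on inhomogeneous chains: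
`[x₀|x₁|x₂|…] ↦ ε(x₀,x₁) [x₂|…]`. -/
def capC (ε : N → N → ℤ) (m : ℕ) : ((Fin (m + 2) → N) →₀ ℚ) →ₗ[ℚ] ((Fin m → N) →₀ ℚ) :=
  lsum ℚ fun x => (ε (x 0) (x 1) : ℚ) • lsingle fun i => x i.succ.succ

/-- The two-cocycle identity. -/
def IsCocycle (ε : N → N → ℤ) : Prop := ∀ x y z, ε x y + ε (x * y) z = ε y z + ε x (y * z)

/-- The inhomogeneous differential. -/
def dd (N : Type) [Group N] (m : ℕ) : ((Fin (m + 1) → N) →₀ ℚ) →ₗ[ℚ] ((Fin m → N) →₀ ℚ) :=
  (inhomogeneousChains.d (QQ N) m).hom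

/-- From inhomogeneous to homogeneous chains. -/
def io (m : ℕ) : ((Fin m → N) →₀ ℚ) →ₗ[ℚ] B ℚ N :=
  lmapDomain ℚ ℚ fun x => List.ofFn (Fin.partialProd x)

/-- From homogeneous to inhomogeneous chains. -/
def ka (m : ℕ) : B ℚ N →ₗ[ℚ] ((Fin m → N) →₀ ℚ) :=
  lmapDomain ℚ ℚ fun l i => (l.getD i 1)⁻¹ * l.getD (i + 1) 1

lemma io_single {m : ℕ} (x : Fin m → N) (r : ℚ) :
    io m (single x r) = single (List.ofFn (Fin.partialProd x)) r := by simp [io]

lemma ka_ofFn {m : ℕ} (x : Fin (m + 1) → N) (r : ℚ) :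
    ka m (single (List.ofFn x) r) = single (fun i => (x i.castSucc)⁻¹ * x i.succ) r := by
  simp only [ka, lmapDomain_apply, mapDomain_single]
  congr 1
  funext i
  rw [List.getD_eq_getElem _ _ (by simp), List.getD_eq_getElem _ _ (by simp), List.getElem_ofFn,
    List.getElem_ofFn]
  rfl

omit [Group N] in
lemma ch_ext {m : ℕ} {M : Type} [AddCommGroup M] [Module ℚ M]
    (u v : ((Fin m → N) →₀ ℚ) →ₗ[ℚ] M) (h : ∀ x, u (single x 1) = v (single x 1)) (w) :
    u w = v w :=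
  LinearMap.congr_fun (Finsupp.lhom_ext' fun x => LinearMap.ext_ring (h x)) w

lemma ka_io {m : ℕ} (w : (Fin m → N) →₀ ℚ) : ka m (io m w) = w :=
  ch_ext (ka m ∘ₗ io m) LinearMap.id (fun x => by
    simp only [LinearMap.comp_apply, io_single, ka_ofFn, Fin.partialProd_right_inv,
      LinearMap.id_apply]) w

lemma io_gr {m : ℕ} (w : (Fin m → N) →₀ ℚ) : io m w ∈ gr ℚ N (m + 1) := by
  induction w using Finsupp.induction_linear with
  | zero => simp
  | add a b h1 h2 => rw [map_add]; exact add_mem h1 h2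
  | single x r => rw [io_single]; exact single_mem_gr List.length_ofFn _

lemma ka_act {m : ℕ} (γ : N) {y : B ℚ N} (hy : y ∈ gr ℚ N (m + 1)) :
    ka m (act ℚ N N γ y) = ka m y :=
  gr_ext (ka m ∘ₗ act ℚ N N γ) (ka m) (fun l hl => by
    obtain ⟨x, rfl⟩ := exists_ofFn hl
    simp only [LinearMap.comp_apply, act_single, List.map_ofFn, ka_ofFn, Function.comp_apply,
      smul_eq_mul, mul_inv_rev, mul_assoc, inv_mul_cancel_left]) hy

lemma inv_io_ka {m : ℕ} {M : Type} [AddCommGroup M] [Module ℚ M] (Ψ : B ℚ N →ₗ[ℚ] M)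
    (h : ∀ γ, ∀ y ∈ gr ℚ N (m + 1), Ψ (act ℚ N N γ y) = Ψ y) {y : B ℚ N}
    (hy : y ∈ gr ℚ N (m + 1)) : Ψ y = Ψ (io m (ka m y)) :=
  gr_ext Ψ (Ψ ∘ₗ io m ∘ₗ ka m) (fun l hl => by
    obtain ⟨x, rfl⟩ := exists_ofFn hl
    simp only [LinearMap.comp_apply, ka_ofFn]
    rw [← h (x 0) _ (io_gr _), io_single, act_single, List.map_ofFn]
    congr 3
    exact (Fin.partialProd_left_inv x).symm) hy

lemma ka_bd_io {m : ℕ} (w : (Fin (m + 1) → N) →₀ ℚ) : ka m (bd (io (m + 1) w)) = dd N m w :=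
  ch_ext (ka m ∘ₗ bd ∘ₗ io (m + 1)) (dd N m) (fun x => by
    have e : dd N m (single x 1) = single (fun i => x i.succ) 1 +
        ∑ j : Fin (m + 1), (-1 : ℚ) ^ ((j : ℕ) + 1) • single (Fin.contractNth j (· * ·) x) 1 :=
      inhomogeneousChains.d_single (A := QQ N) m x (1 : ℚ)
    simp only [LinearMap.comp_apply, io_single, bd_ofFn, e]
    rw [Fin.sum_univ_succ, map_add, map_sum]
    congr 1
    · simp only [Fin.val_zero, pow_zero, one_smul, ka_ofFn, Function.comp_apply,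
        Fin.succAbove_zero]
      congr 1
      funext i
      exact Fin.partialProd_right_inv x i.succ
    · refine Finset.sum_congr rfl fun j _ => ?_
      rw [map_smul, ← Fin.partialProd_contractNth, ← io_single, ka_io, Fin.val_succ]) w

lemma ka_bd {m : ℕ} {y : B ℚ N} (hy : y ∈ gr ℚ N (m + 2)) :
    ka m (bd y) = dd N m (ka (m + 1) y) := by
  rw [← ka_bd_io]
  exact inv_io_ka (ka m ∘ₗ bd) (fun γ y hy => by
    rw [LinearMap.comp_apply, act_apply, bd_lmap, ← act_apply, ka_act γ (bd_gr hy)]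
    rfl) hy

variable {ε : N → N → ℤ}

lemma ka_c1_io {m : ℕ} (w : (Fin (m + 2) → N) →₀ ℚ) :
    ka m (c1 ℚ ε (io (m + 2) w)) = capC ε m w :=
  ch_ext (ka m ∘ₗ c1 ℚ ε ∘ₗ io (m + 2)) (capC ε m) (fun x => by
    simp only [LinearMap.comp_apply, io_single]
    rw [List.ofFn_succ, List.ofFn_succ, List.ofFn_succ, c1_single, map_smul,
      ← List.ofFn_succ (f := fun i : Fin (m + 1) => Fin.partialProd x i.succ.succ), ka_ofFn]
    have e0 := Fin.partialProd_right_inv x 0
    have e1 := Fin.partialProd_right_inv x 1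
    have e2 := fun i : Fin m => Fin.partialProd_right_inv x i.succ.succ
    simp only [capC, lsum_single, LinearMap.smul_apply, lsingle_apply]
    rw [← e0, ← e1]
    congr 2
    exact funext e2) w

lemma ka_c1 {m : ℕ} {y : B ℚ N} (hy : y ∈ gr ℚ N (m + 3)) :
    ka m (c1 ℚ ε y) = capC ε m (ka (m + 2) y) := by
  rw [← ka_c1_io]
  exact inv_io_ka (ka m ∘ₗ c1 ℚ ε) (fun γ y hy => by
    rw [LinearMap.comp_apply, c1_act, ka_act γ (c1_gr hy)]
    rfl) hy

lemma dd_capC (hε : IsCocycle ε) {m : ℕ} (w : (Fin (m + 3) → N) →₀ ℚ) :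
    dd N m (capC ε (m + 1) w) = capC ε m (dd N (m + 2) w) := by
  rw [← ka_c1_io, ← ka_bd (c1_gr (io_gr w)), c1_bd hε (io_gr w), ka_c1 (bd_gr (io_gr w)),
    ka_bd_io]

lemma cap_d (hε : IsCocycle ε) (m : ℕ) :
    ModuleCat.ofHom (capC ε (m + 1)) ≫ (inhomogeneousChains (QQ N)).d (m + 1) m =
      (inhomogeneousChains (QQ N)).d (m + 3) (m + 2) ≫ ModuleCat.ofHom (capC ε m) := by
  rw [inhomogeneousChains.d_def, inhomogeneousChains.d_def]
  exact ModuleCat.hom_ext (LinearMap.ext (dd_capC hε))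

/-- Cap product with the two-cocycle `ε` on cycles. -/
def capZ (hε : IsCocycle ε) (m : ℕ) : cycles (QQ N) (m + 2) ⟶ cycles (QQ N) m :=
  (inhomogeneousChains (QQ N)).liftCycles (iCycles (QQ N) (m + 2) ≫ ModuleCat.ofHom (capC ε m))
    _ rfl (by
      rcases m with _ | m
      · rw [HomologicalComplex.shape _ _ _ (by simp), comp_zero]
      · rw [ChainComplex.next_nat_succ, Category.assoc, cap_d hε,
          HomologicalComplex.iCycles_d_assoc, zero_comp])

lemma capZ_i (hε : IsCocycle ε) (m : ℕ) : capZ hε m ≫ iCycles (QQ N) m =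
    iCycles (QQ N) (m + 2) ≫ ModuleCat.ofHom (capC ε m) :=
  HomologicalComplex.liftCycles_i _ _ _ _ _

/-- Cap product with the class of the two-cocycle `ε` on rational group homology. -/
def capH (hε : IsCocycle ε) (m : ℕ) : groupHomology (QQ N) (m + 2) ⟶ groupHomology (QQ N) m :=
  Cofork.IsColimit.desc
    ((inhomogeneousChains (QQ N)).homologyIsCokernel (m + 3) (m + 2) (by simp))
    (capZ hε m ≫ π (QQ N) m) (by
      have : toCycles (QQ N) (m + 3) (m + 2) ≫ capZ hε m =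
          ModuleCat.ofHom (capC ε (m + 1)) ≫ toCycles (QQ N) (m + 1) m := by
        rw [← cancel_mono (iCycles (QQ N) m), Category.assoc, Category.assoc, capZ_i,
          HomologicalComplex.toCycles_i_assoc, HomologicalComplex.toCycles_i, cap_d hε]
      rw [zero_comp, ← Category.assoc, this, Category.assoc]
      exact (congrArg (_ ≫ ·)
        ((inhomogeneousChains (QQ N)).toCycles_comp_homologyπ (m + 1) m)).trans comp_zero)

lemma π_capH (hε : IsCocycle ε) (m : ℕ) :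
    π (QQ N) (m + 2) ≫ capH hε m = capZ hε m ≫ π (QQ N) m :=
  Cofork.IsColimit.π_desc'
    ((inhomogeneousChains (QQ N)).homologyIsCokernel (m + 3) (m + 2) (by simp)) _ _

/-- A homogeneous chain represents a homology class. -/
def Reps (m : ℕ) (a : groupHomology (QQ N) m) (y : B ℚ N) : Prop :=
  y ∈ gr ℚ N (m + 1) ∧ ∃ z : cycles (QQ N) m, π (QQ N) m z = a ∧ iCycles (QQ N) m z = ka m y

lemma exists_reps (m : ℕ) (a : groupHomology (QQ N) m) : ∃ y, Reps m a y := by
  induction a using groupHomology_induction_on with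
  | h z => exact ⟨io m (iCycles (QQ N) m z), io_gr _, z, rfl, (ka_io _).symm⟩

lemma Reps.cap (hε : IsCocycle ε) {m : ℕ} {a : groupHomology (QQ N) (m + 2)} {y : B ℚ N}
    (h : Reps (m + 2) a y) : Reps m (capH hε m a) (c1 ℚ ε y) := by
  obtain ⟨h1, z, rfl, h2⟩ := h
  refine ⟨c1_gr h1, capZ hε m z, (congrArg (fun φ => φ.hom z) (π_capH hε m)).symm, ?_⟩
  rw [ka_c1 h1, ← h2]
  exact congrArg (fun φ => φ.hom z) (capZ_i hε m)

lemma Reps.cycle {m : ℕ} (hm : 0 < m) {a : groupHomology (QQ N) m} {y : B ℚ N} (h : Reps m a y)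
    {M : Type} [AddCommGroup M] [Module ℚ M] (Ψ : B ℚ N →ₗ[ℚ] M)
    (hΨ : ∀ γ, ∀ y ∈ gr ℚ N m, Ψ (act ℚ N N γ y) = Ψ y) : Ψ (bd y) = 0 := by
  obtain ⟨m, rfl⟩ : ∃ n, m = n + 1 := ⟨m - 1, by omega⟩
  obtain ⟨h1, z, -, h2⟩ := h
  have e := (inhomogeneousChains (QQ N)).iCycles_d (m + 1) m
  rw [inhomogeneousChains.d_def] at e
  have e1 : dd N m (iCycles (QQ N) (m + 1) z) = 0 := congrArg (fun φ => φ.hom z) e
  rw [inv_io_ka Ψ hΨ (bd_gr h1), ka_bd h1, ← h2, e1, map_zero, map_zero]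

lemma Reps.zero {m : ℕ} {a : groupHomology (QQ N) m} {y u : B ℚ N} (h : Reps m a y)
    (hu : u ∈ gr ℚ N (m + 2)) (e : ka m y = ka m (bd u)) : a = 0 := by
  obtain ⟨h1, z, rfl, h2⟩ := h
  have e1 := (inhomogeneousChains (QQ N)).toCycles_i (m + 1) m
  rw [inhomogeneousChains.d_def] at e1
  have e2 : z = toCycles (QQ N) (m + 1) m (ka (m + 1) u) := by
    apply (ModuleCat.mono_iff_injective (iCycles (QQ N) m)).1 inferInstance
    rw [h2, e, ka_bd hu]
    exact (congrArg (fun φ => φ.hom (ka (m + 1) u)) e1).symm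
  rw [e2]
  exact congrArg (fun φ => φ.hom (ka (m + 1) u))
    ((inhomogeneousChains (QQ N)).toCycles_comp_homologyπ (m + 1) m)

theorem lim_zero (hε : IsCocycle ε) {p : ℕ} (hp : p.Prime) {A : Subgroup N} [A.FiniteIndex]
    {L : ℕ} (h : Contr p A L) (n : ℕ) (x : ∀ j, groupHomology (QQ N) (n + 2 * j))
    (hx : ∀ j, capH hε (n + 2 * j) (x (j + 1)) = x j) (i : ℕ) : x i = 0 := by
  obtain ⟨j, D, d1, d2⟩ := cap_null hε hp h
  have h1 : ∀ i j y, Reps _ (x (i + j)) y → Reps _ (x i) ((c1 ℚ ε ^ j) y) := fun i j => by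
    induction j with
    | zero => exact fun y h => h
    | succ j ih => exact fun y h => ih _ (hx (i + j) ▸ Reps.cap hε h)
  obtain ⟨y, hy⟩ := exists_reps _ (x (i + 1 + j))
  obtain ⟨h2, h3⟩ := d2 (n + 2 * (i + 1)) y (by convert hy.1 using 2; ring)
  have h4 := hy.cycle (by omega) (ka (n + 2 * (i + 1)) ∘ₗ D) fun γ y hy => by
    rw [LinearMap.comp_apply, d1]
    exact ka_act γ (d2 (n + 2 * i + 1) y (by convert hy using 2; ring)).1
  rw [← hx i, (h1 _ _ _ hy).zero h2 (by rw [h3, map_add, add_eq_left]; exact h4), map_zero]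

end Pool.Agent.Lib.MP_f0c981_al
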