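import Pool.Agent.Lib.MP_f0c981_al.Bar
import Pool.Agent.Lib.MP_f0c981_al.Cap

-- part Pool.Agent.Lib.MP_f0c981_al.Serre
section

/-!
The theorem of Serre on the cohomological dimension of torsion free finite index overgroups,
by tensor induction.
-/

set_option autoImplicit false

noncomputable section

namespace Pool.Agent.Lib.MP_f0c981_al

open Function
open Finsupp hiding update update_self update_idem update_comm
open scoped TensorProduct

variable {k : Type} {G : Type} [Group G] {I : Type} [Fintype I] [DecidableEq I] [MulAction G I]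

/-- Anticommuting involutions permuted by the group. -/
structure Cliff (k G I Λ : Type) [CommRing k] [Group G] [MulAction G I] [AddCommGroup Λ]
    [Module k Λ] where
  τ : Representation k G Λ
  c : I → Λ →ₗ[k] Λ
  v : Λ
  lam : Λ →ₗ[k] k
  τ_c : ∀ γ i a, τ γ (c i a) = c (γ • i) (τ γ a)
  cc : ∀ i a, c i (c i a) = a
  anti : ∀ i j a, i ≠ j → c i (c j a) = -c j (c i a)
  τ_v : ∀ γ, τ γ v = v
  lam_τ : ∀ γ a, lam (τ γ a) = lam a
  lam_v : lam v = 1

section ext

variable [CommRing k]

open ExteriorAlgebra in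
lemma map_contract {V : Type} [AddCommGroup V] [Module k V] (f : V →ₗ[k] V)
    (d d' : Module.Dual k V) (h : ∀ x, d' (f x) = d x) (a : ExteriorAlgebra k V) :
    map f (CliffordAlgebra.contractLeft d a) = CliffordAlgebra.contractLeft d' (map f a) := by
  induction a using CliffordAlgebra.left_induction with
  | algebraMap r => simp
  | add x y h1 h2 => simp only [map_add, h1, h2]
  | ι_mul x m h1 =>
    have e : ∀ y, map f (CliffordAlgebra.ι 0 m * y) = CliffordAlgebra.ι 0 (f m) * map f y :=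
      fun y => ((map f).map_mul _ _).trans (congrArg (· * map f y) (map_apply_ι f m))
    rw [e, CliffordAlgebra.contractLeft_ι_mul,
      CliffordAlgebra.contractLeft_ι_mul, map_sub, map_smul, e, h1, h]

omit [Fintype I] in
open ExteriorAlgebra in
/-- The exterior algebra model. -/
def cliff (k G I : Type) [CommRing k] [Group G] [DecidableEq I] [MulAction G I] :
    Cliff k G I (ExteriorAlgebra k (I → k)) where
  τ := { toFun γ := (map (LinearMap.funLeft k k fun i : I => γ⁻¹ • i)).toLinearMap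
         map_one' := by
          have : (LinearMap.funLeft k k fun i : I => (1 : G)⁻¹ • i) = LinearMap.id := by
            ext x i
            simp [LinearMap.funLeft]
          rw [this, ExteriorAlgebra.map_id]
          rfl
         map_mul' a b := by
          have : (LinearMap.funLeft k k fun i : I => (a * b)⁻¹ • i) =
              (LinearMap.funLeft k k fun i : I => a⁻¹ • i) ∘ₗ
                LinearMap.funLeft k k fun i : I => b⁻¹ • i := by
            ext x i
            simp [LinearMap.funLeft, mul_smul]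
          rw [this, ← map_comp_map]
          rfl }
  c i := LinearMap.mulLeft k (ι k (Pi.single i 1)) +
    CliffordAlgebra.contractLeft (LinearMap.proj i : Module.Dual k (I → k))
  v := 1
  lam := algebraMapInv.toLinearMap
  τ_c γ i a := by
    simp only [MonoidHom.coe_mk, OneHom.coe_mk, AlgHom.toLinearMap_apply, LinearMap.add_apply,
      LinearMap.mulLeft_apply, map_add, map_mul, map_apply_ι]
    congr 1
    · congr 2
      ext j
      simp [LinearMap.funLeft, Pi.single_apply, inv_smul_eq_iff]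
    · exact map_contract _ _ _ (fun x => by simp [LinearMap.funLeft]) a
  cc i a := by
    simp only [LinearMap.add_apply, LinearMap.mulLeft_apply, map_add]
    rw [← mul_assoc, ι_sq_zero, CliffordAlgebra.contractLeft_ι_mul,
      CliffordAlgebra.contractLeft_contractLeft]
    simp
  anti i j a h := by
    simp only [LinearMap.add_apply, LinearMap.mulLeft_apply, map_add]
    rw [CliffordAlgebra.contractLeft_ι_mul, CliffordAlgebra.contractLeft_ι_mul,
      CliffordAlgebra.contractLeft_comm, ← mul_assoc, ← mul_assoc,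
      eq_neg_of_add_eq_zero_left (ι_add_mul_swap (R := k) (M := I → k) (Pi.single i 1) (Pi.single j 1))]
    simp [h, h.symm]
    abel
  τ_v γ := map_one (map (LinearMap.funLeft k k fun i : I => γ⁻¹ • i))
  lam_τ γ a := by
    have : algebraMapInv.comp (map (LinearMap.funLeft k k fun i : I => γ⁻¹ • i)) =
        algebraMapInv := by
      ext x
      simp [algebraMapInv]
    exact AlgHom.congr_fun this a
  lam_v := map_one (algebraMapInv (R := k) (M := I → k))

end ext

variable [Field k] {Λ : Type} [AddCommGroup Λ] [Module k Λ] {H S : Type} [Group H] [MulAction H S]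

/-- The tensor power, twisted by the sign module. -/
abbrev TP (k S I Λ : Type) [Field k] [AddCommGroup Λ] [Module k Λ] : Type :=
  Λ ⊗[k] (⨂[k] _ : I, B k S)

/-- Pure tensors. -/
def pt (y : I → B k S) : Λ →ₗ[k] TP k S I Λ :=
  (TensorProduct.mk k _ _).flip (PiTensorProduct.tprod k y)

omit [Fintype I] [DecidableEq I] in
lemma TP_ext {M : Type} [AddCommGroup M] [Module k M] {f g : TP k S I Λ →ₗ[k] M}
    (h : ∀ y a, f (pt y a) = g (pt y a)) : f = g :=
  TensorProduct.ext (LinearMap.ext fun a => PiTensorProduct.ext (MultilinearMap.ext fun y => h y a))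

omit [Fintype I] in
lemma pt_sub (y : I → B k S) (i : I) (z z' : B k S) (a : Λ) :
    pt (update y i (z - z')) a = pt (update y i z) a - pt (update y i z') a := by
  exact ((TensorProduct.mk k Λ _ a) ∘ₗ (PiTensorProduct.tprod k).toLinearMap y i).map_sub z z'

omit [Fintype I] [DecidableEq I] in
lemma pt_zero {y : I → B k S} (i : I) (h : y i = 0) (a : Λ) : pt y a = 0 := by
  simp [pt, (PiTensorProduct.tprod k).map_coord_zero i h]

/-- Tensor product of operators. -/
def op (φ : I → B k S →ₗ[k] B k S) (a : Λ →ₗ[k] Λ) : TP k S I Λ →ₗ[k] TP k S I Λ :=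
  TensorProduct.map a (PiTensorProduct.map φ)

omit [Fintype I] [DecidableEq I] in
lemma op_pt (φ : I → B k S →ₗ[k] B k S) (c : Λ →ₗ[k] Λ) (y : I → B k S) (a : Λ) :
    op φ c (pt y a) = pt (fun i => φ i (y i)) (c a) := by simp [op, pt]

omit [Fintype I] in
lemma op_upd (i : I) (A : B k S →ₗ[k] B k S) (c : Λ →ₗ[k] Λ) (y : I → B k S) (a : Λ) :
    op (update (fun _ => LinearMap.id) i A) c (pt y a) = pt (update y i (A (y i))) (c a) := by
  rw [op_pt]
  congr 2
  ext1 j
  rcases eq_or_ne j i with rfl | h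
  · simp
  · simp [h]

/-- Basic tensors. -/
def eb (x : I → List S) : Λ →ₗ[k] TP k S I Λ := pt fun i => single (x i) 1

/-- The grading by total length. -/
def grT (k S I Λ : Type) [Field k] [AddCommGroup Λ] [Module k Λ] [Fintype I] (n : ℕ) :
    Submodule k (TP k S I Λ) :=
  Submodule.span k {y | ∃ x ∈ {x : I → List S | ∑ i, (x i).length = n}, ∃ a, y = eb x a}

lemma pt_mem {y : I → B k S} {m : I → ℕ} (h : ∀ i, y i ∈ gr k S (m i)) (a : Λ) :
    pt y a ∈ grT k S I Λ (∑ i, m i) := by
  have key : ∀ (s : Finset I) (y : I → B k S), (∀ i, y i ∈ gr k S (m i)) →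
      (∀ i, i ∉ s → ∃ l : List S, l.length = m i ∧ y i = single l 1) →
      pt y a ∈ grT k S I Λ (∑ i, m i) := by
    intro s
    induction s using Finset.induction_on with
    | empty =>
      intro y _ h
      choose x h1 h2 using fun i => h i (Finset.notMem_empty i)
      exact Submodule.subset_span ⟨x, Finset.sum_congr rfl fun i _ => h1 i, a, by
        rw [eb, funext h2]⟩
    | insert j s _ ih =>
      intro y h1 h2
      have := gr_map ((TensorProduct.mk k Λ _ a) ∘ₗ
        (PiTensorProduct.tprod k).toLinearMap y j) (grT k S I Λ (∑ i, m i)) (fun l hl => by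
          refine ih (update y j (single l 1)) (fun i => ?_) fun i hi => ?_
          · rcases eq_or_ne i j with rfl | q
            · rw [update_self]; exact single_mem_gr hl _
            · rw [update_of_ne q]; exact h1 i
          · rcases eq_or_ne i j with rfl | q
            · exact ⟨l, hl, update_self _ _ _⟩
            · rw [update_of_ne q]; exact h2 i (by simp [q, hi])) (h1 j)
      simpa [pt] using this
  exact key Finset.univ y h fun i hi => absurd (Finset.mem_univ i) hi

omit [DecidableEq I] in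
lemma grT_map {M : Type} [AddCommGroup M] [Module k M] {n : ℕ} (f : TP k S I Λ →ₗ[k] M)
    (W : Submodule k M) (h : ∀ (x : I → List S) (a : Λ), ∑ i, (x i).length = n → f (eb x a) ∈ W)
    {x : TP k S I Λ} (hx : x ∈ grT k S I Λ n) : f x ∈ W := by
  have : grT k S I Λ n ≤ W.comap f := Submodule.span_le.2 (by
    rintro _ ⟨x, h1, a, rfl⟩
    exact h x a h1)
  exact this hx

omit [DecidableEq I] in
lemma eb_constr (M : Type) [AddCommGroup M] [Module k M] (φ : (I → List S) → Λ →ₗ[k] M) :
    ∃ θ : TP k S I Λ →ₗ[k] M, ∀ x a, θ (eb x a) = φ x a := by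
  refine ⟨TensorProduct.lift ((Basis.piTensorProduct fun _ : I =>
    (Finsupp.basisSingleOne : Module.Basis (List S) k (B k S))).constr k φ).flip, fun x a => ?_⟩
  rw [← (Basis.piTensorProduct fun _ : I =>
    (Finsupp.basisSingleOne : Module.Basis (List S) k (B k S))).constr_basis k φ x]
  simp [eb, pt]

/-- The differential. -/
def dT (C : Cliff k G I Λ) : TP k S I Λ →ₗ[k] TP k S I Λ :=
  ∑ i, op (update (fun _ => LinearMap.id) i bd) (C.c i)

lemma dT_pt (C : Cliff k G I Λ) (y : I → B k S) (a : Λ) :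
    dT C (pt y a) = ∑ i, pt (update y i (bd (y i))) (C.c i a) := by
  simp [dT, op_upd]

lemma dT_dT (C : Cliff k G I Λ) (x : TP k S I Λ) : dT C (dT C x) = 0 := by
  refine LinearMap.congr_fun (TP_ext (f := dT C ∘ₗ dT C) (g := 0) fun y a => ?_) x
  simp only [LinearMap.comp_apply, dT_pt, map_sum, LinearMap.zero_apply]
  rw [← Finset.sum_product']
  have h0 : ∀ i, pt (update (update y i (bd (y i))) i (bd (update y i (bd (y i)) i)))
      (C.c i (C.c i a)) = 0 := fun i => pt_zero i (by simp [bd_bd]) _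
  refine Finset.sum_involution (fun p _ => p.swap) (fun p _ => ?_) (fun p _ h q => h ?_)
    (fun _ _ => by simp) fun _ _ => rfl
  · obtain ⟨i, j⟩ := p
    rcases eq_or_ne i j with rfl | q
    · simp only [Prod.swap, h0, add_zero]
    · simp only [Prod.swap, update_of_ne q, update_of_ne q.symm]
      rw [C.anti i j a q, map_neg, update_comm q, add_neg_cancel]
  · obtain ⟨i, j⟩ := p
    obtain rfl : j = i := (Prod.ext_iff.1 q).1
    exact h0 _

lemma dT_gr (C : Cliff k G I Λ) (n : ℕ) (x : TP k S I Λ) (hx : x ∈ grT k S I Λ (n + 1)) :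
    dT C x ∈ grT k S I Λ n := by
  refine grT_map _ _ (fun x a h => ?_) hx
  rw [eb, dT_pt]
  refine Submodule.sum_mem _ fun i _ => ?_
  rcases hi : (x i).length with _ | b
  · rw [pt_zero i (by rw [update_self]; exact bd_gr_zero (single_mem_gr hi _))]
    exact zero_mem _
  · have e : ∑ j, update (fun j => (x j).length) i b j = n := by
      rw [Finset.sum_update_of_mem (Finset.mem_univ i)]
      rw [← Finset.add_sum_erase _ _ (Finset.mem_univ i), hi, ← Finset.sdiff_singleton_eq_erase]
        at h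
      omega
    rw [← e]
    refine pt_mem (fun j => ?_) _
    rcases eq_or_ne j i with rfl | q
    · simp only [update_self]
      exact bd_gr (single_mem_gr hi _)
    · simp only [update_of_ne q]
      exact single_mem_gr rfl _

lemma dT_exact (C : Cliff k G I Λ) (i : I) (s : S) (n : ℕ) (y : TP k S I Λ)
    (hy : y ∈ grT k S I Λ n) (h : dT C y = 0) : ∃ x ∈ grT k S I Λ (n + 1), dT C x = y := by
  let hh : TP k S I Λ →ₗ[k] TP k S I Λ := op (update (fun _ => LinearMap.id) i (cons s)) (C.c i)
  have key : dT C ∘ₗ hh + hh ∘ₗ dT C = LinearMap.id := TP_ext fun y a => by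
    simp only [LinearMap.add_apply, LinearMap.comp_apply, hh, op_upd, dT_pt, map_sum,
      LinearMap.id_apply]
    rw [← Finset.sum_add_distrib, Finset.sum_eq_single i _ (by simp)]
    · simp only [update_self, update_idem, bd_cons, pt_sub, C.cc, update_eq_self, sub_add_cancel]
    · intro j _ q
      simp only [update_of_ne q, update_of_ne q.symm]
      rw [C.anti j i a q, map_neg, update_comm q, neg_add_cancel]
  refine ⟨hh y, grT_map _ _ (fun x a h => ?_) hy, ?_⟩
  · have e : ∑ j, update (fun j => (x j).length) i ((x i).length + 1) j = n + 1 := by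
      rw [Finset.sum_update_of_mem (Finset.mem_univ i)]
      rw [← Finset.add_sum_erase _ _ (Finset.mem_univ i), ← Finset.sdiff_singleton_eq_erase] at h
      omega
    rw [← e, eb, op_upd]
    refine pt_mem (fun j => ?_) _
    rcases eq_or_ne j i with rfl | q
    · simp only [update_self]
      exact cons_gr _ (single_mem_gr rfl _)
    · simp only [update_of_ne q]
      exact single_mem_gr rfl _
  · have := LinearMap.congr_fun key y
    simpa [h] using this

section induced

variable (C : Cliff k G I Λ) (c : G → I → H)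

/-- The twisted action on families of chains. -/
def tw (γ : G) (y : I → B k S) : I → B k S := fun i => act k H S (c γ (γ⁻¹ • i)) (y (γ⁻¹ • i))

/-- The tensor induced action of one element. -/
def rhoT (γ : G) : TP k S I Λ →ₗ[k] TP k S I Λ :=
  TensorProduct.map (C.τ γ) ((PiTensorProduct.reindex k (fun _ : I => B k S)
    (MulAction.toPerm γ)).toLinearMap ∘ₗ PiTensorProduct.map fun i => act k H S (c γ i))

omit [Fintype I] [DecidableEq I] in
lemma rhoT_pt (γ : G) (y : I → B k S) (a : Λ) :
    rhoT C c γ (pt y a) = pt (tw c γ y) (C.τ γ a) := by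
  simp [rhoT, pt]
  rfl

variable (c1 : ∀ i, c 1 i = 1) (c2 : ∀ γ δ i, c (γ * δ) i = c γ (δ • i) * c δ i)

/-- The tensor induced complex. -/
def tcx : Cx k G (TP k S I Λ) where
  ρ := { toFun := rhoT C c
         map_one' := TP_ext fun y a => by
          have : tw c 1 y = y := by
            ext1 i
            simp [tw, c1]
          rw [rhoT_pt, map_one, this]
          rfl
         map_mul' γ δ := TP_ext fun y a => by
          rw [Module.End.mul_apply, rhoT_pt, rhoT_pt, rhoT_pt, map_mul]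
          congr 2
          ext1 i
          simp [tw, c2, mul_smul] }
  d := dT C
  gr := grT k S I Λ
  ρ_d γ x := by
    refine LinearMap.congr_fun (TP_ext (f := dT C ∘ₗ rhoT C c γ) (g := rhoT C c γ ∘ₗ dT C)
      fun y a => ?_) x
    simp only [LinearMap.comp_apply, rhoT_pt, dT_pt, map_sum]
    refine (Fintype.sum_equiv (MulAction.toPerm γ) _ _ fun i => ?_).symm
    rw [C.τ_c, MulAction.toPerm_apply]
    congr 2
    ext1 j
    rcases eq_or_ne j (γ • i) with rfl | q
    · simp [tw, act_apply, bd_lmap]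
    · have : γ⁻¹ • j ≠ i := fun h => q (by rw [← h, smul_inv_smul])
      simp [tw, q, this]
  ρ_gr γ n x hx := by
    refine grT_map (rhoT C c γ) _ (fun x a h => ?_) hx
    rw [eb, rhoT_pt, ← h, ← Fintype.sum_equiv (MulAction.toPerm γ⁻¹)
      (fun i => (x (γ⁻¹ • i)).length) (fun i => (x i).length) fun _ => rfl]
    exact pt_mem (fun i => lmap_gr _ (single_mem_gr rfl _)) _
  d_gr := dT_gr C
  dd := dT_dT C

/-- The action on families of lists. -/
@[reducible] def famAction : MulAction G (I → List S) where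
  smul γ x := fun i => (x (γ⁻¹ • i)).map (c γ (γ⁻¹ • i) • ·)
  one_smul x := by
    ext1 i
    change (x _).map _ = _
    simp [c1]
  mul_smul γ δ x := by
    ext1 i
    change (x _).map _ = ((x _).map _).map _
    simp [c2, mul_smul, Function.comp_def]

lemma tcx_proj (hS : ∀ (h : H) (s : S), h • s = s → h = 1)
    (hc : ∀ γ i, γ • i = i → c γ i = 1 → γ = 1) (htf : ∀ γ : G, IsOfFinOrder γ → γ = 1) (n : ℕ) :
    Proj (tcx (S := S) C c c1 c2).ρ ⊥ (grT k S I Λ (n + 1)) := by
  let := famAction (S := S) c c1 c2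
  refine proj_of_basis (X := I → List S) _ C.τ eb (fun γ x a => ?_) eb_constr ⊥
    (fun γ hγ x => by rw [Subgroup.mem_bot.1 hγ, map_one]; rfl) _ (fun γ x hx => ?_)
    fun x hx γ h => ?_
  · refine (rhoT_pt C c γ _ a).trans ?_
    congr 2
    ext1 i
    exact act_single _ _ _
  · refine Eq.trans ?_ hx
    refine Fintype.sum_equiv (MulAction.toPerm γ⁻¹) _ _ fun i => ?_
    exact List.length_map _
  · obtain ⟨i, hi⟩ : ∃ i, x i ≠ [] := by
      by_contra q
      push Not at q
      simp [q] at hx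
    obtain ⟨m, hm, h1⟩ := isOfFinOrder_iff_pow_eq_one.1
      (isOfFinOrder_of_finite (MulAction.toPermHom G I γ))
    have h2 : γ ^ m • i = i := by
      rw [← map_pow] at h1
      exact Equiv.congr_fun h1 i
    have h3 : γ ^ m • x = x := (MulAction.stabilizer G x).pow_mem h m
    have h4 : (x ((γ ^ m)⁻¹ • i)).map (c (γ ^ m) ((γ ^ m)⁻¹ • i) • ·) = x i := congrFun h3 i
    rw [inv_smul_eq_iff.2 h2.symm] at h4
    obtain ⟨s, l, e⟩ := List.exists_cons_of_ne_nil hi
    rw [e] at h4
    exact htf γ (isOfFinOrder_iff_pow_eq_one.2 ⟨m, hm, hc _ i h2 (hS _ s (List.cons.inj h4).1)⟩)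

include C c1 c2 in
theorem serre_aux (i0 : I) (s0 : S) (hS : ∀ (h : H) (s : S), h • s = s → h = 1)
    (hc : ∀ γ i, γ • i = i → c γ i = 1 → γ = 1) (htf : ∀ γ : G, IsOfFinOrder γ → γ = 1) {L : ℕ}
    (hF : FD k H S L) : FD k G G (Fintype.card I * L) := by
  obtain ⟨f, f1, f2, f3, f4, f5⟩ := hF
  let T := tcx (S := S) C c c1 c2
  let v0 : TP k S I Λ := eb (fun _ => []) C.v
  have hv : ∀ γ, T.ρ γ v0 = v0 := fun γ => by
    refine (rhoT_pt C c γ _ _).trans ?_
    rw [C.τ_v]
    congr 2
    ext1 i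
    simp [tw]
  have hv0 : v0 ∈ T.gr 0 := Submodule.subset_span ⟨_, by simp, _, rfl⟩
  have hdv : T.d v0 = 0 := by
    refine (dT_pt C _ _).trans (Finset.sum_eq_zero fun i _ => pt_zero i (by simp) _)
  obtain ⟨α, a0, a1, a2, a3⟩ := extend (bar k G G) T ⊥
    (fun γ hγ x => by rw [Subgroup.mem_bot.1 hγ, map_one]; rfl) 0 0
    (fun j => bar_proj ⊥ (fun γ hγ s => by rw [Subgroup.mem_bot.1 hγ, one_smul])
      (fun γ s h => by simpa using h) _) (dT_exact C i0 s0) 1 (fun _ => 0) (by simp) (by simp)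
    (by simp) (linearCombination k fun _ => v0)
    (fun γ x hx => gr_ext (linearCombination k (fun _ => v0) ∘ₗ act k G G γ)
      (T.ρ γ ∘ₗ linearCombination k fun _ => v0) (fun l _ => by simp [hv]) hx)
    (fun x hx => gr_map _ _ (fun l _ => by simpa using hv0) hx)
    (fun x hx => by
      simpa using gr_ext (T.d ∘ₗ linearCombination k fun _ => v0) 0
        (fun l _ => by simp [hdv]) (bd_gr hx))
  obtain ⟨D0, hD0⟩ := eb_constr (B k G) fun _ : I → List S => lsingle [] ∘ₗ C.lam
  have hD1 : ∀ x ∈ T.gr 0, D0 x ∈ gr k G 0 := fun x hx =>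
    grT_map _ _ (fun x a _ => by rw [hD0]; exact single_mem_gr List.length_nil _) hx
  obtain ⟨β, b0, b1, b2, b3⟩ := extend T (bar k G G) ⊥
    (fun γ hγ x => by rw [Subgroup.mem_bot.1 hγ, map_one]; rfl) 0 0
    (fun j => tcx_proj C c c1 c2 hS hc htf _) (bar_exact 1) 1 (fun _ => 0) (by simp) (by simp)
    (by simp) D0
    (fun γ x hx => sub_eq_zero.1 (grT_map (D0 ∘ₗ T.ρ γ - act k G G γ ∘ₗ D0) ⊥ (fun x a _ => by
      have : T.ρ γ (eb x a) = eb (fun i => (x (γ⁻¹ • i)).map (c γ (γ⁻¹ • i) • ·)) (C.τ γ a) := by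
        refine (rhoT_pt C c γ _ a).trans ?_
        congr 2
        ext1 i
        exact act_single _ _ _
      simp [this, hD0, C.lam_τ]) hx))
    hD1 (fun x hx => by simpa using bd_gr_zero (hD1 _ (T.d_gr _ _ hx)))
  simp only [zero_add, LinearMap.zero_apply, one_smul] at a1 a2 a3 b1 b2 b3
  let F : TP k S I Λ →ₗ[k] TP k S I Λ := op (fun _ => f) LinearMap.id
  have F1 : ∀ γ x, F (T.ρ γ x) = T.ρ γ (F x) := fun γ =>
    LinearMap.congr_fun (TP_ext (f := F ∘ₗ rhoT C c γ) (g := rhoT C c γ ∘ₗ F) fun y a => by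
      simp only [LinearMap.comp_apply, rhoT_pt, F, op_pt, LinearMap.id_apply]
      congr 2
      ext1 i
      exact f1 _ _)
  have F2 : ∀ x, T.d (F x) = F (T.d x) :=
    LinearMap.congr_fun (TP_ext (f := dT C ∘ₗ F) (g := F ∘ₗ dT C) fun y a => by
      simp only [LinearMap.comp_apply, dT_pt, F, op_pt, LinearMap.id_apply, map_sum]
      refine Finset.sum_congr rfl fun i _ => ?_
      congr 2
      ext1 j
      rcases eq_or_ne j i with rfl | q
      · simp [f2]
      · simp [q])
  have F3 : ∀ n, ∀ x ∈ T.gr n, F x ∈ T.gr n := fun n x hx =>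
    grT_map _ _ (fun x a h => by
      rw [eb, op_pt, ← h]
      exact pt_mem (fun i => f3 _ _ (single_mem_gr rfl _)) _) hx
  have F5 : ∀ n, Fintype.card I * L < n → ∀ x ∈ T.gr n, F x = 0 := fun n hn x hx =>
    grT_map F ⊥ (fun x a h => by
      obtain ⟨i, hi⟩ : ∃ i, L < (x i).length := by
        by_contra q
        push Not at q
        have := Finset.sum_le_card_nsmul Finset.univ (fun i => (x i).length) L fun i _ => q i
        rw [h, Finset.card_univ, smul_eq_mul] at this
        omega
      rw [eb, op_pt, pt_zero i (f5 _ hi _ (single_mem_gr rfl _))]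
      exact zero_mem _) hx
  obtain ⟨g, hg⟩ := glue fun n => β n ∘ₗ F ∘ₗ α n
  simp only [LinearMap.comp_apply] at hg
  have g3 : ∀ n, ∀ x ∈ gr k G n, g x ∈ gr k G n := fun n x hx => by
    rw [hg n x hx]
    exact b2 _ _ (F3 _ _ (a2 _ _ hx))
  refine ⟨g, fun γ => ext_gr (g ∘ₗ act k G G γ) (act k G G γ ∘ₗ g) fun n x hx => ?_,
    ext_gr (bd ∘ₗ g) (g ∘ₗ bd) fun n x hx => ?_, g3, ?_, fun n hn x hx => ?_⟩
  · simp only [LinearMap.comp_apply]
    rw [hg n x hx, hg n _ (act_gr γ hx)]
    exact (congrArg (fun z => β n (F z)) (a1 n γ x hx)).trans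
      ((congrArg (β n) (F1 _ _)).trans (b1 n γ _ (F3 _ _ (a2 _ _ hx))))
  · simp only [LinearMap.comp_apply]
    rcases n with _ | n
    · rw [bd_gr_zero hx, bd_gr_zero (g3 _ _ hx), map_zero]
    · rw [hg _ x hx, hg n _ (bd_gr hx)]
      refine (b3 n _ (F3 _ _ (a2 _ _ hx))).trans ?_
      rw [F2, a3 n x hx]
      rfl
  · rw [hg 0 _ (single_mem_gr List.length_nil _), a0, b0, linearCombination_single, one_smul]
    have : F v0 = v0 := by simp [F, v0, eb, op_pt, f4]
    rw [this, hD0]
    simp [C.lam_v]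
  · rw [hg n x hx, F5 n hn _ (a2 _ _ hx), map_zero]

end induced

theorem serre (A : Subgroup G) [A.FiniteIndex] [MulAction A S] (s0 : S)
    (hS : ∀ (h : A) (s : S), h • s = s → h = 1) (htf : ∀ γ : G, IsOfFinOrder γ → γ = 1) {L : ℕ}
    (hF : FD k A S L) : ∃ L', FD k G G L' := by
  classical
  let := Fintype.ofFinite (G ⧸ A)
  have hm : ∀ (γ : G) (i : G ⧸ A), (γ • i).out⁻¹ * (γ * i.out) ∈ A := fun γ i => by
    rw [← QuotientGroup.eq, QuotientGroup.out_eq', ← smul_eq_mul, MulAction.Quotient.coe_smul_out]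
  refine ⟨_, serre_aux (cliff k G (G ⧸ A)) (fun γ i => (⟨_, hm γ i⟩ : A)) (fun i => ?_)
    (fun γ δ i => ?_) (1 : G) s0 hS (fun γ i h1 h2 => ?_) htf hF⟩
  · ext
    simp
  · ext
    simp [mul_smul, mul_assoc]
  · have := congrArg Subtype.val h2
    simp only [h1, OneMemClass.coe_one, inv_mul_eq_one] at this
    simpa using this

end Pool.Agent.Lib.MP_f0c981_al
end
end

-- part Pool.Agent.Lib.MP_f0c981_al.Root
section

/-!
Adjoining a central root.
-/

set_option autoImplicit false

noncomputable section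

namespace Pool.Agent.Lib.MP_f0c981_al

lemma FD.comp {k H A S : Type} [CommRing k] [Group H] [Group A] [MulAction A S] {L : ℕ}
    (φ : H →* A) (h : FD k A S L) : @FD k H S _ _ (MulAction.compHom S φ) L := by
  obtain ⟨f, h1, h2⟩ := h
  exact ⟨f, fun γ => h1 (φ γ), h2⟩

variable {A N S : Type} [Group A] [Group N] [MulAction A S]

theorem contr_of_root (π : A →* N) (g : A) (hc : ∀ a, a * g = g * a) (hg : ¬ IsOfFinOrder g)
    (hπ : π.ker = Subgroup.zpowers g) (htf : ∀ a : A, IsOfFinOrder a → a = 1) {p : ℕ}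
    (hp : p.Prime) (hr : ∀ a : A, a ^ p ≠ g) (s0 : S) (hS : ∀ (a : A) (s : S), a • s = s → a = 1)
    {L : ℕ} (hF : FD (ZMod p) A S L) : ∃ L', Contr p π.range L' := by
  have := Fact.mk hp
  let κ : A × Multiplicative ℤ := (g⁻¹, Multiplicative.ofAdd p)
  have hcomm : ∀ a, Commute a g := hc
  have hκ : ∀ x, Commute x κ := fun x => Prod.ext (hcomm x.1).inv_right (mul_comm _ _)
  let K := Subgroup.zpowers κ
  have hK : ∀ (a : A) (j : ℤ), (a, Multiplicative.ofAdd j) ∈ K ↔ ∃ m : ℤ, g ^ (-m) = a ∧ m * p = j := by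
    intro a j
    simp only [K, Subgroup.mem_zpowers_iff, κ, Prod.pow_mk, Prod.mk.injEq, inv_zpow',
      ← ofAdd_zsmul, EmbeddingLike.apply_eq_iff_eq, smul_eq_mul]
  have : K.Normal := ⟨fun x hx y => by
    obtain ⟨m, rfl⟩ := hx
    rw [((hκ y).zpow_right m).eq, mul_inv_cancel_right]
    exact ⟨m, rfl⟩⟩
  let G := (A × Multiplicative ℤ) ⧸ K
  let mk : A × Multiplicative ℤ →* G := QuotientGroup.mk' K
  have hmk : ∀ (a : A) (j : ℤ), mk (a, Multiplicative.ofAdd j) = 1 ↔
      ∃ m : ℤ, g ^ (-m) = a ∧ m * p = j := fun a j => (QuotientGroup.eq_one_iff _).trans (hK a j)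
  have hsurj : ∀ γ : G, ∃ (a : A) (j : ℤ), γ = mk (a, Multiplicative.ofAdd j) := fun γ => by
    obtain ⟨⟨a, j⟩, rfl⟩ := QuotientGroup.mk'_surjective K γ
    exact ⟨a, j.toAdd, rfl⟩
  have hg0 : ∀ m : ℤ, g ^ m = 1 → m = 0 := fun m h =>
    injective_zpow_iff_not_isOfFinOrder.2 hg (h.trans (zpow_zero g).symm)
  let t : G := mk (1, Multiplicative.ofAdd 1)
  have htz : ∀ j : ℤ, t ^ j = mk (1, Multiplicative.ofAdd j) := fun j => by
    simp only [t, ← map_zpow, Prod.pow_mk, one_zpow, ← ofAdd_zsmul, smul_eq_mul, mul_one]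
  have ht : ¬ IsOfFinOrder t := by
    rw [isOfFinOrder_iff_zpow_eq_one]
    rintro ⟨n, hn, h⟩
    obtain ⟨m, h1, h2⟩ := (hmk _ _).1 ((htz n).symm.trans h)
    have := hg0 _ h1
    apply hn
    rw [← h2, neg_eq_zero.1 this, zero_mul]
  have htc : ∀ γ, γ * t = t * γ := fun γ => by
    obtain ⟨a, j, rfl⟩ := hsurj γ
    simp only [t, ← map_mul, Prod.mk_mul_mk, mul_one, one_mul, mul_comm]
  let χ : G →* Multiplicative (ZMod p) := QuotientGroup.lift K
    ((Int.castAddHom (ZMod p)).toMultiplicative.comp (MonoidHom.snd _ _))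
    (Subgroup.zpowers_le.2 (by simp [κ]))
  let π' : G →* N := QuotientGroup.lift K (π.comp (MonoidHom.fst _ _))
    (Subgroup.zpowers_le.2 (by
      have : π g = 1 := (hπ.ge (Subgroup.mem_zpowers g))
      simp [κ, this]))
  let ι : A →* G := mk.comp (MonoidHom.inl _ _)
  have hι : Function.Injective ι := (injective_iff_map_eq_one ι).2 fun a h => by
    obtain ⟨m, h1, h2⟩ := (hmk a 0).1 h
    rw [← h1, (mul_eq_zero.1 h2).resolve_right (by exact_mod_cast hp.ne_zero), neg_zero, zpow_zero]
  have hle : χ.ker ≤ ι.range := fun γ h => by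
    obtain ⟨a, j, rfl⟩ := hsurj γ
    obtain ⟨m, rfl⟩ := (ZMod.intCast_zmod_eq_zero_iff_dvd j p).1 h
    refine ⟨a * g ^ m, ?_⟩
    have h1 := (hmk (g ^ (-m)) (p * m)).2 ⟨m, rfl, mul_comm _ _⟩
    change mk _ = _
    rw [← mul_one (mk _), ← h1, ← map_mul]
    simp
  have : ι.range.FiniteIndex := Subgroup.finiteIndex_of_le hle
  have hG : ∀ γ : G, IsOfFinOrder γ → γ = 1 := fun γ h => by
    obtain ⟨a, j, rfl⟩ := hsurj γ
    obtain ⟨n, hn, h1⟩ := isOfFinOrder_iff_zpow_eq_one.1 h
    rw [← map_zpow, Prod.pow_mk, ← ofAdd_zsmul, hmk] at h1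
    obtain ⟨m, h1, h2⟩ := h1
    have h3 : a ^ (p : ℤ) * g ^ j = 1 := htf _ (isOfFinOrder_iff_zpow_eq_one.2 ⟨n, hn, by
      rw [((hcomm a).zpow_zpow _ _).mul_zpow, ← zpow_mul, mul_comm (p : ℤ), zpow_mul, ← h1,
        ← zpow_mul, ← zpow_mul, ← zpow_add, mul_comm j, ← smul_eq_mul n, ← h2]
      simp⟩)
    by_cases q : (p : ℤ) ∣ j
    · obtain ⟨i, rfl⟩ := q
      have h4 : a * g ^ i = 1 := htf _ (isOfFinOrder_iff_zpow_eq_one.2 ⟨p,
        by exact_mod_cast hp.ne_zero, by
          rw [((hcomm a).zpow_right _).mul_zpow, ← zpow_mul, mul_comm i, h3]⟩)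
      exact (hmk _ _).2 ⟨i, by rw [zpow_neg]; exact (eq_inv_of_mul_eq_one_left h4).symm,
        mul_comm _ _⟩
    · obtain ⟨u, v, h4⟩ := ((Nat.prime_iff_prime_int.1 hp).coprime_iff_not_dvd).2 q
      refine absurd ?_ (hr (g ^ u * a ^ (-v)))
      rw [← zpow_natCast, ((hcomm a).symm.zpow_zpow _ _).mul_zpow, ← zpow_mul, ← zpow_mul,
        mul_comm (-v), zpow_mul a, eq_inv_of_mul_eq_one_left h3, ← zpow_neg, ← zpow_mul,
        ← zpow_add, neg_mul_neg, mul_comm j, h4, zpow_one]
  let e := (MonoidHom.ofInjective hι).symm.toMonoidHom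
  let := MulAction.compHom S e
  obtain ⟨L', hL⟩ := serre (k := ZMod p) ι.range s0
    (fun h s q => (MonoidHom.ofInjective hι).symm.injective ((hS _ s q).trans (map_one _).symm))
    hG (hF.comp e)
  let := MulAction.compHom N π'
  obtain ⟨D, d1, d2⟩ := contraction (S := N) htc (χ := fun γ => (χ γ).toAdd)
    (fun a b => by simp) ht (Int.cast_one) 1 (fun s => by
      change π 1 * s = s
      simp) (fun γ s q => by
      obtain ⟨a, j, rfl⟩ := hsurj γ
      have h1 : π a = 1 := mul_eq_right.1 q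
      obtain ⟨m, rfl⟩ := hπ.le h1
      refine ⟨j + m * p, ?_⟩
      have h1 := (hmk (g ^ (-m)) (m * p)).2 ⟨m, rfl, rfl⟩
      beta_reduce
      rw [htz, ← mul_one (mk (g ^ m, _)), ← h1, ← map_mul]
      simp [ofAdd_add]) hL
  refine ⟨L', D, ?_, d2⟩
  rintro _ ⟨a, rfl⟩
  exact d1 (ι a)

end Pool.Agent.Lib.MP_f0c981_al
end
end
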