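import Pool.Agent.Lib.MP_f0c981_al.Conv
import Pool.Agent.Lib.MP_f0c981_al.Root

/-!
The central extension attached to an element of infinite order.
-/

set_option autoImplicit false

noncomputable section

namespace Pool.Agent.Lib.MP_f0c981_al

open CategoryTheory Limits

variable {Γ : Type} [Group Γ]

/-- The centralizer of `g`. -/
abbrev Cent (g : Γ) : Subgroup Γ := Subgroup.centralizer {g}

/-- The element `g` inside its centralizer. -/
def gc (g : Γ) : Cent g := ⟨g, Subgroup.mem_centralizer_singleton_iff.2 rfl⟩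

lemma gc_comm (g : Γ) (a : Cent g) : Commute a (gc g) :=
  Subtype.ext (Subgroup.mem_centralizer_singleton_iff.1 a.2)

instance normal_gc (g : Γ) : (Subgroup.zpowers (gc g)).Normal := ⟨fun x hx y => by
  obtain ⟨m, rfl⟩ := hx
  rw [((gc_comm g y).zpow_right m).eq, mul_inv_cancel_right]
  exact ⟨m, rfl⟩⟩

/-- The quotient of the centralizer of `g` by the cyclic group generated by `g`. -/
abbrev NG (g : Γ) : Type := Cent g ⧸ Subgroup.zpowers (gc g)

lemma isCocycle_of_section {g : Γ} (hg : ¬ IsOfFinOrder g) {s : NG g → Cent g}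
    {ε : NG g → NG g → ℤ} (hε : ∀ x y, s x * s y = gc g ^ ε x y * s (x * y)) : IsCocycle ε := by
  intro x y z
  have h1 : ¬ IsOfFinOrder (gc g) := fun h => hg ((Cent g).subtype.isOfFinOrder h)
  apply injective_zpow_iff_not_isOfFinOrder.2 h1
  apply mul_right_cancel (b := s (x * y * z))
  beta_reduce
  rw [zpow_add, zpow_add, mul_assoc, ← hε, ← mul_assoc, ← hε, mul_assoc, mul_assoc x, mul_assoc,
    ← hε, hε y z, ← mul_assoc, ((gc_comm g (s x)).zpow_right _).eq, mul_assoc]

/-- Property BP at the element `g`: the inverse limit along the cap product with the Euler class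
vanishes, the Euler class being given by the cocycle `ε` of any set theoretic section `s`. -/
def BPAt (g : Γ) (hg : ¬ IsOfFinOrder g) : Prop :=
  ∀ (s : NG g → Cent g) (_ : ∀ x, (QuotientGroup.mk (s x) : NG g) = x) (ε : NG g → NG g → ℤ)
    (hε : ∀ x y, s x * s y = gc g ^ ε x y * s (x * y)) (n : ℕ)
    (x : ∀ j : ℕ, groupHomology (QQ (NG g)) (n + 2 * j)),
    (∀ j, capH (isCocycle_of_section hg hε) (n + 2 * j) (x (j + 1)) = x j) → ∀ j, x j = 0

lemma torsionFree (P : ProjectiveResolution (Rep.trivial ℤ Γ ℤ)) (L : ℕ)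
    (hP : ∀ n, L < n → IsZero (P.complex.X n)) {γ : Γ} (h : IsOfFinOrder γ) : γ = 1 := by
  classical
  let S := Subgroup.zpowers γ
  have : Finite S := (finite_zpowers.2 h).to_subtype
  let := Fintype.ofFinite S
  let : CommGroup S := { (inferInstance : Group S) with mul_comm := fun a b => mul_comm' a b }
  let A := Rep.trivial ℤ S ℤ
  have hz : IsZero (groupHomology A (2 * L + 1)) := by
    refine IsZero.of_iso ?_ ((groupHomology.indIso S A _).symm ≪≫ groupHomologyIso _ _ P)
    exact HomologicalComplex.ExactAt.isZero_homology (HomologicalComplex.ExactAt.of_isZero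
      (Functor.map_isZero ((Rep.coinvariantsTensor ℤ Γ).obj (Rep.ind S.subtype A))
        (hP (2 * L + 1) (by omega))))
  have h1 := (Rep.FiniteCyclicGroup.groupHomologyπOdd_eq_zero_iff A ⟨γ, Subgroup.mem_zpowers γ⟩
    (fun x => Subgroup.mem_zpowers_iff.2 (by
      obtain ⟨_, m, rfl⟩ := x
      exact ⟨m, rfl⟩)) (2 * L + 1) (by simp) ⟨(1 : ℤ), by simp [A, Rep.sub_hom, Rep.applyAsHom]⟩).1
    ((ModuleCat.isZero_iff_subsingleton.1 hz).elim _ _)
  obtain ⟨a, ha⟩ := h1
  have h2 : (Fintype.card S : ℤ) * a = 1 := by simpa [A, Representation.norm] using ha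
  have h3 : Fintype.card S = 1 := by
    exact_mod_cast Int.eq_one_of_mul_eq_one_right (by positivity) h2
  exact congrArg Subtype.val
    (Fintype.card_le_one_iff.1 h3.le (⟨γ, Subgroup.mem_zpowers γ⟩ : S) 1)

end Pool.Agent.Lib.MP_f0c981_al
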