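import Pool.Agent.Lib.MP_f0c981_al.Defs

/-!
Surjectivity of the cap product with the Euler class in high degrees.
-/

set_option autoImplicit false

noncomputable section

namespace Pool.Agent.Lib.MP_f0c981_al

open Finsupp

variable {k : Type} [CommRing k] {G : Type} [Group G]

/-- Inductive construction of chain maps into a complex that is exact in high degrees only. -/
lemma extend' {P M : Type} [AddCommGroup P] [Module k P] [AddCommGroup M] [Module k M]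
    (A : Cx k G P) (B : Cx k G M) (K : Subgroup G) (hK : ∀ γ ∈ K, ∀ y, B.ρ γ y = y)
    (n0 m0 : ℕ) (hP : ∀ j, Proj A.ρ K (A.gr (n0 + j + 1)))
    (hB : ∀ j, ∀ y ∈ B.gr (m0 + j + 1), B.d y = 0 → ∃ x ∈ B.gr (m0 + j + 1 + 1), B.d x = y)
    (D0 : P →ₗ[k] M) (d1 : ∀ γ, ∀ x ∈ A.gr n0, D0 (A.ρ γ x) = B.ρ γ (D0 x))
    (d2 : ∀ x ∈ A.gr n0, D0 x ∈ B.gr m0)
    (d3 : ∀ x ∈ A.gr (n0 + 1), ∃ z ∈ B.gr (m0 + 1), B.d z = -D0 (A.d x)) :
    ∃ D : ℕ → P →ₗ[k] M, D 0 = D0 ∧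
      (∀ j γ, ∀ x ∈ A.gr (n0 + j), D j (A.ρ γ x) = B.ρ γ (D j x)) ∧
      (∀ j, ∀ x ∈ A.gr (n0 + j), D j x ∈ B.gr (m0 + j)) ∧
      ∀ j, ∀ x ∈ A.gr (n0 + j + 1), B.d (D (j + 1) x) = -D j (A.d x) := by
  let Q : ℕ → (P →ₗ[k] M) → Prop := fun j E =>
    (∀ γ, ∀ x ∈ A.gr (n0 + j), E (A.ρ γ x) = B.ρ γ (E x)) ∧
      (∀ x ∈ A.gr (n0 + j), E x ∈ B.gr (m0 + j)) ∧
      ∀ x ∈ A.gr (n0 + j + 1), ∃ z ∈ B.gr (m0 + j + 1), B.d z = -E (A.d x)
  have step : ∀ j E, Q j E → ∃ E', Q (j + 1) E' ∧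
      ∀ x ∈ A.gr (n0 + j + 1), B.d (E' x) = -E (A.d x) := by
    rintro j E ⟨e1, e2, e3⟩
    let R : Submodule k (P × M) :=
      { carrier := {z | z.1 ∈ A.gr (n0 + j + 1) ∧ z.2 ∈ B.gr (m0 + j + 1) ∧
          B.d z.2 = -E (A.d z.1)}
        add_mem' := fun {a b} ha hb => ⟨add_mem ha.1 hb.1, add_mem ha.2.1 hb.2.1, by
          simp only [Prod.fst_add, Prod.snd_add, map_add, ha.2.2, hb.2.2, neg_add]⟩
        zero_mem' := ⟨zero_mem _, zero_mem _, by simp⟩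
        smul_mem' := fun a z hz => ⟨Submodule.smul_mem _ a hz.1, Submodule.smul_mem _ a hz.2.1, by
          simp only [Prod.smul_fst, Prod.smul_snd, map_smul, hz.2.2, smul_neg]⟩ }
    obtain ⟨θ, h1, h2⟩ := hP j M B.ρ hK R
      (fun γ x y h => ⟨A.ρ_gr _ _ _ h.1, B.ρ_gr _ _ _ h.2.1, by
        have h3 : B.d y = -E (A.d x) := h.2.2
        simp only [B.ρ_d, A.ρ_d, h3, map_neg, e1 γ _ (A.d_gr _ _ h.1)]⟩)
      fun x hx => by
        obtain ⟨y, h1, h2⟩ := e3 x hx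
        exact ⟨y, hx, h1, h2⟩
    refine ⟨θ, ⟨h1, fun x hx => (h2 x hx).2.1, fun x hx => ?_⟩, fun x hx => (h2 x hx).2.2⟩
    have h3 : B.d (θ (A.d x)) = -E (A.d (A.d x)) := (h2 _ (A.d_gr _ _ hx)).2.2
    exact hB j _ (neg_mem (h2 _ (A.d_gr _ _ hx)).2.1) (by rw [map_neg, h3, A.dd]; simp)
  choose st h1 h2 using step
  let D : ∀ j, {E // Q j E} := fun j =>
    Nat.rec ⟨D0, d1, d2, d3⟩ (fun j E => ⟨st j E.1 E.2, h1 j E.1 E.2⟩) j
  exact ⟨fun j => (D j).1, rfl, fun j => (D j).2.1, fun j => (D j).2.2.1,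
    fun j => h2 j (D j).1 (D j).2⟩

lemma bar_proj_bot (n : ℕ) : Proj (act k G G) ⊥ (gr k G (n + 1)) :=
  bar_proj ⊥ (fun γ hγ s => by rw [Subgroup.mem_bot.1 hγ, one_smul])
    (fun γ s h => by simpa using h) _

lemma FD.contr {L : ℕ} (hF : FD k G G L) : ∃ D : B k G →ₗ[k] B k G,
    (∀ γ x, D (act k G G γ x) = act k G G γ (D x)) ∧
    (∀ n, ∀ x ∈ gr k G n, D x ∈ gr k G (n + 1)) ∧
    ∀ n, L < n → ∀ x ∈ gr k G n, x = bd (D x) + D (bd x) := by
  obtain ⟨f, f1, f2, f3, f4, f5⟩ := hF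
  obtain ⟨D, d0, d1, d2, d3⟩ := extend (bar k G G) (bar k G G) ⊥
    (fun γ hγ x => by rw [Subgroup.mem_bot.1 hγ, map_one]; rfl) 0 1
    (fun j => bar_proj_bot _) (bar_exact 1) (-1) (fun _ => LinearMap.id - f)
    (fun j γ x _ => by simp [f1])
    (fun j x hx => by
      rw [zero_add] at hx
      rw [add_comm]
      exact sub_mem hx (f3 _ _ hx))
    (fun j x _ => by simp [f2]) 0 (by simp) (by simp) (fun x hx => by
      have := gr_ext f LinearMap.id (fun l hl => by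
        rw [List.length_eq_zero_iff.1 hl, f4]; rfl) (bd_gr hx)
      simp [f2, this])
  simp only [zero_add, bar_d, bar_ρ, bar_gr, add_comm 1] at d1 d2 d3
  obtain ⟨g, hg⟩ := glue D
  refine ⟨g, fun γ => ext_gr (g ∘ₗ act k G G γ) (act k G G γ ∘ₗ g) fun n x hx => ?_,
    fun n x hx => hg n x hx ▸ d2 n x hx, fun n hn x hx => ?_⟩
  · simp only [LinearMap.comp_apply]
    rw [hg n x hx, hg n _ (act_gr γ hx), d1 n γ x hx]
  · obtain ⟨m, rfl⟩ : ∃ m, n = m + 1 := ⟨n - 1, by omega⟩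
    rw [hg _ x hx, hg m _ (bd_gr hx), d3 m x hx]
    simp [f5 _ hn _ hx]

lemma rel_exact {t : G} (ht : ¬ IsOfFinOrder t) {m : ℕ} {z : B k G} (z1 : z ∈ gr k G (m + 3))
    (hd : bd z ∈ rel k t) : ∃ u ∈ gr k G (m + 4), bd u - z ∈ rel k t := by
  obtain ⟨w', hw'⟩ := hd
  obtain ⟨p, p1, p2, p3⟩ := exists_pr (k := k) (G := G) (S := G) (m + 2)
  have hw : act k G G t (p w') - p w' = bd z := by
    rw [← p3, ← map_sub, ← p2 _ (bd_gr z1), ← hw']
    rfl
  have w1 := p1 w'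
  generalize p w' = w at hw w1
  have w2 : bd w = 0 := by
    refine fixed_eq_zero ht (bd_gr w1) (sub_eq_zero.1 ?_)
    rw [act_apply, ← bd_lmap, ← map_sub, ← act_apply, hw, bd_bd]
  have z5 : bd (z - (act k G G t (cons 1 w) - cons 1 w)) = 0 := by
    rw [map_sub, map_sub, act_apply, bd_lmap, bd_cons, w2, map_zero, sub_zero, ← act_apply,
      hw, sub_self]
  refine ⟨cons 1 (z - (act k G G t (cons 1 w) - cons 1 w)),
    cons_gr _ (sub_mem z1 (sub_mem (act_gr _ (cons_gr _ w1)) (cons_gr _ w1))), -cons 1 w, ?_⟩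
  rw [bd_cons, z5]
  simp only [LinearMap.sub_apply, map_neg, LinearMap.id_apply, map_zero]
  abel

/-- The homogeneous cap product with a one-cochain. -/
def cap1 (b : G → k) : Module.End k (B k G) :=
  linearCombination k fun l => match l with
    | x :: y :: l => b (x⁻¹ * y) • single (y :: l) 1
    | _ => 0

lemma cap1_cons (b : G → k) (x y : G) (u : B k G) :
    cap1 b (cons x (cons y u)) = b (x⁻¹ * y) • cons y u := by
  induction u using Finsupp.induction_linear with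
  | zero => simp
  | add a b h1 h2 => simp only [map_add, h1, h2, smul_add]
  | single l r => simp [cap1, mul_comm]

lemma cap1_single (b : G → k) (x y : G) (l : List G) (r : k) :
    cap1 b (single (x :: y :: l) r) = b (x⁻¹ * y) • single (y :: l) r := by
  rw [← cons_single, ← cons_single, cap1_cons, cons_single]

lemma cap1_act (b : G → k) (γ : G) (x : B k G) :
    cap1 b (act k G G γ x) = act k G G γ (cap1 b x) := by
  refine ext_gr (cap1 b ∘ₗ act k G G γ) (act k G G γ ∘ₗ cap1 b) (fun n x hx =>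
    gr_ext _ _ (fun l _ => ?_) hx) x
  match l with
  | [] => simp [cap1]
  | [a] => simp [cap1]
  | a :: b :: l => simp [cap1_single, mul_assoc, -smul_single]

lemma cap1_gr (b : G → k) {n : ℕ} {x : B k G} (hx : x ∈ gr k G (n + 2)) :
    cap1 b x ∈ gr k G (n + 1) := by
  refine gr_map _ _ (fun l hl => ?_) hx
  match l, hl with
  | a :: c :: l, hl =>
    rw [cap1_single]
    exact Submodule.smul_mem _ _ (single_mem_gr (by simpa using hl) _)

lemma cap1_bd {N : Type} [Group N] (π : G →* N) (ε : N → N → ℤ) (b : G → k)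
    (hb : ∀ u v, b u + b v = b (u * v) + ε (π u) (π v)) {n : ℕ} {x : B k G}
    (hx : x ∈ gr k G (n + 3)) :
    c1 k ε (lmap π x) = bd (lmap π (cap1 b x)) + lmap π (cap1 b (bd x)) := by
  refine gr_ext (c1 k ε ∘ₗ lmap π) (bd ∘ₗ lmap π ∘ₗ cap1 b + lmap π ∘ₗ cap1 b ∘ₗ bd)
    (fun l hl => ?_) hx
  match l, hl with
  | a :: c :: d :: l, _ =>
    have h := hb (a⁻¹ * c) (c⁻¹ * d)
    simp only [mul_assoc, mul_inv_cancel_left, map_mul, map_inv] at h
    simp only [LinearMap.comp_apply, LinearMap.add_apply, bd_lmap]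
    rw [← map_add, cap1_single, map_smul, bd_single_cons a, bd_single_cons c]
    simp only [map_sub, cons_single, cap1_single, cap1_cons, lmap_single, List.map_cons,
      c1_single]
    rw [← sub_eq_iff_eq_add'.2 h]
    simp only [map_add, map_sub, map_smul, lmap_single, List.map_cons]
    module

theorem gysin {N : Type} [Group N] (π : G →* N) {t : G} (hc : ∀ γ, γ * t = t * γ)
    (ht : ¬ IsOfFinOrder t) (hπ : π.ker = Subgroup.zpowers t) {s : N → G} (hs : ∀ x, π (s x) = x)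
    {ε : N → N → ℤ} (hε : ∀ x y, s x * s y = t ^ ε x y * s (x * y)) (hε' : IsCocycle ε) {L : ℕ}
    (hF : FD k G G L) {n : ℕ} (hn : L ≤ n) : ∃ U W Ψ Ψ' : B k N →ₗ[k] B k N,
      (∀ γ, ∀ y ∈ gr k N (n + 1), Ψ (act k N N γ y) = act k N N γ (Ψ y) ∧
        Ψ' (act k N N γ y) = act k N N γ (Ψ' y)) ∧
      (∀ y ∈ gr k N (n + 1), Ψ y ∈ gr k N (n + 3) ∧ Ψ' y ∈ gr k N (n + 2)) ∧
      ∀ y ∈ gr k N (n + 2), U y ∈ gr k N (n + 4) ∧ W y ∈ gr k N (n + 3) ∧ bd (U y) = Ψ (bd y) ∧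
        c1 k ε (U y) = y + bd (W y) + Ψ' (bd y) := by
  have hcm : ∀ γ, Commute γ t := hc
  have hinj := injective_zpow_iff_not_isOfFinOrder.2 ht
  have hβ : ∀ a, ∃ m : ℤ, a = t ^ m * s (π a) := fun a => by
    obtain ⟨m, hm⟩ := hπ.le (show a * (s (π a))⁻¹ ∈ π.ker by simp [MonoidHom.mem_ker, hs])
    exact ⟨m, eq_mul_of_mul_inv_eq hm.symm⟩
  choose β hβ using hβ
  have hπt : π t = 1 := hπ.ge (Subgroup.mem_zpowers t)
  have β1 : ∀ u v, β (u * v) = β u + β v + ε (π u) (π v) := fun u v => by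
    apply hinj
    apply mul_right_cancel (b := s (π (u * v)))
    beta_reduce
    rw [← hβ, zpow_add, zpow_add, mul_assoc, map_mul, ← hε, mul_assoc, ← mul_assoc (t ^ β v),
      ← ((hcm (s (π u))).zpow_right _).eq, mul_assoc, ← hβ, ← mul_assoc, ← hβ]
  have β2 : β t = β 1 + 1 := by
    apply hinj
    apply mul_right_cancel (b := s 1)
    have h1 := hβ t
    have h2 := hβ 1
    rw [hπt] at h1
    rw [map_one] at h2
    beta_reduce
    rw [← h1, add_comm, zpow_add, mul_assoc, ← h2, mul_one, zpow_one]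
  let b : G → k := fun a => -(β a : k)
  have hb : ∀ u v, b u + b v = b (u * v) + ε (π u) (π v) := fun u v => by
    simp only [b, β1, Int.cast_add]
    ring
  obtain ⟨D, D1, D2, D3⟩ := hF.contr
  let := MulAction.compHom N π
  have ha : ∀ γ, act k G N γ = act k N N (π γ) := fun γ => rfl
  let Y := zcx (k := k) hc (χ := fun _ => 0) (by simp)
  let q := (rel k t).mkQ
  have hY : ∀ n y, y ∈ Y.gr n ↔ ∃ x ∈ gr k G n, q x = y := fun n y =>
    ⟨fun ⟨x, h1, h2⟩ => ⟨x, h1.1, h2⟩, fun ⟨x, h1, h2⟩ => ⟨x, ⟨h1, by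
      have : chi1 (fun _ : G => (0 : k)) = 0 := Finsupp.lhom_ext' fun l => LinearMap.ext_ring (by
        rcases l with _ | ⟨a, _ | _⟩ <;> simp [chi1])
      simp [this]⟩, h2⟩⟩
  have hd : ∀ x, Y.d (q x) = q (bd x) := fun x => rfl
  have hρ : ∀ γ x, Y.ρ γ (q x) = q (act k G G γ x) := fun γ x => rfl
  have hZ : ∀ γ ∈ Subgroup.zpowers t, ∀ y, Y.ρ γ y = y := by
    have h0 : ∀ y, Y.ρ t y = y := fun y => by
      obtain ⟨x, rfl⟩ := (rel k t).mkQ_surjective y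
      exact (Submodule.Quotient.eq _).2 ⟨x, rfl⟩
    have : Subgroup.zpowers t ≤ Y.ρ.ker := Subgroup.zpowers_le.2 (LinearMap.ext h0)
    intro γ hγ y
    rw [this hγ]
    rfl
  have desc : ∀ Ψ : B k G →ₗ[k] B k G, (∀ γ x, Ψ (act k G G γ x) = act k G G γ (Ψ x)) →
      ∃ Φ : (B k G ⧸ rel k t) →ₗ[k] B k N, (∀ x, Φ (q x) = lmap π (Ψ x)) ∧
        ∀ γ y, Φ (Y.ρ γ y) = act k G N γ (Φ y) := fun Ψ h => by
    have e : ∀ γ x, lmap π (Ψ (act k G G γ x)) = act k N N (π γ) (lmap π (Ψ x)) := fun γ x => by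
      rw [h]
      exact ext_gr (lmap π ∘ₗ act k G G γ) (act k N N (π γ) ∘ₗ lmap π)
        (fun n x hx => gr_ext _ _ (fun l _ => by simp [Function.comp_def]) hx) _
    refine ⟨(rel k t).liftQ (lmap π ∘ₗ Ψ) ?_, fun x => rfl, fun γ y => ?_⟩
    · rintro _ ⟨w, rfl⟩
      simp [e, hπt]
    · obtain ⟨x, rfl⟩ := (rel k t).mkQ_surjective y
      exact e γ x
  obtain ⟨P1, p1, p1'⟩ := desc LinearMap.id fun _ _ => rfl
  obtain ⟨P2, p2, p2'⟩ := desc (cap1 b) (cap1_act b)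
  obtain ⟨P3, p3, p3'⟩ := desc D D1
  obtain ⟨P4, p4, p4'⟩ := desc (cap1 b ∘ₗ D) fun γ x => by simp [D1, cap1_act]
  simp only [LinearMap.id_apply, LinearMap.comp_apply] at p1 p4
  have hK : ∀ γ ∈ Subgroup.zpowers t, ∀ x : N, γ • x = x := fun γ hγ x => by
    change π γ * x = x
    rw [hπ.ge hγ, one_mul]
  have hK' : ∀ γ ∈ Subgroup.zpowers t, ∀ y, act k G N γ y = y := fun γ hγ y => by
    rw [ha, hπ.ge hγ, map_one]
    rfl
  have hP := bar_proj (k := k) _ hK fun γ (x : N) h => hπ.le (mul_eq_right.1 h)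
  let T0 : B k G →ₗ[k] B k G := lmapDomain k k (fun l => l ++ l) -
    lmapDomain k k (fun l => l ++ l.map (t * ·))
  have T1 : ∀ γ x, T0 (act k G G γ x) = act k G G γ (T0 x) := fun γ =>
    ext_gr (T0 ∘ₗ act k G G γ) (act k G G γ ∘ₗ T0) fun n x hx => gr_ext _ _ (fun l _ => by
      simp [T0, Function.comp_def, ← mul_assoc, hc]) hx
  have T2 : ∀ a r, T0 (single [a] r) = single [a, a] r - single [a, t * a] r := fun a r => by
    simp [T0]
  obtain ⟨τ, t0, t1, t2, t3⟩ := extend' (bar k G N) Y _ hZ 1 2 (fun j => hP _)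
    (fun j y hy h => by
      obtain ⟨x, h1, rfl⟩ := (hY _ _).1 hy
      obtain ⟨u, u1, u2⟩ := rel_exact ht (m := j) (by rwa [add_comm 2] at h1)
        ((Submodule.Quotient.mk_eq_zero _).1 h)
      exact ⟨q u, (hY _ _).2 ⟨u, by rwa [add_comm 2], rfl⟩, (Submodule.Quotient.eq _).2 u2⟩)
    (q ∘ₗ T0 ∘ₗ lmap s)
    (fun γ x hx => gr_ext ((q ∘ₗ T0 ∘ₗ lmap s) ∘ₗ act k G N γ) (Y.ρ γ ∘ₗ q ∘ₗ T0 ∘ₗ lmap s)
      (fun l hl => by
        obtain ⟨a, rfl⟩ := List.length_eq_one_iff.1 hl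
        simp only [LinearMap.comp_apply, hρ, ← T1, act_single, lmap_single, List.map_cons,
          List.map_nil, smul_eq_mul]
        rw [hβ (γ * s a), ← hZ _ (Subgroup.zpow_mem_zpowers t (β (γ * s a))) (q _), hρ, ← T1,
          act_single, map_mul, hs]
        rfl) hx)
    (fun x hx => gr_map _ _ (fun l hl => by
      obtain ⟨a, rfl⟩ := List.length_eq_one_iff.1 hl
      refine (hY _ _).2 ⟨_, ?_, rfl⟩
      rw [LinearMap.comp_apply, lmap_single, List.map_singleton, T2]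
      exact sub_mem (single_mem_gr (by simp) _) (single_mem_gr (by simp) _)) hx)
    (fun x hx => gr_map (-(q ∘ₗ T0 ∘ₗ lmap s) ∘ₗ bd) ((Y.gr 3).map Y.d) (fun l hl => by
      obtain ⟨x, y, rfl⟩ := List.length_eq_two.1 hl
      refine ⟨q (single [s x, s y, t * s y] 1 - single [s x, t * s x, t * s y] 1 -
        single [s y, s y, s y] 1 + single [s x, s x, s x] 1), (hY _ _).2 ⟨_, add_mem (sub_mem
          (sub_mem (single_mem_gr (by simp) _) (single_mem_gr (by simp) _)) (single_mem_gr (by simp) _))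
          (single_mem_gr (by simp) _), rfl⟩, ?_⟩
      rw [hd, LinearMap.neg_apply, LinearMap.comp_apply, LinearMap.comp_apply, ← map_neg]
      refine (Submodule.Quotient.eq _).2 ⟨-single [s x, s y] 1, ?_⟩
      simp [bd_single_cons, T2]
      abel) hx)
  simp only [bar_d, bar_ρ, bar_gr, add_comm 1, add_comm 2] at t1 t2 t3
  have e1 : ∀ y, bd (P1 y) = P1 (Y.d y) := fun y => by
    obtain ⟨x, rfl⟩ := (rel k t).mkQ_surjective y
    exact (congrArg bd (p1 x)).trans ((bd_lmap _ _).trans (p1 _).symm)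
  have e2 : ∀ n, ∀ y ∈ Y.gr n, P1 y ∈ gr k N n ∧ P3 y ∈ gr k N (n + 1) := fun n y hy => by
    obtain ⟨x, h1, rfl⟩ := (hY _ _).1 hy
    rw [p1, p3]
    exact ⟨lmap_gr _ h1, lmap_gr _ (D2 _ _ h1)⟩
  have e3 : ∀ n, ∀ y ∈ Y.gr (n + 2), P2 y ∈ gr k N (n + 1) ∧ P4 y ∈ gr k N (n + 2) :=
    fun n y hy => by
      obtain ⟨x, h1, rfl⟩ := (hY _ _).1 hy
      rw [p2, p4]
      exact ⟨lmap_gr _ (cap1_gr _ h1), lmap_gr _ (cap1_gr _ (D2 _ _ h1))⟩
  have e4 : ∀ n, ∀ y ∈ Y.gr (n + 3), c1 k ε (P1 y) = bd (P2 y) + P2 (Y.d y) := fun n y hy => by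
    obtain ⟨x, h1, rfl⟩ := (hY _ _).1 hy
    rw [hd, p1, p2, p2, cap1_bd π ε b hb h1]
  have e5 : ∀ y ∈ Y.gr (n + 3), P1 y = bd (P3 y) + P3 (Y.d y) ∧
      c1 k ε (P3 y) = bd (P4 y) + P2 y - P4 (Y.d y) := fun y hy => by
    obtain ⟨x, h1, rfl⟩ := (hY _ _).1 hy
    have h2 := D3 _ (by omega) x h1
    rw [hd, p1, p3, p3, p4, p2, p4, bd_lmap, ← map_add, ← h2, cap1_bd π ε b hb (D2 _ _ h1),
      eq_sub_of_add_eq h2.symm, map_sub, map_sub, add_sub_assoc]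
    exact ⟨rfl, rfl⟩
  have e6 : ∀ x ∈ gr k N 1, P1 (τ 0 x) = 0 ∧ P2 (τ 0 x) = x := fun x hx => by
    refine ⟨gr_ext (P1 ∘ₗ τ 0) 0 (fun l hl => ?_) hx,
      gr_ext (P2 ∘ₗ τ 0) LinearMap.id (fun l hl => ?_) hx⟩ <;>
    obtain ⟨a, rfl⟩ := List.length_eq_one_iff.1 hl
    · simp [t0, p1, T2, hπt]
    · simp [t0, p2, T2, hπt, cap1_single, hs, b, ← hc, β2]
  obtain ⟨σ, s0, s1, s2, s3⟩ := extend (bar k G N) (bar k G N) _ hK' 1 3 (fun j => hP _)
    (bar_exact 1) 1 (fun j => P1 ∘ₗ τ (j + 1))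
    (fun j γ x hx => by
      rw [add_comm 1] at hx
      simp [t1 _ γ x hx, p1'])
    (fun j x hx => by
      rw [add_comm 1] at hx
      rw [add_comm 3]
      exact (e2 _ _ (t2 _ x hx)).1)
    (fun j x hx => by
      rw [add_comm 1] at hx
      simp [e1, t3 _ x hx])
    0 (by simp) (by simp) (fun x hx => by simp [e1, t3 0 x hx, (e6 _ (bd_gr hx)).1])
  simp only [bar_d, bar_ρ, bar_gr, add_comm 1, add_comm 3, one_smul, LinearMap.comp_apply]
    at s1 s2 s3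
  have e7 : ∀ j, ∀ x ∈ gr k N (j + 2), bd (P2 (τ (j + 1) x) - c1 k ε (σ (j + 1) x)) =
      P2 (τ j (bd x)) - c1 k ε (σ j (bd x)) := fun j x hx => by
    rw [map_sub, c1_bd hε' (s2 _ x hx), s3 j x hx, map_add, e4 _ _ (t2 _ x hx), t3 j x hx, map_neg]
    abel
  obtain ⟨h, h0, h1, h2, h3⟩ := extend (bar k G N) (bar k G N) _ hK' 1 2 (fun j => hP _)
    (bar_exact 1) (-1) (fun j => LinearMap.id - (P2 ∘ₗ τ (j + 1) - c1 k ε ∘ₗ σ (j + 1)))
    (fun j γ x hx => by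
      rw [add_comm 1] at hx
      simp only [bar_ρ, LinearMap.sub_apply, LinearMap.comp_apply, LinearMap.id_apply,
        t1 _ γ x hx, s1 _ γ x hx, p2', map_sub]
      rw [ha, c1_act])
    (fun j x hx => by
      rw [add_comm 1] at hx
      rw [add_comm 2]
      exact sub_mem hx (sub_mem (e3 _ _ (t2 _ x hx)).1 (c1_gr (s2 _ x hx))))
    (fun j x hx => by
      rw [add_comm 1] at hx
      simp only [bar_d, LinearMap.sub_apply, LinearMap.comp_apply, LinearMap.id_apply]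
      rw [map_sub, e7 _ x hx]
      simp)
    0 (by simp) (by simp) (fun x hx => by
      simp only [bar_d, LinearMap.sub_apply, LinearMap.comp_apply, LinearMap.id_apply]
      rw [LinearMap.zero_apply, smul_zero, add_zero, map_sub, e7 0 x hx, (e6 _ (bd_gr hx)).2, s0]
      simp)
  simp only [bar_d, bar_ρ, bar_gr, add_comm 1, add_comm 2, LinearMap.comp_apply,
    LinearMap.sub_apply, LinearMap.id_apply] at h1 h2 h3
  refine ⟨P3 ∘ₗ τ (n + 1) - σ (n + 1), P4 ∘ₗ τ (n + 1) - h (n + 1), P3 ∘ₗ τ n - σ n,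
    P4 ∘ₗ τ n - h n, fun γ y hy => ?_, fun y hy => ?_, fun y hy => ?_⟩
  · rw [← hs γ, ← ha]
    simp only [LinearMap.comp_apply, LinearMap.sub_apply, t1 _ _ y hy, s1 _ _ y hy, h1 _ _ y hy,
      p3', p4', map_sub, and_self]
  · exact ⟨sub_mem (e2 _ _ (t2 _ y hy)).2 (s2 _ y hy), sub_mem (e3 _ _ (t2 _ y hy)).2 (h2 _ y hy)⟩
  · refine ⟨sub_mem (e2 _ _ (t2 _ y hy)).2 (s2 _ y hy),
      sub_mem (e3 _ _ (t2 _ y hy)).2 (h2 _ y hy), ?_, ?_⟩
    · simp only [LinearMap.comp_apply, LinearMap.sub_apply, map_sub]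
      rw [s3 n y hy, (e5 _ (t2 _ y hy)).1, t3 n y hy, map_neg]
      abel
    · simp only [LinearMap.comp_apply, LinearMap.sub_apply, map_sub]
      rw [h3 n y hy, (e5 _ (t2 _ y hy)).2, t3 n y hy, map_neg]
      module

end Pool.Agent.Lib.MP_f0c981_al
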