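import Mathlib

/-!
A hierarchy of groups in the style of Kropholler.
-/

set_option autoImplicit false

namespace Pool.Agent.Lib.MP_f0c981_al

/-- The smallest class of groups that contains every group without a Pruefer `p`-subgroup for some
prime `p`, every group whose finitely generated subgroups are in the class, and every group with
a finite resolution of the rationals by permutation modules with stabilizers in the class. -/
inductive Tame : (S : Type) → [Group S] → Prop
  | base (S : Type) [Group S] (p : ℕ) (hp : p.Prime)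
      (h : ¬ ∃ x : ℕ → S, x 0 = 1 ∧ x 1 ≠ 1 ∧ ∀ i, x (i + 1) ^ p = x i) : Tame S
  | loc (S : Type) [Group S] (h : ∀ T : Subgroup S, T.FG → Tame T) : Tame S
  | act (S : Type) [Group S] (X : ℕ → Type) [∀ i, MulAction S (X i)]
      (D : ∀ i, (X (i + 1) →₀ ℚ) →ₗ[ℚ] (X i →₀ ℚ))
      (hD : ∀ i (γ : S) w, D i (w.mapDomain (γ • ·)) = (D i w).mapDomain (γ • ·))
      (h0 : Nonempty (X 0))
      (h1 : Function.Exact (D 0) fun w : X 0 →₀ ℚ => w.sum fun _ c => c)
      (h2 : ∀ i, Function.Exact (D (i + 1)) (D i)) (r : ℕ) (h3 : ∀ i, r < i → IsEmpty (X i))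
      (h : ∀ i (x : X i), Tame (MulAction.stabilizer S x)) : Tame S

end Pool.Agent.Lib.MP_f0c981_al
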