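import Pool.Agent.Lib.MP_f0c981_al.Local
import Pool.Agent.Lib.MP_f0c981_al.Tame

/-!
A hierarchy of groups, and the vanishing of rational homology along it.
-/

set_option autoImplicit false

noncomputable section

namespace Pool.Agent.Lib.MP_f0c981_al

open Finsupp CategoryTheory Limits groupHomology

variable {N : Type} [Group N]

/-- The inhomogeneous differential with coefficients. -/
def dA (A : Rep.{0} ℚ N) (m : ℕ) : ((Fin (m + 1) → N) →₀ A) →ₗ[ℚ] ((Fin m → N) →₀ A) :=
  (inhomogeneousChains.d A m).hom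

/-- The map of chains induced by a map of coefficients. -/
def mp {A B : Rep.{0} ℚ N} (f : A ⟶ B) (m : ℕ) :
    ((Fin m → N) →₀ A) →ₗ[ℚ] ((Fin m → N) →₀ B) := mapRange.linearMap f.hom.toLinearMap

lemma dA_dA (A : Rep.{0} ℚ N) (m : ℕ) (w) : dA A m (dA A (m + 1) w) = 0 :=
  congrArg (fun φ => φ.hom w) (inhomogeneousChains.d_comp_d (A := A) (n := m))

lemma dA_mp {A B : Rep.{0} ℚ N} (f : A ⟶ B) (m : ℕ) (w) :
    dA B m (mp f (m + 1) w) = mp f m (dA A m w) := by
  have e := (chainsMap (MonoidHom.id N) f).comm (m + 1) m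
  rw [inhomogeneousChains.d_def, inhomogeneousChains.d_def] at e
  have e' := congrArg (fun φ => φ.hom w) e
  simp only [ModuleCat.hom_comp, LinearMap.comp_apply] at e'
  erw [chainsMap_id_f_hom_eq_mapRange, chainsMap_id_f_hom_eq_mapRange] at e'
  exact e'

/-- Cycles with values in the kernel of `g` bound chains with values in the kernel of `g`. -/
def KVan {B C : Rep.{0} ℚ N} (g : B ⟶ C) (m : ℕ) : Prop :=
  ∀ w, mp g (m + 1) w = 0 → dA B m w = 0 → ∃ u, mp g (m + 2) u = 0 ∧ dA B (m + 1) u = w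

lemma mp_zero {B C : Rep.{0} ℚ N} (m : ℕ) (w) : mp (0 : B ⟶ C) m w = 0 := by
  ext
  simp [mp]

lemma van_iff (A : Rep.{0} ℚ N) (m : ℕ) :
    KVan (0 : A ⟶ A) m ↔ IsZero (groupHomology A (m + 1)) := by
  rw [groupHomology, ← HomologicalComplex.exactAt_iff_isZero_homology,
    HomologicalComplex.exactAt_iff' _ (m + 2) (m + 1) m (by simp) (by simp),
    ShortComplex.moduleCat_exact_iff]
  simp only [KVan, mp_zero, true_and, forall_const]
  change _ ↔ ∀ x, (inhomogeneousChains A).d (m + 1) m x = 0 →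
    ∃ y, (inhomogeneousChains A).d (m + 2) (m + 1) y = x
  rw [inhomogeneousChains.d_def, inhomogeneousChains.d_def]
  rfl

lemma KVan.step {A B C : Rep.{0} ℚ N} {f : A ⟶ B} {g : B ⟶ C} (h : Function.Exact f.hom g.hom)
    {m : ℕ} (h1 : KVan f m) (h2 : KVan (0 : A ⟶ A) (m + 1)) : KVan g (m + 1) := by
  intro w w1 w2
  obtain ⟨v, rfl⟩ : ∃ v, mp f (m + 2) v = w :=
    (range_mapRange f.hom (map_zero _)).ge fun x => (h _).1 (DFunLike.congr_fun w1 x)
  obtain ⟨u, u1, u2⟩ := h1 (dA A _ v) (by rw [← dA_mp, w2]) (dA_dA _ _ _)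
  obtain ⟨t, -, t2⟩ := h2 (v - u) (mp_zero _ _) (by rw [map_sub, u2, sub_self])
  refine ⟨mp f _ t, ?_, by rw [dA_mp, t2, map_sub, u1, sub_zero]⟩
  ext x
  exact h.apply_apply_eq_zero _

/-- The permutation representation. -/
abbrev PR (N X : Type) [Group N] [MulAction N X] : Rep.{0} ℚ N :=
  Rep.of (X := X →₀ ℚ)
    { toFun γ := lmapDomain ℚ ℚ (γ • ·)
      map_one' := by ext; simp
      map_mul' a b := by ext; simp [mul_smul] }

lemma perm_van {X : Type} [MulAction N X] {m : ℕ}
    (h : ∀ x : X, IsZero (groupHomology (QQ (MulAction.stabilizer N x)) (m + 1))) :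
    KVan (0 : PR N X ⟶ PR N X) m := by
  classical
  let o : X → X := fun x => (Quotient.mk (MulAction.orbitRel N X) x).out
  have ho : ∀ x, ∃ γ : N, γ • o x = x := fun x =>
    (MulAction.orbitRel N X).symm (Quotient.mk_out (s := MulAction.orbitRel N X) x)
  choose r hr using ho
  have ho : ∀ (γ : N) x, o (γ • x) = o x := fun γ x => by
    have : Quotient.mk (MulAction.orbitRel N X) (γ • x) =
        Quotient.mk (MulAction.orbitRel N X) x := Quotient.sound ⟨γ, rfl⟩
    simp only [o, this]
  intro w _ hw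
  have key : ∀ y : X, ∃ u, ∀ x, dA (PR N X) (m + 1) u x = (w x).filter (o · = y) := fun y => by
    let S := MulAction.stabilizer N y
    let I := Rep.ind S.subtype (QQ S)
    let e := Representation.IndV.mk S.subtype (QQ S).ρ
    have he : ∀ (s : S) a c, e (s * a) c = e a c := fun s a c => by
      have := Representation.Coinvariants.mk_self_apply (Representation.tprod
        ((Representation.leftRegular ℚ N).comp S.subtype) (QQ S).ρ) s (.single a 1 ⊗ₜ c)
      simpa [e] using this
    let p : PR N X ⟶ I := Rep.ofHom ⟨lsum ℚ fun x => if o x = y then e (r x)⁻¹ else 0,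
      fun γ => lhom_ext fun x c => by
        simp only [MonoidHom.coe_mk, OneHom.coe_mk, LinearMap.comp_apply, lmapDomain_apply,
          mapDomain_single, lsum_single, ho]
        split_ifs with q
        · rw [Representation.ind_mk, ← he ⟨(r x)⁻¹ * γ⁻¹ * r (γ • x), ?_⟩]
          · simp only [mul_inv_cancel_right]
            rfl
          · rw [MulAction.mem_stabilizer_iff, mul_smul, mul_smul, ← q, inv_smul_eq_iff,
              inv_smul_eq_iff, hr, ← ho γ, hr]
        · simp⟩
    let i0 : QQ S ⟶ Rep.res S.subtype (PR N X) :=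
      Rep.ofHom ⟨lsingle y, fun s => LinearMap.ext fun c => by
        have : (s : N) • y = y := s.2
        simp [this]⟩
    let i : I ⟶ PR N X := (Rep.indResHomEquiv S.subtype (QQ S) (PR N X)).symm i0
    have hi : ∀ a c, i.hom (e a c) = single (a⁻¹ • y) c := fun a c => by
      have h1 : i.hom (e 1 c) = single y c := congrArg (fun φ => φ.hom c)
        ((Rep.indResHomEquiv S.subtype (QQ S) (PR N X)).apply_symm_apply i0)
      have h2 := Rep.hom_comm_apply i a⁻¹ (e 1 c)
      rw [h1, Representation.ind_mk, one_mul, inv_inv] at h2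
      exact h2.trans mapDomain_single
    have hp : ∀ v : X →₀ ℚ, i.hom (p.hom v) = v.filter (o · = y) := fun v => by
      induction v using Finsupp.induction_linear with
      | zero => simp [filter_zero]
      | add a b h1 h2 => rw [map_add, map_add, h1, h2, filter_add]
      | single x c =>
        change i.hom (lsum ℚ _ (single x c)) = _
        rw [lsum_single]
        split_ifs with q
        · rw [hi, inv_inv, filter_single_of_pos (o · = y) q, ← q, hr]
        · rw [filter_single_of_neg (o · = y) q]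
          simp
    obtain ⟨u, -, u2⟩ := (van_iff I m).2 ((h y).of_iso (indIso S (QQ S) _)) (mp p _ w)
      (mp_zero _ _) (by rw [dA_mp, hw, map_zero])
    exact ⟨mp i _ u, fun x => by rw [dA_mp, u2]; exact hp _⟩
  choose u hu using key
  refine ⟨∑ y ∈ (w.support.biUnion fun x => (w x).support).image o, u y, mp_zero _ _, ?_⟩
  ext x z
  rw [map_sum, finsetSum_apply, finsetSum_apply]
  simp only [hu, filter_apply, Finset.sum_ite_eq]
  split_ifs with q
  · rfl
  · by_contra q'
    have h1 : z ∈ (w x).support := mem_support_iff.2 (Ne.symm q')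
    exact q (Finset.mem_image_of_mem _ (Finset.mem_biUnion.2 ⟨x, mem_support_iff.2 fun h0 => by
      simp [h0] at h1, h1⟩))

lemma act_van {X : ℕ → Type} [∀ i, MulAction N (X i)]
    (D : ∀ i, (X (i + 1) →₀ ℚ) →ₗ[ℚ] (X i →₀ ℚ))
    (hD : ∀ i (γ : N) w, D i (w.mapDomain (γ • ·)) = (D i w).mapDomain (γ • ·))
    (h0 : Nonempty (X 0)) (h1 : Function.Exact (D 0) fun w : X 0 →₀ ℚ => w.sum fun _ c => c)
    (h2 : ∀ i, Function.Exact (D (i + 1)) (D i)) (r : ℕ) (h3 : ∀ i, r < i → IsEmpty (X i)) {L : ℕ}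
    (h : ∀ i (x : X i) m, L ≤ m → IsZero (groupHomology (QQ (MulAction.stabilizer N x)) (m + 1)))
    {m : ℕ} (hm : L + r + 2 ≤ m) : IsZero (groupHomology (QQ N) (m + 1)) := by
  let f : ∀ i, PR N (X (i + 1)) ⟶ PR N (X i) := fun i =>
    Rep.ofHom ⟨D i, fun γ => LinearMap.ext (hD i γ)⟩
  let a : PR N (X 0) ⟶ QQ N := Rep.ofHom ⟨lsum ℚ fun _ => LinearMap.id, fun γ =>
    lhom_ext fun x c => by simp⟩
  have key : ∀ j i, r ≤ i + j → ∀ m, L ≤ m → KVan (f i) (m + j) := fun j => by
    induction j with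
    | zero =>
      intro i hi m _ w _ _
      have := h3 (i + 1) (by omega)
      exact ⟨0, map_zero _, (map_zero _).trans (Finsupp.ext fun x => Subsingleton.elim _ _)⟩
    | succ j ih =>
      exact fun i hi m hm => KVan.step (h2 i) (ih (i + 1) (by omega) m hm)
        (perm_van fun x => h _ x (m + j + 1) (by omega))
  obtain ⟨n, rfl⟩ := Nat.exists_eq_add_of_le hm
  obtain ⟨x0⟩ := h0
  have k1 : KVan a (L + n + r + 1) := KVan.step (f := f 0) h1 (key r 0 (by omega) _ (by omega))
    (perm_van fun x => h _ x _ (by omega))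
  have k2 : KVan (0 : QQ N ⟶ QQ N) (L + n + r + 1 + 1) := KVan.step (f := a)
    (fun c => ⟨fun _ => ⟨single x0 c, by simp [a]⟩, fun _ => rfl⟩) k1
    (perm_van fun x => h _ x _ (by omega))
  rw [← van_iff]
  convert k2 using 1
  omega

variable {Γ : Type} [Group Γ]

/-- The statement for one prime that the hierarchy starts from. -/
def TowerStmt : Prop :=
  ∀ (Γ : Type) [Group Γ] (P : ProjectiveResolution (Rep.trivial ℤ Γ ℤ)) (d : ℕ)
    (_ : ∀ n, d < n → IsZero (P.complex.X n)) (g : Γ) (hg : ¬ IsOfFinOrder g) (p : ℕ)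
    (_ : p.Prime) (_ : ¬ ∃ r : ℕ → Γ, r 0 = g ∧ ∀ i, r (i + 1) ^ p = r i), BPAt g hg

lemma isZero_of_forall {A : ModuleCat ℚ} (h : ∀ a : A, a = 0) : IsZero A :=
  ModuleCat.isZero_iff_subsingleton.2 ⟨fun a b => (h a).trans (h b).symm⟩

lemma exists_cover (P : ProjectiveResolution (Rep.trivial ℤ Γ ℤ)) {d : ℕ}
    (hP : ∀ n, d < n → IsZero (P.complex.X n)) {g : Γ} (hg : ¬ IsOfFinOrder g) {S : Type}
    [Group S] (f : S →* NG g) (hf : Function.Injective f) :
    ∃ (G : Type) (_ : Group G) (Q : ProjectiveResolution (Rep.trivial ℤ G ℤ)) (π : G →* S) (t : G),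
      (∀ n, d < n → IsZero (Q.complex.X n)) ∧ (∀ γ, γ * t = t * γ) ∧ ¬ IsOfFinOrder t ∧
      π.ker = Subgroup.zpowers t ∧ Function.Surjective π := by
  let G : Subgroup (Cent g) := f.range.comap (QuotientGroup.mk' _)
  obtain ⟨Q, hQ⟩ := res_resolution (Cent g) P hP
  obtain ⟨Q', hQ'⟩ := res_resolution G Q hQ
  let e := MonoidHom.ofInjective hf
  let π0 : G →* f.range := ((QuotientGroup.mk' _).comp G.subtype).codRestrict _ fun x => x.2
  have ht : gc g ∈ G := ⟨1, (map_one f).trans
    ((QuotientGroup.eq_one_iff _).2 (Subgroup.mem_zpowers _)).symm⟩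
  refine ⟨G, inferInstance, Q', e.symm.toMonoidHom.comp π0, ⟨_, ht⟩, hQ',
    fun γ => Subtype.ext (gc_comm g γ.1),
    fun h => hg (((Cent g).subtype.comp G.subtype).isOfFinOrder h), ?_,
    e.symm.surjective.comp fun x => ?_⟩
  · ext a
    rw [MonoidHom.mem_ker, Subgroup.mem_zpowers_iff]
    refine (map_eq_one_iff _ e.symm.injective).trans (Subtype.ext_iff.trans
      ((QuotientGroup.eq_one_iff _).trans (Subgroup.mem_zpowers_iff.trans ?_)))
    exact exists_congr fun m => ⟨fun h => Subtype.ext h, fun h => congrArg Subtype.val h⟩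
  · obtain ⟨a, ha⟩ := QuotientGroup.mk'_surjective _ x.1
    exact ⟨⟨a, show _ ∈ f.range from ha ▸ x.2⟩, Subtype.ext ha⟩

lemma descend {G S : Type} [Group G] [Group S] (Q : ProjectiveResolution (Rep.trivial ℤ G ℤ))
    {d : ℕ} (hQ : ∀ n, d < n → IsZero (Q.complex.X n)) (π : G →* S) {t : G}
    (hc : ∀ γ, γ * t = t * γ) (ht : ¬ IsOfFinOrder t) (hπ : π.ker = Subgroup.zpowers t)
    (hs : Function.Surjective π) {m : ℕ} (hm : d + 1 < m) (j : ℕ)
    (h : IsZero (groupHomology (QQ S) (m + 2 * j))) : IsZero (groupHomology (QQ S) m) := by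
  choose s hs using hs
  have hε : ∀ x y, ∃ m : ℤ, s x * s y = t ^ m * s (x * y) := fun x y => by
    obtain ⟨m, hm⟩ := hπ.le (show s x * s y * (s (x * y))⁻¹ ∈ π.ker by
      simp [MonoidHom.mem_ker, hs])
    exact ⟨m, eq_mul_of_mul_inv_eq hm.symm⟩
  choose ε hε using hε
  have hε' : IsCocycle ε := fun x y z => by
    apply injective_zpow_iff_not_isOfFinOrder.2 ht
    apply mul_right_cancel (b := s (x * y * z))
    beta_reduce
    rw [zpow_add, zpow_add, mul_assoc, ← hε, ← mul_assoc, ← hε, mul_assoc, mul_assoc x, mul_assoc,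
      ← hε, hε y z, ← mul_assoc, ((show Commute (s x) t from hc _).zpow_right _).eq, mul_assoc]
  induction j with
  | zero => exact h
  | succ j ih =>
    refine ih (isZero_of_forall fun a => ?_)
    obtain ⟨a, rfl⟩ := capH_surj π hc ht hπ hs hε hε'
      ((FD_of_resolution Q d hQ).base (Int.castRingHom ℚ)) (by omega) a
    rw [(ModuleCat.isZero_iff_subsingleton.1 h).elim a 0, map_zero]

theorem Tame.vanish (hT : TowerStmt) (P : ProjectiveResolution (Rep.trivial ℤ Γ ℤ)) {d : ℕ}
    (hP : ∀ n, d < n → IsZero (P.complex.X n)) {g : Γ} (hg : ¬ IsOfFinOrder g) {S : Type}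
    [Group S] (h : Tame S) : ∀ f : S →* NG g, Function.Injective f → ∀ m, d < m →
      IsZero (groupHomology (QQ S) (m + 1)) := by
  classical
  induction h with
  | base S p hp h =>
    intro f hf m hm
    obtain ⟨G, _, Q, π, t, hQ, hc, ht, hπ, hs⟩ := exists_cover P hP hg f hf
    have h1 : BPAt t ht := hT G Q d hQ t ht p hp fun ⟨r, r0, r1⟩ =>
      h ⟨fun i => π (r i), (congrArg π r0).trans (hπ.ge (Subgroup.mem_zpowers t)), fun q => by
        obtain ⟨n, hn⟩ := hπ.le q
        have h2 := r1 0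
        rw [r0, zero_add, ← hn, ← zpow_natCast, ← zpow_mul] at h2
        have h3 := injective_zpow_iff_not_isOfFinOrder.2 ht (h2.trans (zpow_one t).symm)
        exact hp.ne_one (by exact_mod_cast Int.eq_one_of_mul_eq_one_left (by positivity) h3),
        fun i => by rw [← map_pow, r1]⟩
    have h2 : Subgroup.zpowers (gc t) = (π.comp (Cent t).subtype).ker := by
      ext a
      rw [MonoidHom.mem_ker, Subgroup.mem_zpowers_iff]
      refine Iff.trans ?_ (Subgroup.mem_zpowers_iff.symm.trans (hπ ▸ MonoidHom.mem_ker))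
      exact exists_congr fun m => ⟨fun h => congrArg Subtype.val h, fun h => Subtype.ext h⟩
    refine isZero_of_forall fun a => ?_
    induction a using groupHomology_induction_on with
    | h z =>
      refine zero_of_range (QuotientGroup.lift _ _ h2.le)
        ((QuotientGroup.injective_lift_iff _ _ _).2 h2) (h1.vanish Q hQ (by omega)) z _ rfl
        fun x _ i => ?_
      obtain ⟨a, ha⟩ := hs (x i)
      exact ⟨QuotientGroup.mk ⟨a, Subgroup.mem_centralizer_singleton_iff.2 (hc a)⟩, ha⟩
  | loc S _ ih =>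
    intro f hf m hm
    refine isZero_of_forall fun a => ?_
    induction a using groupHomology_induction_on with
    | h z =>
      obtain ⟨w, hw⟩ : ∃ w : (Fin (m + 1) → S) →₀ ℚ, iCycles (QQ S) (m + 1) z = w := ⟨_, rfl⟩
      let T : Finset S := w.support.biUnion fun x => Finset.univ.image x
      let B := Subgroup.closure (T : Set S)
      refine zero_of_range B.subtype B.subtype_injective (fun a =>
        (ModuleCat.isZero_iff_subsingleton.1 (ih B ⟨T, rfl⟩ (f.comp B.subtype)
          (hf.comp B.subtype_injective) m hm)).elim _ _) z w hw fun x hx i => ?_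
      rw [Subgroup.range_subtype]
      exact Subgroup.subset_closure
        (Finset.mem_biUnion.2 ⟨x, hx, Finset.mem_image_of_mem _ (Finset.mem_univ _)⟩)
  | act S X D hD h0 h1 h2 r h3 _ ih =>
    intro f hf m hm
    obtain ⟨G, _, Q, π, t, hQ, hc, ht, hπ, hs⟩ := exists_cover P hP hg f hf
    refine descend Q hQ π hc ht hπ hs (by omega) (r + 2) ?_
    rw [show m + 1 + 2 * (r + 2) = m + 2 * (r + 2) + 1 by ring]
    exact act_van D hD h0 h1 h2 r h3 (L := d + 1) (fun i x m hm => ih i x
      (f.comp (Subgroup.subtype _)) (hf.comp (Subgroup.subtype_injective _)) m hm) (by omega)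

theorem bp_of_tame (hT : TowerStmt) (P : ProjectiveResolution (Rep.trivial ℤ Γ ℤ)) {d : ℕ}
    (hP : ∀ n, d < n → IsZero (P.complex.X n)) {g : Γ} (hg : ¬ IsOfFinOrder g)
    (h : Tame (NG g)) : BPAt g hg := by
  intro s hs ε hε n x hx
  have h1 : ∀ j i, x (i + j) = 0 → x i = 0 := fun j => by
    induction j with
    | zero => exact fun i h => h
    | succ j ih => exact fun i h => ih i ((hx _).symm.trans ((congrArg _ h).trans (map_zero _)))
  exact fun i => h1 (d + 1) i ((ModuleCat.isZero_iff_subsingleton.1 (h.vanish hT P hP hg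
    (MonoidHom.id _) (fun _ _ h => h) (n + 2 * (i + d) + 1) (by omega))).elim _ _)

end Pool.Agent.Lib.MP_f0c981_al
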