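import Pool.Agent.Lib.MP_f0c981_al.Gysin

/-!
Reduction of property BP to finitely generated subgroups of the centralizer.
-/

set_option autoImplicit false

noncomputable section

namespace Pool.Agent.Lib.MP_f0c981_al

open Finsupp CategoryTheory Limits groupHomology

variable {N : Type} [Group N]

lemma exists_class {m : ℕ} {u : B ℚ N} (hu : u ∈ gr ℚ N (m + 2)) (h : ka m (bd u) = 0) :
    ∃ a, Reps (m + 1) a u := by
  have e : (inhomogeneousChains (QQ N)).d (m + 1) m (ka (m + 1) u) = 0 := by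
    rw [inhomogeneousChains.d_def]
    exact (ka_bd hu).symm.trans h
  exact ⟨_, hu, cyclesMk (m + 1) m (by simp) _ e, rfl, iCycles_mk _ _ _⟩

lemma Reps.sub {m : ℕ} {a a' : groupHomology (QQ N) m} {y y' : B ℚ N} (h : Reps m a y)
    (h' : Reps m a' y') : Reps m (a - a') (y - y') := by
  obtain ⟨h1, z, rfl, h2⟩ := h
  obtain ⟨h3, z', rfl, h4⟩ := h'
  exact ⟨sub_mem h1 h3, z - z', map_sub _ _ _, by rw [map_sub, map_sub, h2, h4]⟩

lemma capH_surj {G : Type} [Group G] (π : G →* N) {t : G} (hc : ∀ γ, γ * t = t * γ)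
    (ht : ¬ IsOfFinOrder t) (hπ : π.ker = Subgroup.zpowers t) {s : N → G} (hs : ∀ x, π (s x) = x)
    {ε : N → N → ℤ} (hε : ∀ x y, s x * s y = t ^ ε x y * s (x * y)) (hε' : IsCocycle ε) {L : ℕ}
    (hF : FD ℚ G G L) {m : ℕ} (hm : L < m) (a : groupHomology (QQ N) m) :
    ∃ a', capH hε' m a' = a := by
  obtain ⟨n, rfl⟩ : ∃ n, m = n + 1 := ⟨m - 1, by omega⟩
  obtain ⟨U, W, Ψ, Ψ', h1, h2, h3⟩ := gysin π hc ht hπ hs hε hε' hF (n := n) (by omega)
  obtain ⟨y, hy⟩ := exists_reps _ a
  obtain ⟨u1, u2, u3, u4⟩ := h3 y hy.1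
  obtain ⟨a', ha⟩ := exists_class u1 (u3 ▸ hy.cycle (by omega) (ka (n + 2) ∘ₗ Ψ) fun γ y hy => by
    rw [LinearMap.comp_apply, (h1 γ y hy).1]
    exact ka_act γ (h2 y hy).1)
  have h4 := hy.cycle (by omega) (ka (n + 1) ∘ₗ Ψ') fun γ y hy => by
    rw [LinearMap.comp_apply, (h1 γ y hy).2]
    exact ka_act γ (h2 y hy).2
  refine ⟨a', sub_eq_zero.1 (((ha.cap hε').sub hy).zero u2 ?_)⟩
  rw [u4, add_assoc, add_sub_cancel_left, map_add, add_eq_left]
  exact h4

lemma zero_of_range {N' : Type} [Group N'] (f : N' →* N) (hf : Function.Injective f) {m : ℕ}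
    (h : ∀ a : groupHomology (QQ N') (m + 1), a = 0) (z : cycles (QQ N) (m + 1))
    (w : (Fin (m + 1) → N) →₀ ℚ) (hw : iCycles (QQ N) (m + 1) z = w)
    (hz : ∀ x ∈ w.support, ∀ i, x i ∈ f.range) : π (QQ N) (m + 1) z = 0 := by
  let φ : QQ N' ⟶ Rep.res f (QQ N) := 𝟙 _
  have : Mono φ := inferInstanceAs (Mono (𝟙 (QQ N')))
  obtain ⟨w', hw'⟩ : ∃ w', mapDomain (fun x : Fin (m + 1) → N' => f ∘ x) w' = w :=
    ⟨_, mapDomain_comapDomain _ hf.comp_left w fun x hx => by
      choose y hy using hz x hx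
      exact ⟨y, funext hy⟩⟩
  have e0 : (chainsMap f φ).f (m + 1) w' = w := by
    rw [← hw']
    exact mapRange_id _
  have e1 : (inhomogeneousChains (QQ N')).d (m + 1) m w' = 0 := by
    apply (ModuleCat.mono_iff_injective _).1 (chainsMap_f_map_mono f φ hf m)
    have e := congrArg (fun ψ => ψ.hom w') ((chainsMap f φ).comm (m + 1) m)
    have e' := congrArg (fun ψ => ψ.hom z) ((inhomogeneousChains (QQ N)).iCycles_d (m + 1) m)
    refine e.symm.trans (Eq.trans ?_ (e'.trans (map_zero _).symm))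
    exact congrArg _ (e0.trans hw.symm)
  have e2 : cyclesMap f φ (m + 1) (cyclesMk (m + 1) m (by simp) w' e1) = z := by
    apply (ModuleCat.mono_iff_injective (iCycles (QQ N) (m + 1))).1 inferInstance
    have e := congrArg (fun ψ => ψ.hom (cyclesMk (m + 1) m (by simp) w' e1))
      (HomologicalComplex.cyclesMap_i (chainsMap f φ) (m + 1))
    refine e.trans (Eq.trans ?_ (e0.trans hw.symm))
    exact congrArg ((chainsMap f φ).f (m + 1)) (iCycles_mk (A := QQ N') (n := m) (by simp) w' e1)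
  rw [← e2]
  exact (π_map_apply f φ (m + 1) _).symm.trans ((congrArg _ (h _)).trans (map_zero _))

variable {Γ : Type} [Group Γ]

lemma res_resolution (S : Subgroup Γ) (P : ProjectiveResolution (Rep.trivial ℤ Γ ℤ)) {d : ℕ}
    (hP : ∀ n, d < n → IsZero (P.complex.X n)) :
    ∃ Q : ProjectiveResolution (Rep.trivial ℤ S ℤ), ∀ n, d < n → IsZero (Q.complex.X n) :=
  ⟨(Rep.resFunctor.{0} S.subtype).mapProjectiveResolution P, fun n hn =>
    Functor.map_isZero (Rep.resFunctor.{0} S.subtype) (hP n hn)⟩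

lemma BPAt.vanish (P : ProjectiveResolution (Rep.trivial ℤ Γ ℤ)) {d : ℕ}
    (hP : ∀ n, d < n → IsZero (P.complex.X n)) {g : Γ} {hg : ¬ IsOfFinOrder g} (h : BPAt g hg)
    {m : ℕ} (hm : d + 1 < m) (a : groupHomology (QQ (NG g)) m) : a = 0 := by
  obtain ⟨Q, hQ⟩ := res_resolution (Cent g) P hP
  let s : NG g → Cent g := Quotient.out
  have hs : ∀ x, (QuotientGroup.mk (s x) : NG g) = x := Quotient.out_eq
  have hε : ∀ x y, ∃ m : ℤ, s x * s y = gc g ^ m * s (x * y) := fun x y => by
    obtain ⟨m, hm⟩ : s x * s y * (s (x * y))⁻¹ ∈ Subgroup.zpowers (gc g) := by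
      rw [← QuotientGroup.eq_one_iff]
      simp [hs]
    exact ⟨m, eq_mul_of_mul_inv_eq hm.symm⟩
  choose ε hε using hε
  have key := fun m => capH_surj (QuotientGroup.mk' _) (gc_comm g)
    (fun h => hg ((Cent g).subtype.isOfFinOrder h)) (QuotientGroup.ker_mk' _) hs hε
    (isCocycle_of_section hg hε) ((FD_of_resolution Q d hQ).base (Int.castRingHom ℚ)) (m := m)
  choose F hF using fun j : ℕ => key (m + 2 * j) (by omega)
  exact h s hs ε hε m (fun j => Nat.rec (motive := fun j => groupHomology (QQ (NG g)) (m + 2 * j))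
    a (fun j x => F j x) j) (fun j => hF j _) 0

theorem bp_of_local (P : ProjectiveResolution (Rep.trivial ℤ Γ ℤ)) {d : ℕ}
    (hP : ∀ n, d < n → IsZero (P.complex.X n)) {g : Γ} (hg : ¬ IsOfFinOrder g)
    (h : ∀ B : Subgroup Γ, B.FG → B ≤ Cent g → ∀ (hB : g ∈ B) (hg'), BPAt (⟨g, hB⟩ : B) hg') :
    BPAt g hg := by
  classical
  intro s hs ε hε n x hx
  have key : ∀ m, d < m → ∀ a : groupHomology (QQ (NG g)) (m + 1), a = 0 := fun m hm a => by
    induction a using groupHomology_induction_on with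
    | h z =>
      obtain ⟨w, hw⟩ : ∃ w : (Fin (m + 1) → NG g) →₀ ℚ, iCycles (QQ (NG g)) (m + 1) z = w :=
        ⟨_, rfl⟩
      let T : Finset Γ := insert g (w.support.biUnion fun x => Finset.univ.image fun i => s (x i))
      let B := Subgroup.closure (T : Set Γ)
      have hB : g ∈ B := Subgroup.subset_closure (Finset.mem_insert_self _ _)
      have hle : B ≤ Cent g := (Subgroup.closure_le _).2 fun y hy => by
        rcases Finset.mem_insert.1 hy with rfl | hy
        · exact (gc y).2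
        · simp only [Finset.mem_biUnion, Finset.mem_image] at hy
          obtain ⟨x, -, i, -, rfl⟩ := hy
          exact (s (x i)).2
      let g' : B := ⟨g, hB⟩
      have hg' : ¬ IsOfFinOrder g' := fun h => hg (B.subtype.isOfFinOrder h)
      obtain ⟨Q, hQ⟩ := res_resolution B P hP
      let ψ : Cent g' →* Cent g := (Subgroup.inclusion hle).comp (Cent g').subtype
      have hψ : Subgroup.zpowers (gc g') = (Subgroup.zpowers (gc g)).comap ψ := by
        ext a
        simp only [Subgroup.mem_comap, Subgroup.mem_zpowers_iff]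
        exact exists_congr fun m => ⟨fun h => Subtype.ext (congrArg (fun a : Cent g' => a.1.1) h),
          fun h => Subtype.ext (Subtype.ext (congrArg (fun a : Cent g => a.1) h))⟩
      refine zero_of_range (QuotientGroup.map _ _ ψ hψ.le) ?_
        ((h B ⟨T, rfl⟩ hle hB hg').vanish Q hQ (by omega)) z w hw fun x hx i => ?_
      · rw [injective_iff_map_eq_one]
        intro a ha
        obtain ⟨a, rfl⟩ := QuotientGroup.mk_surjective a
        exact (QuotientGroup.eq_one_iff _).2 (hψ.ge ((QuotientGroup.eq_one_iff (ψ a)).1 ha))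
      · have h1 : (s (x i) : Γ) ∈ B := Subgroup.subset_closure (Finset.mem_insert_of_mem
          (Finset.mem_biUnion.2 ⟨x, hx, Finset.mem_image.2 ⟨i, Finset.mem_univ _, rfl⟩⟩))
        exact ⟨QuotientGroup.mk ⟨⟨_, h1⟩, Subgroup.mem_centralizer_singleton_iff.2
          (Subtype.ext (Subgroup.mem_centralizer_singleton_iff.1 (s (x i)).2))⟩, hs _⟩
  have h1 : ∀ j i, x (i + j) = 0 → x i = 0 := fun j => by
    induction j with
    | zero => exact fun i h => h
    | succ j ih => exact fun i h => ih i ((hx _).symm.trans ((congrArg _ h).trans (map_zero _)))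
  exact fun i => h1 (d + 1) i (key (n + 2 * (i + d) + 1) (by omega) _)

end Pool.Agent.Lib.MP_f0c981_al
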