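import Pool.Agent.Lib.MP_f0c981_al.Defs

set_option autoImplicit false

namespace Pool.Agent.Lib.MP_f0c981_al.OldNoRoot

open CategoryTheory Limits Pool.Agent.Lib.MP_f0c981_al

theorem result {Γ : Type} [Group Γ] (P : ProjectiveResolution (Rep.trivial ℤ Γ ℤ)) (d : ℕ)
    (hP : ∀ n, d < n → IsZero (P.complex.X n)) (g : Γ) (hg : ¬ IsOfFinOrder g)
    (p : ℕ) (hp : p.Prime) (A : Subgroup (Cent g)) (hA : A.FiniteIndex) (hgA : gc g ∈ A)
    (hr : ∀ a ∈ A, a ^ p ≠ gc g) : BPAt g hg := by
  intro s _ ε hε n x hx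
  let φ : A →* Γ := (Cent g).subtype.comp A.subtype
  have hφ : Function.Injective φ := (Cent g).subtype_injective.comp A.subtype_injective
  let π : A →* NG g := (QuotientGroup.mk' _).comp A.subtype
  let := MulAction.compHom Γ φ
  obtain ⟨L, hL⟩ := contr_of_root π ⟨gc g, hgA⟩ (fun a => Subtype.ext (gc_comm g a.1))
    (fun h => hg (φ.isOfFinOrder h)) (by
      ext a
      rw [MonoidHom.mem_ker, Subgroup.mem_zpowers_iff]
      refine (QuotientGroup.eq_one_iff _).trans (Subgroup.mem_zpowers_iff.trans ?_)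
      exact exists_congr fun m => ⟨fun h => Subtype.ext h, fun h => congrArg Subtype.val h⟩)
    (fun a h => hφ ((torsionFree P d hP (φ.isOfFinOrder h)).trans φ.map_one.symm)) hp
    (fun a h => hr a.1 a.2 (congrArg Subtype.val h)) (1 : Γ)
    (fun a s h => hφ ((mul_eq_right.1 h).trans φ.map_one.symm))
    (((FD_of_resolution P d hP).base (Int.castRingHom (ZMod p))).comp φ)
  have : π.range.FiniteIndex := by
    rw [MonoidHom.range_comp, Subgroup.range_subtype]
    exact ⟨fun h => hA.1 (Nat.eq_zero_of_zero_dvd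
      (h ▸ Subgroup.index_map_dvd _ (QuotientGroup.mk'_surjective _)))⟩
  exact lim_zero _ hp hL n x hx

end Pool.Agent.Lib.MP_f0c981_al.OldNoRoot
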